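import Pool.Agent.Hft.Comb

/-!
# MP_79e803_lc : basic lemmas on words, holes, patterns, windows
-/

namespace Hft

variable {A B C : Type*}

theorem wd_eq_iff {x : ℤ → A} {y : ℤ → A} {L : ℕ} {i j : ℤ} :
    wd x L i = wd y L j ↔ ∀ t : ℤ, -(L : ℤ) ≤ t → t ≤ L → x (i + t) = y (j + t) := by
  constructor
  · intro h t h1 h2
    have := congrFun h ⟨(t + L).toNat, by omega⟩
    simp only [wd] at this
    have e : ((t + L).toNat : ℤ) = t + L := Int.toNat_of_nonneg (by omega)
    rw [e] at this
    have e1 : i + (t + L) - L = i + t := by ring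
    have e2 : j + (t + L) - L = j + t := by ring
    rwa [e1, e2] at this
  · intro h
    funext s
    have := h ((s : ℤ) - L) (by omega) (by have := s.2; omega)
    simp only [wd]
    have e1 : i + ((s : ℤ) - L) = i + s - L := by ring
    have e2 : j + ((s : ℤ) - L) = j + s - L := by ring
    rwa [e1, e2] at this

/-- Words of smaller radius around a nearby position are determined. -/
theorem wd_sub {x : ℤ → A} {y : ℤ → A} {L M : ℕ} {i j t : ℤ} (h : wd x M i = wd y M j)
    (h1 : -((M : ℤ) - L) ≤ t) (h2 : t ≤ (M : ℤ) - L) : wd x L (i + t) = wd y L (j + t) := by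
  rw [wd_eq_iff] at h ⊢
  intro s hs1 hs2
  have := h (t + s) (by omega) (by omega)
  have e1 : i + (t + s) = i + t + s := by ring
  have e2 : j + (t + s) = j + t + s := by ring
  rwa [e1, e2] at this

theorem wd_sh (x : ℤ → A) (L : ℕ) (i k : ℤ) : wd (sh k x) L i = wd x L (i + k) := by
  funext s; simp only [wd, sh]; congr 1; ring

theorem inOrb_iff {x y : ℤ → A} : InOrb x y ↔
    ∀ L : ℕ, ∃ k : ℤ, ∀ t : ℤ, -(L : ℤ) ≤ t → t ≤ L → y t = x (k + t) := by
  constructor
  · intro h L
    obtain ⟨k, hk⟩ := h L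
    refine ⟨k, fun t h1 h2 => ?_⟩
    have := wd_eq_iff.1 hk t h1 h2
    simpa using this.symm
  · intro h L
    obtain ⟨k, hk⟩ := h L
    refine ⟨k, wd_eq_iff.2 fun t h1 h2 => ?_⟩
    simpa using (hk t h1 h2).symm

theorem nh_iff {x : ℤ → A} {q : ℕ} {i : ℤ} :
    NH x q i ↔ ∀ k l : ℤ, x (i + k * q) = x (i + l * q) :=
  ⟨fun h k l => (h k).trans (h l).symm, fun h k => by simpa using h k 0⟩

theorem nh_add {x : ℤ → A} {q : ℕ} {i : ℤ} (k : ℤ) : NH x q (i + k * q) ↔ NH x q i := by
  constructor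
  · intro h l
    have h1 := h (l - k)
    have h2 := h (-k)
    have e1 : i + k * q + (l - k) * q = i + l * q := by ring
    have e2 : i + k * q + -k * q = i := by ring
    rw [e1] at h1; rw [e2] at h2
    rw [h1, h2]
  · intro h l
    have h1 := h (k + l)
    have h2 := h k
    have e1 : i + (k + l) * q = i + k * q + l * q := by ring
    rw [e1] at h1
    rw [h1, h2]

theorem pat_add (x : ℤ → A) (q L : ℕ) (i k : ℤ) : Pat x q L (i + k * q) = Pat x q L i := by
  ext w
  constructor
  · rintro ⟨l, rfl⟩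
    exact ⟨k + l, by simp only; congr 1; ring⟩
  · rintro ⟨l, rfl⟩
    exact ⟨l - k, by simp only; congr 1; ring⟩

/-- Patterns of smaller radius at nearby positions are determined. -/
theorem pat_sub {x : ℤ → A} {y : ℤ → A} {q q' L M : ℕ} {i j t : ℤ}
    (h : Pat x q M i = Pat y q' M j) (h1 : -((M : ℤ) - L) ≤ t) (h2 : t ≤ (M : ℤ) - L) :
    Pat x q L (i + t) = Pat y q' L (j + t) := by
  have key : ∀ {x y : ℤ → A} {q q' : ℕ} {i j : ℤ}, Pat x q M i = Pat y q' M j →
      Pat x q L (i + t) ⊆ Pat y q' L (j + t) := by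
    intro x y q q' i j h w
    rintro ⟨k, rfl⟩
    have hk : wd x M (i + k * q) ∈ Pat y q' M j := h ▸ ⟨k, rfl⟩
    obtain ⟨l, hl⟩ := hk
    refine ⟨l, ?_⟩
    have := wd_sub (L := L) hl h1 h2
    simp only at this ⊢
    have e1 : j + l * q' + t = j + t + l * q' := by ring
    have e2 : i + k * q + t = i + t + k * q := by ring
    rwa [e1, e2] at this
  exact Set.Subset.antisymm (key h) (key h.symm)

theorem nh_iff_pat {x : ℤ → A} {q : ℕ} {i : ℤ} : NH x q i ↔ (Pat x q 0 i).Subsingleton := by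
  rw [nh_iff]
  constructor
  · rintro h _ ⟨k, rfl⟩ _ ⟨l, rfl⟩
    rw [wd_eq_iff]
    intro t h1 h2
    obtain rfl : t = 0 := by simp at h1 h2; omega
    simpa using h k l
  · intro h k l
    have h0 : wd x 0 (i + k * q) = wd x 0 (i + l * q) := h ⟨k, rfl⟩ ⟨l, rfl⟩
    have := wd_eq_iff.1 h0 0 (by simp) (by simp)
    simpa using this

/-- Whether a nearby position is a hole is determined by the pattern set. -/
theorem nh_congr {x : ℤ → A} {y : ℤ → A} {q q' M : ℕ} {i j t : ℤ}
    (h : Pat x q M i = Pat y q' M j) (h1 : -(M : ℤ) ≤ t) (h2 : t ≤ M) :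
    NH x q (i + t) ↔ NH y q' (j + t) := by
  rw [nh_iff_pat, nh_iff_pat, pat_sub (L := 0) h (by simpa using h1) (by simpa using h2)]

theorem win_unique {x : ℤ → A} {q : ℕ} {a b a' b' i : ℤ} (h : Win x q a b) (h' : Win x q a' b')
    (h1 : a ≤ i) (h2 : i ≤ b) (h3 : a' ≤ i) (h4 : i ≤ b') : a = a' ∧ b = b' := by
  obtain ⟨_, hN, hl, hr⟩ := h
  obtain ⟨_, hN', hl', hr'⟩ := h'
  constructor
  · rcases lt_trichotomy a a' with h | h | h
    · exact absurd (hN (a' - 1) (by omega) (by omega)) hl'
    · exact h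
    · exact absurd (hN' (a - 1) (by omega) (by omega)) hl
  · rcases lt_trichotomy b b' with h | h | h
    · exact absurd (hN' (b + 1) (by omega) (by omega)) hr
    · exact h
    · exact absurd (hN (b' + 1) (by omega) (by omega)) hr'

theorem win_add {x : ℤ → A} {q : ℕ} {a b : ℤ} (k : ℤ) :
    Win x q (a + k * q) (b + k * q) ↔ Win x q a b := by
  have aux : ∀ {a b : ℤ} (k : ℤ), Win x q a b → Win x q (a + k * q) (b + k * q) := by
    rintro a b k ⟨h0, hN, hl, hr⟩
    refine ⟨by omega, fun i h1 h2 => ?_, ?_, ?_⟩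
    · have := (nh_add (x := x) (q := q) (i := i - k * q) k).2 (hN _ (by omega) (by omega))
      simpa using this
    · have e : a + k * q - 1 = a - 1 + k * q := by ring
      rw [e, nh_add]; exact hl
    · have e : b + k * q + 1 = b + 1 + k * q := by ring
      rw [e, nh_add]; exact hr
  constructor
  · intro h
    have := aux (-k) h
    have e1 : a + k * q + -k * q = a := by ring
    have e2 : b + k * q + -k * q = b := by ring
    rwa [e1, e2] at this
  · exact aux k

/-- Windows at level `q` are shorter than `q`. -/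
theorem win_lt {x : ℤ → A} {q : ℕ} {a b : ℤ} (h : Win x q a b) : b + 1 - a < q := by
  by_contra hc
  obtain ⟨h0, hN, -, hr⟩ := h
  apply hr
  have := hN (b + 1 - q) (by omega) (by
    by_contra h3
    have : (q : ℤ) ≤ 0 := by omega
    have hq : (q : ℤ) = 0 := by omega
    exact hr (by intro k; rw [hq]; simp))
  have := (nh_add (x := x) (q := q) (i := b + 1 - q) 1).2 this
  simpa using this

end Hft
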