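import Pool.Agent.Hft.Defs
namespace Hft
namespace OrdBratteli

/-- The first `n` edges agree. -/
def Agree (B : OrdBratteli) (n : ℕ) (e f : B.Path) : Prop := ∀ i < n, e.1 i = f.1 i

/-- The first `n` edges are minimal. -/
def MinUp (B : OrdBratteli) (n : ℕ) (e : B.Path) : Prop := ∀ i < n, B.IsMinEdge (e.1 i)

/-- The first `n` edges are maximal. -/
def MaxUp (B : OrdBratteli) (n : ℕ) (e : B.Path) : Prop := ∀ i < n, B.IsMaxEdge (e.1 i)

private theorem edge_ext {B : OrdBratteli} {n : ℕ} {e f : B.Edge n} (h1 : e.1 = f.1)
    (h2 : (e.2 : ℕ) = f.2) : e = f := by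
  obtain ⟨v, j⟩ := e
  obtain ⟨v', j'⟩ := f
  simp only at h1 h2
  subst h1
  congr 1
  exact Fin.ext h2

private theorem next_not_max {B : OrdBratteli} {n : ℕ} {e f : B.Edge n} (h : B.NextEdge e f) :
    ¬ B.IsMaxEdge e := by
  intro hm
  obtain ⟨h1, h2⟩ := h
  have h3 := f.2.2
  have h4 : B.d n f.1 = B.d n e.1 := by rw [h1]
  unfold IsMaxEdge at hm
  omega

private theorem next_not_min {B : OrdBratteli} {n : ℕ} {e f : B.Edge n} (h : B.NextEdge e f) :
    ¬ B.IsMinEdge f := by
  intro hm
  have := h.2
  unfold IsMinEdge at hm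
  omega

private theorem next_unique {B : OrdBratteli} {n : ℕ} {e f f' : B.Edge n} (h : B.NextEdge e f)
    (h' : B.NextEdge e f') : f = f' :=
  edge_ext (h.1.trans h'.1.symm) (by rw [h.2, h'.2])

private theorem down {B : OrdBratteli} (e f : B.Path) : ∀ k : ℕ, e.1 k = f.1 k →
    (∀ i < k, B.IsMinEdge (e.1 i)) → (∀ i < k, B.IsMinEdge (f.1 i)) → ∀ i ≤ k, e.1 i = f.1 i := by
  intro k
  induction k with
  | zero =>
    intro h _ _ i hi
    obtain rfl : i = 0 := by omega
    exact h
  | succ k ih =>
    intro h he hf i hi
    rcases Nat.lt_or_ge k i with h1 | h1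
    · obtain rfl : i = k + 1 := by omega
      exact h
    · refine ih ?_ (fun j hj => he j (by omega)) (fun j hj => hf j (by omega)) i h1
      refine edge_ext ?_ ?_
      · rw [e.2 k, f.2 k, h]
      · have h1 := he k (by omega)
        have h2 := hf k (by omega)
        unfold IsMinEdge at h1 h2
        rw [h1, h2]

theorem vershik_max {B : OrdBratteli} {n : ℕ} {e e' : B.Path} (h : B.Vershik e e')
    (hn : B.MaxUp n e) : B.MinUp n e' := by
  rcases h with ⟨k, _, h2, h3, _⟩ | ⟨_, h2⟩
  · intro i hi
    refine h3 i ?_
    by_contra hc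
    exact next_not_max h2 (hn k (by omega))
  · exact fun i _ => h2 i

/-- If the first `n` edges are not all maximal, the image does not start with `n` minimal edges. -/
theorem vershik_not_min {B : OrdBratteli} {n : ℕ} {e e' : B.Path} (h : B.Vershik e e')
    (hn : ¬ B.MaxUp n e) : ¬ B.MinUp n e' := by
  rcases h with ⟨k, h1, h2, _, _⟩ | ⟨h1, _⟩
  · intro hm
    apply hn
    intro i hi
    refine h1 i ?_
    by_contra hc
    exact next_not_min h2 (hm k (by omega))
  · exact absurd (fun i _ => h1 i) hn

/-- If the first `n` edges are not all maximal, the first `n` edges of the image are determined by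
the first `n` edges. -/
theorem vershik_agree {B : OrdBratteli} {n : ℕ} {e e' f f' : B.Path} (h : B.Vershik e e')
    (h' : B.Vershik f f') (hn : ¬ B.MaxUp n e) (ha : B.Agree n e f) : B.Agree n e' f' := by
  rcases h with ⟨k, h1, h2, h3, h4⟩ | ⟨h1, _⟩
  · rcases h' with ⟨l, g1, g2, g3, g4⟩ | ⟨g1, _⟩
    · have hkn : k < n := by
        by_contra hc
        exact hn fun i hi => h1 i (by omega)
      have hln : l < n := by
        by_contra hc
        refine hn fun i hi => ?_
        rw [ha i hi]
        exact g1 i (by omega)
      have hkl : k = l := by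
        rcases lt_trichotomy k l with hlt | he | hlt
        · have := g1 k hlt
          rw [← ha k hkn] at this
          exact absurd this (next_not_max h2)
        · exact he
        · have := h1 l hlt
          rw [ha l hln] at this
          exact absurd this (next_not_max g2)
      subst hkl
      have hk : e'.1 k = f'.1 k := by
        rw [ha k hkn] at h2
        exact next_unique h2 g2
      intro i hi
      rcases Nat.lt_or_ge k i with h5 | h5
      · rw [h4 i h5, g4 i h5, ha i hi]
      · exact down e' f' k hk h3 g3 i h5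
    · exact absurd (fun i hi => by rw [ha i hi]; exact g1 i) hn
  · exact absurd (fun i _ => h1 i) hn

/-- Two paths whose first `n+1` edges are minimal and which pass through the same vertex of level
`n+1` have the same first `n+1` edges. -/
theorem agree_of_minUp {B : OrdBratteli} {n : ℕ} {e f : B.Path} (he : B.MinUp (n + 1) e)
    (hf : B.MinUp (n + 1) f) (hv : (e.1 n).1 = (f.1 n).1) : B.Agree (n + 1) e f := by
  have hn : e.1 n = f.1 n := by
    refine edge_ext hv ?_
    have h1 := he n (by omega)
    have h2 := hf n (by omega)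
    unfold IsMinEdge at h1 h2
    rw [h1, h2]
  intro i hi
  exact down e f n hn (fun j hj => he j (by omega)) (fun j hj => hf j (by omega)) i (by omega)

end OrdBratteli
end Hft
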