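import Pool.Agent.Hft.Base
open TopologicalSpace
namespace Hft

theorem top_isOpen_wd {n : ℕ} (L : ℕ) (w : Fin (2 * L + 1) → Fin n) :
    IsOpen {y : ℤ → Fin n | wd y L 0 = w} := by
  have hc : Continuous fun y : ℤ → Fin n => wd y L 0 :=
    continuous_pi fun j => continuous_apply _
  exact (isOpen_discrete {w}).preimage hc

/-- Cylinders around `0` are a base of neighbourhoods. -/
theorem top_nhds {n : ℕ} (x : ℤ → Fin n) {U : Set (ℤ → Fin n)} (hU : U ∈ nhds x) :
    ∃ L : ℕ, ∀ y, wd y L 0 = wd x L 0 → y ∈ U := by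
  rw [nhds_pi, Filter.mem_pi'] at hU
  obtain ⟨I, t, ht, hsub⟩ := hU
  refine ⟨I.sup Int.natAbs, fun y hy => hsub fun i hi => ?_⟩
  have hi' : i.natAbs ≤ I.sup Int.natAbs := Finset.le_sup (f := Int.natAbs) hi
  have h1 := wd_eq_iff.1 hy i (by omega) (by omega)
  rw [zero_add] at h1
  rw [h1]
  exact mem_of_mem_nhds (ht i)

theorem closure_eq_inOrb {n : ℕ} (x : ℤ → Fin n) :
    closure (Set.range fun k : ℤ => sh k x) = {y | InOrb x y} := by
  ext y
  constructor
  · intro hy L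
    have hU : {z : ℤ → Fin n | wd z L 0 = wd y L 0} ∈ nhds y :=
      (top_isOpen_wd L (wd y L 0)).mem_nhds rfl
    obtain ⟨z, hz, k, rfl⟩ := mem_closure_iff_nhds.1 hy _ hU
    refine ⟨k, ?_⟩
    have h1 : wd (sh k x) L 0 = wd y L 0 := hz
    rw [wd_sh, zero_add] at h1
    exact h1
  · intro hy
    rw [mem_closure_iff_nhds]
    intro U hU
    obtain ⟨L, hL⟩ := top_nhds y hU
    obtain ⟨k, hk⟩ := hy L
    exact ⟨sh k x, hL _ (by rw [wd_sh, zero_add, hk]), k, rfl⟩

theorem isClosed_inOrb {n : ℕ} (x : ℤ → Fin n) : IsClosed {y | InOrb x y} := by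
  rw [← closure_eq_inOrb]
  exact isClosed_closure

/-- Continuous functions on a closed set to a discrete space are locally determined. -/
theorem local_of_continuous {n : ℕ} {X : Set (ℤ → Fin n)} (hX : IsClosed X) {β : Type*}
    [TopologicalSpace β] [DiscreteTopology β] {f : X → β} (hf : Continuous f) :
    ∃ r : ℕ, ∀ x y : X, wd (x : ℤ → Fin n) r 0 = wd (y : ℤ → Fin n) r 0 → f x = f y := by
  haveI : CompactSpace X := isCompact_iff_compactSpace.1 hX.isCompact
  set U : ℕ → Set X := fun r => {x | ∀ y : X, wd (x : ℤ → Fin n) r 0 =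
    wd (y : ℤ → Fin n) r 0 → f x = f y} with hUdef
  have hmono : ∀ r s : ℕ, r ≤ s → ∀ x y : ℤ → Fin n, wd x s 0 = wd y s 0 →
      wd x r 0 = wd y r 0 := by
    intro r s hrs x y h
    rw [wd_eq_iff] at h ⊢
    intro t h1 h2
    exact h t (by omega) (by omega)
  have hUm : Monotone U := by
    intro r s hrs x hx y hy
    exact hx y (hmono r s hrs _ _ hy)
  have hUo : ∀ r, IsOpen (U r) := by
    intro r
    rw [isOpen_iff_mem_nhds]
    intro x hx
    have h1 : {z : X | wd (z : ℤ → Fin n) r 0 = wd (x : ℤ → Fin n) r 0} ∈ nhds x :=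
      ((top_isOpen_wd r (wd (x : ℤ → Fin n) r 0)).preimage continuous_subtype_val).mem_nhds rfl
    refine Filter.mem_of_superset h1 fun z hz y hy => ?_
    have hz' : wd (z : ℤ → Fin n) r 0 = wd (x : ℤ → Fin n) r 0 := hz
    rw [← hx z hz'.symm, ← hx y (hz'.symm.trans hy)]
  have hUc : (Set.univ : Set X) ⊆ ⋃ r, U r := by
    intro x _
    have h1 : f ⁻¹' {f x} ∈ nhds x :=
      ((isOpen_discrete {f x}).preimage hf).mem_nhds rfl
    rw [nhds_subtype, Filter.mem_comap] at h1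
    obtain ⟨V, hV, hVs⟩ := h1
    obtain ⟨L, hL⟩ := top_nhds _ hV
    refine Set.mem_iUnion.2 ⟨L, fun y hy => ?_⟩
    have h2 : y ∈ f ⁻¹' {f x} := hVs (hL _ hy.symm)
    exact (Set.mem_singleton_iff.1 h2).symm
  obtain ⟨r, hr⟩ := isCompact_univ.elim_directed_cover U hUo hUc
    (directed_of_isDirected_le fun _ _ h => hUm h)
  exact ⟨r, fun x y h => hr (Set.mem_univ x) y h⟩

end Hft
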