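import Pool.Agent.Hft.Bv1
import Pool.Agent.Hft.Top
open TopologicalSpace
namespace Hft

private theorem continuous_wd {n : ℕ} {X : Set (ℤ → Fin n)} (N : ℕ) :
    Continuous fun x : X => wd (x : ℤ → Fin n) N 0 :=
  continuous_pi fun j => (continuous_apply (0 + (j : ℤ) - N)).comp continuous_subtype_val

private theorem continuous_edge {n : ℕ} {X : Set (ℤ → Fin n)} {B : OrdBratteli}
    (h : X ≃ₜ B.Path) (i : ℕ) : Continuous fun x : X => (h x).1 i :=
  (continuous_apply i).comp (continuous_subtype_val.comp h.continuous)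

/-- A decreasing sequence of closed relations whose limit is contained in the diagonal. -/
private theorem compact_seq {n : ℕ} {X : Set (ℤ → Fin n)} (hX : IsClosed X)
    (P : ℕ → X → X → Prop) (hcl : ∀ m, IsClosed {p : X × X | P m p.1 p.2})
    (hanti : ∀ m x y, P (m + 1) x y → P m x y) (hlim : ∀ x y, (∀ m, P m x y) → x = y) (N : ℕ) :
    ∃ m, ∀ x y : X, P m x y → wd (x : ℤ → Fin n) N 0 = wd (y : ℤ → Fin n) N 0 := by
  by_contra hc
  push Not at hc
  have hcs : CompactSpace X := isCompact_iff_compactSpace.1 hX.isCompact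
  let K : ℕ → Set (X × X) := fun m =>
    {p | P m p.1 p.2} ∩ {p | wd (p.1 : ℤ → Fin n) N 0 ≠ wd (p.2 : ℤ → Fin n) N 0}
  have hcont : Continuous fun p : X × X =>
      (wd (p.1 : ℤ → Fin n) N 0, wd (p.2 : ℤ → Fin n) N 0) :=
    ((continuous_wd N).comp continuous_fst).prodMk ((continuous_wd N).comp continuous_snd)
  have hK : ∀ m, IsClosed (K m) := by
    intro m
    refine (hcl m).inter ?_
    have : IsClosed {w : (Fin (2 * N + 1) → Fin n) × (Fin (2 * N + 1) → Fin n) | w.1 ≠ w.2} :=
      isClosed_discrete _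
    exact this.preimage hcont
  obtain ⟨p, hp⟩ := IsCompact.nonempty_iInter_of_sequence_nonempty_isCompact_isClosed K
    (fun m p hp => ⟨hanti m _ _ hp.1, hp.2⟩)
    (fun m => by
      obtain ⟨x, y, h1, h2⟩ := hc m
      exact ⟨(x, y), h1, h2⟩)
    (hK 0).isCompact hK
  rw [Set.mem_iInter] at hp
  have he : p.1 = p.2 := hlim _ _ fun m => (hp m).1
  exact (hp 0).2 (by rw [he])

/-- `Agree n` is determined by a finite window. -/
theorem bv_loc {n : ℕ} {X : Set (ℤ → Fin n)} (hX : IsClosed X) {B : OrdBratteli}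
    (h : X ≃ₜ B.Path) (m : ℕ) : ∃ ρ : ℕ, ∀ x y : X,
      wd (x : ℤ → Fin n) ρ 0 = wd (y : ℤ → Fin n) ρ 0 → B.Agree m (h x) (h y) := by
  induction m with
  | zero => exact ⟨0, fun x y _ i hi => absurd hi (by omega)⟩
  | succ m ih =>
    obtain ⟨ρ, hρ⟩ := ih
    obtain ⟨r, hr⟩ := local_of_continuous hX (continuous_edge h m)
    refine ⟨max ρ r, fun x y hxy i hi => ?_⟩
    have h1 := wd_sub (L := ρ) (t := 0) hxy (by omega) (by omega)
    have h2 := wd_sub (L := r) (t := 0) hxy (by omega) (by omega)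
    rcases Nat.lt_or_ge i m with h3 | h3
    · exact hρ x y (by simpa using h1) i h3
    · obtain rfl : i = m := by omega
      exact hr x y (by simpa using h2)

/-- A finite window is determined by finitely many edges. -/
theorem bv_window {n : ℕ} {X : Set (ℤ → Fin n)} (hX : IsClosed X) {B : OrdBratteli}
    (h : X ≃ₜ B.Path) (N : ℕ) : ∃ m : ℕ, ∀ x y : X, B.Agree m (h x) (h y) →
      wd (x : ℤ → Fin n) N 0 = wd (y : ℤ → Fin n) N 0 := by
  refine compact_seq hX (fun m x y => B.Agree m (h x) (h y)) ?_ ?_ ?_ N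
  · intro m
    have : {p : X × X | B.Agree m (h p.1) (h p.2)} =
        ⋂ i : ℕ, ⋂ _ : i < m, {p : X × X | (h p.1).1 i = (h p.2).1 i} := by
      ext p
      simp [OrdBratteli.Agree]
    rw [this]
    refine isClosed_iInter fun i => isClosed_iInter fun _ => ?_
    exact isClosed_eq ((continuous_edge h i).comp continuous_fst)
      ((continuous_edge h i).comp continuous_snd)
  · exact fun m x y ha i hi => ha i (by omega)
  · intro x y ha
    apply h.injective
    apply Subtype.ext
    funext i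
    exact ha (i + 1) i (by omega)

/-- The bases shrink to a point. -/
theorem bv_base {n : ℕ} {X : Set (ℤ → Fin n)} (hX : IsClosed X) {B : OrdBratteli}
    (hp : ∃! e : B.Path, ∀ i, B.IsMinEdge (e.1 i)) (h : X ≃ₜ B.Path) (N : ℕ) :
    ∃ m0 : ℕ, ∀ m, m0 ≤ m → ∀ x y : X, B.MinUp m (h x) → B.MinUp m (h y) →
      wd (x : ℤ → Fin n) N 0 = wd (y : ℤ → Fin n) N 0 := by
  obtain ⟨m0, hm0⟩ := compact_seq hX (fun m x y => B.MinUp m (h x) ∧ B.MinUp m (h y)) (by
    intro m
    have : {p : X × X | B.MinUp m (h p.1) ∧ B.MinUp m (h p.2)} =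
        (⋂ i : ℕ, ⋂ _ : i < m, {p : X × X | B.IsMinEdge ((h p.1).1 i)}) ∩
          ⋂ i : ℕ, ⋂ _ : i < m, {p : X × X | B.IsMinEdge ((h p.2).1 i)} := by
      ext p
      simp [OrdBratteli.MinUp]
    rw [this]
    refine (isClosed_iInter fun i => isClosed_iInter fun _ => ?_).inter
      (isClosed_iInter fun i => isClosed_iInter fun _ => ?_)
    · exact (isClosed_discrete {e : B.Edge i | B.IsMinEdge e}).preimage
        ((continuous_edge h i).comp continuous_fst)
    · exact (isClosed_discrete {e : B.Edge i | B.IsMinEdge e}).preimage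
        ((continuous_edge h i).comp continuous_snd))
    (fun m x y ha => ⟨fun i hi => ha.1 i (by omega), fun i hi => ha.2 i (by omega)⟩)
    (fun x y ha => h.injective (hp.unique (fun i => (ha (i + 1)).1 i (by omega))
      (fun i => (ha (i + 1)).2 i (by omega)))) N
  exact ⟨m0, fun m hm x y hx hy => hm0 x y ⟨fun i hi => hx i (by omega), fun i hi => hy i (by omega)⟩⟩

end Hft
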