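import Pool.Agent.Hft.Base
namespace Hft
variable {A B C : Type*}

theorem inOrb_refl (x : ℤ → A) : InOrb x x := fun _ => ⟨0, rfl⟩

theorem inOrb_trans {x y z : ℤ → A} (h1 : InOrb x y) (h2 : InOrb y z) : InOrb x z := by
  rw [inOrb_iff] at *
  intro L
  obtain ⟨k, hk⟩ := h2 L
  obtain ⟨l, hl⟩ := h1 (L + k.natAbs)
  refine ⟨l + k, fun t h1 h2 => ?_⟩
  rw [hk t h1 h2, hl (k + t) (by omega) (by omega)]
  congr 1
  ring

theorem inOrb_sh (x : ℤ → A) (k : ℤ) : InOrb x (sh k x) :=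
  fun L => ⟨k, by rw [wd_sh]; simp⟩

theorem inOrb_of_sh {x y : ℤ → A} {k : ℤ} (h : InOrb x y) : InOrb (sh k x) y := by
  intro L
  obtain ⟨l, hl⟩ := h L
  exact ⟨l - k, by rw [wd_sh]; simpa using hl⟩

theorem inOrb_symm {x y : ℤ → A} (hx : UR x) (h : InOrb x y) : InOrb y x := by
  intro L
  obtain ⟨N, hN⟩ := hx L
  obtain ⟨k, hk⟩ := inOrb_iff.1 h (N + L)
  obtain ⟨j, h1, h2, hj⟩ := hN k
  refine ⟨j - k, wd_eq_iff.2 fun t h3 h4 => ?_⟩
  rw [hk _ (by omega) (by omega)]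
  have := wd_eq_iff.1 hj t h3 h4
  rw [← this]
  congr 1
  ring

theorem ur_of_inOrb {x y : ℤ → A} (hx : UR x) (h : InOrb x y) : UR y := by
  intro L
  obtain ⟨k, hk⟩ := inOrb_iff.1 h L
  obtain ⟨N, hN⟩ := hx (L + k.natAbs)
  refine ⟨N, fun i => ?_⟩
  obtain ⟨m, hm⟩ := inOrb_iff.1 h (i.natAbs + N + L)
  obtain ⟨j, h1, h2, hj⟩ := hN (m + i - k)
  refine ⟨j + k - m, by omega, by omega, wd_eq_iff.2 fun t h3 h4 => ?_⟩
  have e := wd_eq_iff.1 hj (k + t) (by omega) (by omega)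
  rw [hm _ (by omega) (by omega), zero_add, hk t h3 h4]
  have e1 : m + (j + k - m + t) = j + (k + t) := by ring
  rw [e1, e, zero_add]

theorem app_sh (c : Code A B) (x : ℤ → A) (k : ℤ) : c.app (sh k x) = sh k (c.app x) := by
  funext i
  show c.f (wd (sh k x) c.r i) = c.f (wd x c.r (i + k))
  rw [wd_sh]

theorem inOrb_app (c : Code A B) {x y : ℤ → A} (h : InOrb x y) : InOrb (c.app x) (c.app y) := by
  rw [inOrb_iff] at *
  intro L
  obtain ⟨k, hk⟩ := h (L + c.r)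
  refine ⟨k, fun t h1 h2 => ?_⟩
  refine congrArg c.f (wd_eq_iff.2 fun s h3 h4 => ?_)
  rw [hk _ (by omega) (by omega)]
  congr 1
  ring

theorem app_eq_of_wd (c : Code A B) {x y : ℤ → A} {L : ℕ} {i j : ℤ}
    (h : wd x (L + c.r) i = wd y (L + c.r) j) {t : ℤ} (h1 : -(L : ℤ) ≤ t) (h2 : t ≤ L) :
    c.app x (i + t) = c.app y (j + t) :=
  congrArg c.f (wd_sub (L := c.r) h (by push_cast; omega) (by push_cast; omega))

theorem ur_app (c : Code A B) {x : ℤ → A} (hx : UR x) : UR (c.app x) := by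
  intro L
  obtain ⟨N, hN⟩ := hx (L + c.r)
  refine ⟨N, fun i => ?_⟩
  obtain ⟨j, h1, h2, hj⟩ := hN i
  exact ⟨j, h1, h2, wd_eq_iff.2 fun t h3 h4 => app_eq_of_wd c hj h3 h4⟩

/-- joint versions: the pair `(x, c.app x)` -/
theorem ur_pair (c : Code A B) {x : ℤ → A} (hx : UR x) : UR fun i => (x i, c.app x i) := by
  intro L
  obtain ⟨N, hN⟩ := hx (L + c.r)
  refine ⟨N, fun i => ?_⟩
  obtain ⟨j, h1, h2, hj⟩ := hN i
  refine ⟨j, h1, h2, wd_eq_iff.2 fun t h3 h4 => ?_⟩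
  exact Prod.ext (wd_eq_iff.1 hj t (by omega) (by omega)) (app_eq_of_wd c hj h3 h4)

theorem inOrb_pair (c : Code A B) {x y : ℤ → A} (h : InOrb x y) :
    InOrb (fun i => (x i, c.app x i)) (fun i => (y i, c.app y i)) := by
  intro L
  obtain ⟨k, hk⟩ := h (L + c.r)
  refine ⟨k, wd_eq_iff.2 fun t h3 h4 => ?_⟩
  exact Prod.ext (wd_eq_iff.1 hk t (by omega) (by omega)) (app_eq_of_wd c hk h3 h4)

end Hft
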