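import Pool.Agent.Hft.Base
namespace Hft
variable {A : Type*}

theorem lw_def (x : ℤ → A) (i j : ℤ) :
    lw x i j = (List.range (j - i).toNat).map fun t : ℕ => x (i + (t : ℤ)) := by
  simp only [lw, List.pure_def, List.bind_eq_flatMap, List.map_flatMap, List.map_cons,
    List.map_nil]
  generalize List.range (j - i).toNat = l
  induction l with
  | nil => rfl
  | cons a l ih => simp only [List.flatMap_cons, List.map_cons, ih]; rfl

theorem lw_length (x : ℤ → A) (i j : ℤ) : (lw x i j).length = (j - i).toNat := by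
  simp [lw_def]

theorem lw_append (x : ℤ → A) {i j k : ℤ} (h1 : i ≤ j) (h2 : j ≤ k) :
    lw x i j ++ lw x j k = lw x i k := by
  have e : (k - i).toNat = (j - i).toNat + (k - j).toNat := by omega
  simp only [lw_def]
  rw [e, List.range_add, List.map_append, List.map_map]
  congr 1
  apply List.map_congr_left
  intro t _
  simp only [Function.comp]
  congr 1
  have : ((j - i).toNat : ℤ) = j - i := Int.toNat_of_nonneg (by omega)
  push_cast
  rw [this]
  ring

theorem lw_eq_iff {x y : ℤ → A} {i j i' j' : ℤ} (h : j - i = j' - i') (h0 : i ≤ j) :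
    lw x i j = lw y i' j' ↔ ∀ t : ℤ, 0 ≤ t → t < j - i → x (i + t) = y (i' + t) := by
  simp only [lw_def]
  rw [← h]
  rw [List.map_inj_left]
  constructor
  · intro hh t h1 h2
    have := hh t.toNat (List.mem_range.2 (by omega))
    rwa [Int.toNat_of_nonneg h1] at this
  · intro hh t ht
    rw [List.mem_range] at ht
    exact hh t (by omega) (by omega)

/-- The next cutting point after `i`. -/
theorem exists_next {x : ℤ → A} {K N : ℕ} {D : Set ℤ} (h : Bd x K N D) (i : ℤ) :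
    ∃ j ∈ D, i < j ∧ ∀ s ∈ D, s ≤ i ∨ j ≤ s := by
  classical
  obtain ⟨G, hG⟩ := h.gap
  obtain ⟨j0, hj0, h1, -⟩ := hG (i + 1)
  obtain ⟨j, ⟨hj, hij⟩, hmin⟩ := Int.exists_least_of_bdd (P := fun j => j ∈ D ∧ i < j)
    ⟨i, fun z hz => hz.2.le⟩ ⟨j0, hj0, by omega⟩
  refine ⟨j, hj, hij, fun s hs => ?_⟩
  by_cases hsi : s ≤ i
  · exact Or.inl hsi
  · exact Or.inr (hmin s ⟨hs, by omega⟩)

/-- The last cutting point before or at `i`. -/
theorem exists_prev {x : ℤ → A} {K N : ℕ} {D : Set ℤ} (h : Bd x K N D) (i : ℤ) :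
    ∃ j ∈ D, j ≤ i ∧ ∀ s ∈ D, s ≤ j ∨ i < s := by
  classical
  obtain ⟨G, hG⟩ := h.gap
  obtain ⟨j0, hj0, h1, h2⟩ := hG (i - G)
  obtain ⟨j, ⟨hj, hij⟩, hmax⟩ := Int.exists_greatest_of_bdd (P := fun j => j ∈ D ∧ j ≤ i)
    ⟨i, fun z hz => hz.2⟩ ⟨j0, hj0, by omega⟩
  refine ⟨j, hj, hij, fun s hs => ?_⟩
  by_cases hsi : i < s
  · exact Or.inr hsi
  · exact Or.inl (hmax s ⟨hs, by omega⟩)

/-- Context as a word: all cutting points are followed by the same word of length `N`. -/
theorem ctx_lw {x : ℤ → A} {K N : ℕ} {D : Set ℤ} (h : Bd x K N D) {i j : ℤ} (hi : i ∈ D)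
    (hj : j ∈ D) : lw x i (i + N) = lw x j (j + N) := by
  rw [lw_eq_iff (by ring) (by omega)]
  intro t h1 h2
  exact h.ctx i hi j hj t (by omega) (by omega)

end Hft
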