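import Pool.Agent.Hft.Bv2
import Pool.Agent.Hft.Orb
import Pool.Agent.Hft.Parse
open TopologicalSpace
namespace Hft

theorem bd_of_rank {n : ℕ} {x : ℤ → Fin n} (hx : UR x) (h : FiniteTopRank {y | InOrb x y}) :
    ∃ K : ℕ, ∀ N : ℕ, ∃ D : Set ℤ, Bd x K N D := by
  classical
  obtain ⟨K, B, hB, hV, h, hcomm⟩ := h
  have hX : IsClosed {y | InOrb x y} := isClosed_inOrb x
  refine ⟨K, fun N => ?_⟩
  obtain ⟨m0, hm0⟩ := bv_base hX hB.2.1 h N
  obtain ⟨m1, hm1⟩ := bv_window hX h 0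
  set m' : ℕ := m0 + m1 with hm'
  set m : ℕ := m' + 1 with hm
  let pt : ℤ → {y | InOrb x y} := fun i => ⟨sh i x, inOrb_sh x i⟩
  have hnext : ∀ i, B.Vershik (h (pt i)) (h (pt (i + 1))) := by
    intro i
    refine hcomm _ _ ?_
    funext j
    show x (j + (i + 1)) = x (j + 1 + i)
    congr 1; ring
  set D : Set ℤ := {i | B.MinUp m (h (pt i))} with hD
  obtain ⟨ρ, hρ⟩ := bv_loc hX h m
  have hminagree : ∀ {e f : B.Path}, B.Agree m e f → B.MinUp m e → B.MinUp m f := by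
    intro e f ha he i hi
    rw [← ha i hi]
    exact he i hi
  have hmaxagree : ∀ {e f : B.Path}, B.Agree m e f → B.MaxUp m e → B.MaxUp m f := by
    intro e f ha he i hi
    rw [← ha i hi]
    exact he i hi
  have hsymm : ∀ {e f : B.Path}, B.Agree m e f → B.Agree m f e := fun ha i hi => (ha i hi).symm
  have hwd : ∀ (L : ℕ) (i : ℤ), wd ((pt i : {y | InOrb x y}) : ℤ → Fin n) L 0 = wd x L i := by
    intro L i
    show wd (sh i x) L 0 = wd x L i
    rw [wd_sh, zero_add]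
  -- return times and words are determined by the vertex
  have hkey : ∀ i j i' j' : ℤ, i ∈ D → j ∈ D → i < j → (∀ s ∈ D, s ≤ i ∨ j ≤ s) →
      i' ∈ D → j' ∈ D → i' < j' → (∀ s ∈ D, s ≤ i' ∨ j' ≤ s) →
      ((h (pt i)).1 m').1 = ((h (pt i')).1 m').1 →
      (∀ t : ℕ, (t : ℤ) < j - i → (t : ℤ) < j' - i' →
        B.Agree m (h (pt (i + t))) (h (pt (i' + t)))) ∧ j' - i' ≤ j - i := by
    intro i j i' j' hi hj hij hadj hi' hj' hij' hadj' hv
    have h1 : ∀ t : ℕ, (t : ℤ) < j - i → (t : ℤ) < j' - i' →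
        B.Agree m (h (pt (i + t))) (h (pt (i' + t))) := by
      intro t
      induction t with
      | zero =>
        intro _ _
        have := OrdBratteli.agree_of_minUp (n := m') hi hi' hv
        simpa using this
      | succ t ih =>
        intro ht1 ht2
        have ih' := ih (by push_cast at ht1; omega) (by push_cast at ht2; omega)
        have hnot : ¬ B.MaxUp m (h (pt (i + t))) := by
          intro hmax
          have h2 := OrdBratteli.vershik_max (hnext (i + t)) hmax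
          have h3 : i + (t : ℤ) + 1 ∈ D := h2
          rcases hadj _ h3 with h4 | h4 <;> push_cast at ht1 <;> omega
        have h2 := OrdBratteli.vershik_agree (hnext (i + t)) (hnext (i' + t)) hnot ih'
        have e1 : i + ((t + 1 : ℕ) : ℤ) = i + t + 1 := by push_cast; ring
        have e2 : i' + ((t + 1 : ℕ) : ℤ) = i' + t + 1 := by push_cast; ring
        rw [e1, e2]
        exact h2
    refine ⟨h1, ?_⟩
    by_contra hc
    push Not at hc
    obtain ⟨T, hT⟩ := Int.eq_ofNat_of_zero_le (show 0 ≤ j - i - 1 by omega)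
    have h2 := h1 T (by omega) (by omega)
    have h3 : B.MaxUp m (h (pt (i + T))) := by
      by_contra hnot
      have h4 := OrdBratteli.vershik_not_min (hnext (i + T)) hnot
      apply h4
      have e1 : i + (T : ℤ) + 1 = j := by omega
      rw [e1]
      exact hj
    have h4 := OrdBratteli.vershik_max (hnext (i' + T)) (hmaxagree h2 h3)
    have h5 : i' + (T : ℤ) + 1 ∈ D := h4
    rcases hadj' _ h5 with h6 | h6 <;> omega
  have hword : ∀ i j i' j' : ℤ, i ∈ D → j ∈ D → i < j → (∀ s ∈ D, s ≤ i ∨ j ≤ s) →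
      i' ∈ D → j' ∈ D → i' < j' → (∀ s ∈ D, s ≤ i' ∨ j' ≤ s) →
      ((h (pt i)).1 m').1 = ((h (pt i')).1 m').1 → lw x i j = lw x i' j' := by
    intro i j i' j' hi hj hij hadj hi' hj' hij' hadj' hv
    obtain ⟨h1, h2⟩ := hkey i j i' j' hi hj hij hadj hi' hj' hij' hadj' hv
    obtain ⟨-, h3⟩ := hkey i' j' i j hi' hj' hij' hadj' hi hj hij hadj hv.symm
    rw [lw_eq_iff (by omega) hij.le]
    intro t ht1 ht2
    obtain ⟨t, rfl⟩ := Int.eq_ofNat_of_zero_le ht1
    have h4 := h1 t ht2 (by omega)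
    have h5 := hm1 (pt (i + t)) (pt (i' + t)) fun s hs => h4 s (by omega)
    rw [hwd, hwd] at h5
    have := wd_eq_iff.1 h5 0 (by simp) (by simp)
    simpa using this
  let ψ : Fin (B.V m) → List (Fin n) := fun v =>
    if hv : ∃ u : List (Fin n), ∃ i j : ℤ, i ∈ D ∧ j ∈ D ∧ i < j ∧ (∀ s ∈ D, s ≤ i ∨ j ≤ s) ∧
      ((h (pt i)).1 m').1 = v ∧ u = lw x i j then hv.choose else []
  have hret : RetW x D ⊆ ψ '' Set.univ := by
    rintro u ⟨i, hi, j, hj, hij, hadj, rfl⟩
    refine ⟨((h (pt i)).1 m').1, trivial, ?_⟩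
    have hv : ∃ u : List (Fin n), ∃ i1 j1 : ℤ, i1 ∈ D ∧ j1 ∈ D ∧ i1 < j1 ∧
        (∀ s ∈ D, s ≤ i1 ∨ j1 ≤ s) ∧ ((h (pt i1)).1 m').1 = ((h (pt i)).1 m').1 ∧
        u = lw x i1 j1 := ⟨_, i, j, hi, hj, hij, hadj, rfl, rfl⟩
    have hψ : ψ ((h (pt i)).1 m').1 = hv.choose := dif_pos hv
    rw [hψ]
    obtain ⟨i1, j1, hi1, hj1, hij1, hadj1, hv1, hu1⟩ := hv.choose_spec
    rw [hu1]
    exact hword i1 j1 i j hi1 hj1 hij1 hadj1 hi hj hij hadj hv1
  have hfin : (ψ '' Set.univ).Finite := Set.toFinite _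
  refine ⟨D, ⟨ρ, fun i j hij => ?_⟩, ?_, ?_, hfin.subset hret, ?_⟩
  · have ha := hρ (pt i) (pt j) (by rw [hwd, hwd]; exact hij)
    exact ⟨hminagree ha, hminagree (hsymm ha)⟩
  · -- the minimal path
    obtain ⟨e, he, -⟩ := hB.2.1
    set x0 : {y | InOrb x y} := h.symm e with hx0
    have hx0' : h x0 = e := h.apply_symm_apply e
    obtain ⟨k, hk⟩ := x0.2 ρ
    obtain ⟨G, hG⟩ := hx (ρ + k.natAbs)
    refine ⟨G, fun i => ?_⟩
    obtain ⟨j, hj1, hj2, hj3⟩ := hG (i - k)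
    refine ⟨j + k, ?_, by omega, by omega⟩
    have h1 : wd x ρ (j + k) = wd x ρ k := by
      have := wd_sub (L := ρ) hj3 (t := k) (by omega) (by omega)
      rwa [zero_add] at this
    have h2 : B.Agree m (h x0) (h (pt (j + k))) := hρ _ _ (by rw [hwd, h1]; exact hk.symm)
    refine hminagree h2 ?_
    rw [hx0']
    exact fun i _ => he i
  · intro i hi j hj t ht1 ht2
    have h1 := hm0 m (by omega) (pt i) (pt j) hi hj
    rw [hwd, hwd] at h1
    exact wd_eq_iff.1 h1 t ht1 ht2.le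
  · calc (RetW x D).ncard ≤ (ψ '' Set.univ).ncard := Set.ncard_le_ncard hret hfin
      _ ≤ (Set.univ : Set (Fin (B.V m))).ncard := Set.ncard_image_le Set.finite_univ
      _ = B.V m := by rw [Set.ncard_univ, Nat.card_eq_fintype_card, Fintype.card_fin]
      _ ≤ K := hV m

end Hft
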