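import Pool.Agent.Hft.Top
import Pool.Agent.Hft.Orb
open TopologicalSpace
namespace Hft

theorem continuous_wd {m : ℕ} (r : ℕ) (i : ℤ) : Continuous fun z : ℤ → Fin m => wd z r i := by
  unfold wd
  exact continuous_pi fun j => continuous_apply _

theorem continuous_app {m n : ℕ} (c : Code (Fin m) (Fin n)) : Continuous c.app := by
  refine continuous_pi fun i => ?_
  exact (continuous_of_discreteTopology (f := c.f)).comp (continuous_wd c.r i)

theorem shift_injective {α : Type*} {y z : ℤ → α} (h : shift y = shift z) : y = z := by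
  funext i
  have := congrFun h (i - 1)
  simpa [shift] using this

theorem shift_sh {α : Type*} (k : ℤ) (x : ℤ → α) : shift (sh k x) = sh (k + 1) x := by
  funext i
  simp only [shift, sh]
  congr 1
  ring

/-- An equivariant function on an orbit closure commutes with all shifts. -/
theorem equivariant_sh {m n : ℕ} {x : ℤ → Fin m} {Y : Set (ℤ → Fin n)}
    (f : {z | InOrb x z} → Y)
    (he : ∀ z w : {z | InOrb x z}, (w : ℤ → Fin m) = shift (z : ℤ → Fin m) →
      ((f w : Y) : ℤ → Fin n) = shift ((f z : Y) : ℤ → Fin n)) (z : {z | InOrb x z})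
    (k : ℤ) : ((f ⟨sh k z, inOrb_trans z.2 (inOrb_sh _ k)⟩ : Y) : ℤ → Fin n) =
      sh k ((f z : Y) : ℤ → Fin n) := by
  have step : ∀ k : ℤ, ((f ⟨sh (k + 1) z, inOrb_trans z.2 (inOrb_sh _ (k + 1))⟩ : Y) : ℤ → Fin n)
      = shift ((f ⟨sh k z, inOrb_trans z.2 (inOrb_sh _ k)⟩ : Y) : ℤ → Fin n) := by
    intro k
    exact he ⟨sh k z, inOrb_trans z.2 (inOrb_sh _ k)⟩
      ⟨sh (k + 1) z, inOrb_trans z.2 (inOrb_sh _ (k + 1))⟩ (shift_sh k _).symm
  induction k using Int.induction_on with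
  | zero =>
    have e : (⟨sh 0 z, inOrb_trans z.2 (inOrb_sh _ 0)⟩ : {z | InOrb x z}) = z := by
      apply Subtype.ext
      funext i
      simp [sh]
    rw [e]
    funext i
    simp [sh]
  | succ k ih =>
    rw [step, ih, shift_sh]
  | pred k ih =>
    have h1 := step (-(k : ℤ) - 1)
    have e : (-(k : ℤ) - 1 + 1) = -(k : ℤ) := by ring
    have e2 : ((f ⟨sh (-(k : ℤ) - 1 + 1) z, inOrb_trans z.2 (inOrb_sh _ (-(k : ℤ) - 1 + 1))⟩ : Y) :
        ℤ → Fin n) = ((f ⟨sh (-(k : ℤ)) z, inOrb_trans z.2 (inOrb_sh _ (-(k : ℤ)))⟩ : Y) :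
        ℤ → Fin n) := by
      congr 2
      apply Subtype.ext
      simp only [e]
    rw [e2, ih] at h1
    apply shift_injective
    rw [← h1, shift_sh, e]

/-- CHL (Curtis-Hedlund-Lyndon for orbit closures). -/
theorem code_of_equivariant {m n : ℕ} {x : ℤ → Fin m} {Y : Set (ℤ → Fin n)}
    (f : {z | InOrb x z} → Y) (hf : Continuous f)
    (he : ∀ z w : {z | InOrb x z}, (w : ℤ → Fin m) = shift (z : ℤ → Fin m) →
      ((f w : Y) : ℤ → Fin n) = shift ((f z : Y) : ℤ → Fin n)) :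
    ∃ c : Code (Fin m) (Fin n), ∀ z : {z | InOrb x z}, ((f z : Y) : ℤ → Fin n) = c.app z := by
  classical
  have hf0 : Continuous fun z : {z | InOrb x z} => ((f z : Y) : ℤ → Fin n) 0 :=
    (continuous_apply 0).comp (continuous_subtype_val.comp hf)
  obtain ⟨r, hr⟩ := local_of_continuous (isClosed_inOrb x) hf0
  let x0 : {z | InOrb x z} := ⟨x, inOrb_refl x⟩
  refine ⟨⟨r, fun w => if h : ∃ z : {z | InOrb x z}, wd (z : ℤ → Fin m) r 0 = w then
    ((f h.choose : Y) : ℤ → Fin n) 0 else ((f x0 : Y) : ℤ → Fin n) 0⟩, fun z => ?_⟩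
  funext i
  have h1 := congrFun (equivariant_sh f he z i) 0
  have h2 : sh i ((f z : Y) : ℤ → Fin n) 0 = ((f z : Y) : ℤ → Fin n) i := by simp [sh]
  rw [h2] at h1
  rw [← h1]
  have hex : ∃ z' : {z | InOrb x z}, wd (z' : ℤ → Fin m) r 0 = wd (z : ℤ → Fin m) r i :=
    ⟨⟨sh i z, inOrb_trans z.2 (inOrb_sh _ i)⟩, by rw [wd_sh]; simp⟩
  simp only [Code.app]
  rw [dif_pos hex]
  apply hr
  rw [hex.choose_spec, wd_sh]
  simp

theorem conj_code {m n : ℕ} {x : ℤ → Fin m} {y : ℤ → Fin n} (hy : UR y)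
    (h : Conj {z | InOrb x z} {z | InOrb y z}) :
    ∃ (c : Code (Fin m) (Fin n)) (d : Code (Fin n) (Fin m)), IsoP x y c d := by
  obtain ⟨h, he⟩ := h
  obtain ⟨c, hc⟩ := code_of_equivariant h h.continuous he
  have he' : ∀ z w : {z | InOrb y z}, (w : ℤ → Fin n) = shift (z : ℤ → Fin n) →
      ((h.symm w : {z | InOrb x z}) : ℤ → Fin m) =
        shift ((h.symm z : {z | InOrb x z}) : ℤ → Fin m) := by
    intro z' w' hw
    have hmem : InOrb x (shift ((h.symm z' : {z | InOrb x z}) : ℤ → Fin m)) :=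
      inOrb_trans (h.symm z').2 (inOrb_sh _ 1)
    have h1 := he (h.symm z') ⟨_, hmem⟩ rfl
    rw [h.apply_symm_apply, ← hw] at h1
    have h2 : h ⟨_, hmem⟩ = w' := Subtype.ext h1
    rw [← h2, h.symm_apply_apply]
  obtain ⟨d, hd⟩ := code_of_equivariant h.symm h.symm.continuous he'
  have hx0 := hc ⟨x, inOrb_refl x⟩
  have hy0 := hd ⟨y, inOrb_refl y⟩
  refine ⟨c, d, ?_, ?_, ?_, ?_⟩
  · rw [← hx0]; exact (h ⟨x, inOrb_refl x⟩).2
  · rw [← hy0]; exact (h.symm ⟨y, inOrb_refl y⟩).2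
  · rw [← hx0, ← hd, h.symm_apply_apply]
  · rw [← hy0, ← hc, h.apply_symm_apply]

theorem app_app_eq {α β : Type*} {x : ℤ → α} {z : ℤ → α} {c : Code α β} {d : Code β α}
    (h : InOrb x z) (hi : d.app (c.app x) = x) : d.app (c.app z) = z := by
  funext i
  obtain ⟨k, hk⟩ := inOrb_iff.1 h (i.natAbs + c.r + d.r)
  have e1 : d.app (c.app z) i = d.app (c.app x) (k + i) := by
    refine congrArg d.f (wd_eq_iff.2 fun t h1 h2 => ?_)
    refine congrArg c.f (wd_eq_iff.2 fun s h3 h4 => ?_)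
    rw [hk _ (by omega) (by omega)]
    congr 1
    ring
  rw [e1, hi, hk i (by omega) (by omega)]

theorem conj_of_isoP {m n : ℕ} {x : ℤ → Fin m} {y : ℤ → Fin n} {c : Code (Fin m) (Fin n)}
    {d : Code (Fin n) (Fin m)} (h : IsoP x y c d) :
    Conj {z | InOrb x z} {z | InOrb y z} := by
  refine ⟨⟨⟨fun z => ⟨c.app z, inOrb_trans h.img (inOrb_app c z.2)⟩,
    fun z => ⟨d.app z, inOrb_trans h.img' (inOrb_app d z.2)⟩, ?_, ?_⟩, ?_, ?_⟩, ?_⟩
  · intro z
    exact Subtype.ext (app_app_eq z.2 h.inv)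
  · intro z
    exact Subtype.ext (app_app_eq z.2 h.inv')
  · exact ((continuous_app c).comp continuous_subtype_val).subtype_mk _
  · exact ((continuous_app d).comp continuous_subtype_val).subtype_mk _
  · intro z w hw
    show c.app (w : ℤ → Fin m) = shift (c.app (z : ℤ → Fin m))
    rw [hw]
    exact app_sh c z 1

end Hft
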