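import Pool.Agent.Hft.Defs

/-!
# MP_79e803_lc : combinatorial definitions (windows, types, records, the relations `Resp`, `RR`)
-/

open TopologicalSpace

namespace Hft

variable {A B C : Type*}

/-- The word of radius `L` around position `i`. -/
def wd (x : ℤ → A) (L : ℕ) (i : ℤ) : Fin (2 * L + 1) → A := fun j => x (i + (j : ℤ) - L)

/-- `y` is in the orbit closure of `x` (every word of `y` around `0` occurs in `x`). -/
def InOrb (x y : ℤ → A) : Prop := ∀ L : ℕ, ∃ k : ℤ, wd x L k = wd y L 0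

/-- Uniform recurrence. -/
def UR (x : ℤ → A) : Prop :=
  ∀ L : ℕ, ∃ N : ℕ, ∀ i : ℤ, ∃ j : ℤ, i ≤ j ∧ j ≤ i + N ∧ wd x L j = wd x L 0

/-- Non-periodicity. -/
def Aper (x : ℤ → A) : Prop := ¬ ∃ p : ℤ, 1 ≤ p ∧ ∀ i : ℤ, x (i + p) = x i

/-- Position `i` is `q`-periodic in `x` (not a hole). -/
def NH (x : ℤ → A) (q : ℕ) (i : ℤ) : Prop := ∀ k : ℤ, x (i + k * q) = x i

/-- `[a,b]` is a maximal interval of non-holes at level `q`. -/
def Win (x : ℤ → A) (q : ℕ) (a b : ℤ) : Prop :=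
  a ≤ b ∧ (∀ i, a ≤ i → i ≤ b → NH x q i) ∧ ¬ NH x q (a - 1) ∧ ¬ NH x q (b + 1)

/-- The set of words of radius `L` around the positions `i + k q`. -/
def Pat (x : ℤ → A) (q L : ℕ) (i : ℤ) : Set (Fin (2 * L + 1) → A) :=
  Set.range fun k : ℤ => wd x L (i + k * q)

/-- Types of precision `L`. -/
abbrev Ty (A : Type*) (L : ℕ) : Type _ :=
  Set (Fin (2 * L + 1) → A) × Set (Fin (2 * L + 1) → A)

/-- The type of precision `L` of the window `[a,b]` at level `q`. -/
def ty (x : ℤ → A) (q L : ℕ) (a b : ℤ) : Ty A L := (Pat x q L (a - 1), Pat x q L (b + 1))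

/-- Recurrent types: types of windows of unbounded length (at the levels `n!`). -/
def Rec (x : ℤ → A) (L : ℕ) : Set (Ty A L) :=
  {τ | ∀ N : ℕ, ∃ (n : ℕ) (a b : ℤ), Win x n.factorial a b ∧ (N : ℤ) ≤ b - a ∧
    ty x n.factorial L a b = τ}

/-- The stable precision. -/
noncomputable def Prec (x : ℤ → A) : ℕ :=
  sInf {L : ℕ | ∀ L' : ℕ, L ≤ L' → (Rec x L').ncard = (Rec x L).ncard}

/-- The maximal length of a window of type `τ` at level `n!` (`0` if there is none). -/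
noncomputable def rho (x : ℤ → A) {L : ℕ} (τ : Ty A L) (n : ℕ) : ℕ :=
  sSup {l : ℕ | ∃ a b : ℤ, Win x n.factorial a b ∧ b + 1 - a = l ∧ ty x n.factorial L a b = τ}

/-- `n` is the least index at which `rho` attains its maximum over `[0,m]`. -/
def Star (x : ℤ → A) {L : ℕ} (τ : Ty A L) (m n : ℕ) : Prop :=
  n ≤ m ∧ (∀ n' ≤ m, rho x τ n' ≤ rho x τ n) ∧ ∀ n' < n, rho x τ n' < rho x τ n

/-- `b` is the right end of a longest window of type `τ` at level `n!`. -/
def Top (x : ℤ → A) {L : ℕ} (τ : Ty A L) (n : ℕ) (b : ℤ) : Prop :=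
  ∃ a : ℤ, Win x n.factorial a b ∧ b + 1 - a = rho x τ n ∧ ty x n.factorial L a b = τ

/-- The blocks of length `q` number `k` and `l`, cut at `b`, are equal. -/
def Ker (x : ℤ → A) (q : ℕ) (b k l : ℤ) : Prop :=
  ∀ j : ℤ, 0 ≤ j → j < q → x (b + k * q + j) = x (b + l * q + j)

/-- Good points: uniformly recurrent, with windows of unbounded length and boundedly many recurrent
types. -/
structure Good (x : ℤ → A) : Prop where
  ur : UR x
  win : ∀ N : ℕ, ∃ (n : ℕ) (a b : ℤ), Win x n.factorial a b ∧ (N : ℤ) ≤ b - a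
  bdd : ∃ c : ℕ, ∀ L : ℕ, (Rec x L).ncard ≤ c

/-- Matching of the type `τ` of `u` with the type `τ'` of `v` at stage `m`. -/
def MatchT (m : ℕ) (u : ℤ → A) (v : ℤ → B) {L L' : ℕ} (τ : Ty A L) (τ' : Ty B L') : Prop :=
  ∃ (n : ℕ) (κ : ℤ), Star u τ m n ∧ Star v τ' m n ∧ (∃ b, Top u τ n b) ∧
    (∀ b, Top u τ n b ↔ Top v τ' n (b + κ)) ∧
    ∀ b, Top u τ n b → ∀ k l, Ker u n.factorial b k l ↔ Ker v n.factorial (b + κ) k l

/-- The pair `(u, v)` respects stage `m`. -/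
def Resp (m : ℕ) (u : ℤ → A) (v : ℤ → B) : Prop :=
  (∀ τ ∈ Rec u (Prec u), ∃ τ' ∈ Rec v (Prec v), MatchT m u v τ τ') ∧
    ∀ τ' ∈ Rec v (Prec v), ∃ τ ∈ Rec u (Prec u), MatchT m u v τ τ'

/-- Sliding block codes. -/
structure Code (A B : Type*) where
  r : ℕ
  f : (Fin (2 * r + 1) → A) → B

/-- Application of a sliding block code. -/
def Code.app (c : Code A B) (x : ℤ → A) : ℤ → B := fun i => c.f (wd x c.r i)

/-- `c`, `d` are mutually inverse conjugacies between the orbit closures of `x` and `y`. -/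
structure IsoP (x : ℤ → A) (y : ℤ → B) (c : Code A B) (d : Code B A) : Prop where
  img : InOrb y (c.app x)
  img' : InOrb x (d.app y)
  inv : d.app (c.app x) = x
  inv' : c.app (d.app y) = y

/-- The stage `m` relation on points. -/
def RR (m : ℕ) (x : ℤ → A) (y : ℤ → B) : Prop :=
  ∃ (c : Code A B) (d : Code B A), IsoP x y c d ∧ Resp m x (c.app x)

/-- The word `x_i … x_{j-1}` as a list. -/
def lw (x : ℤ → A) (i j : ℤ) : List A := (List.range (j - i).toNat).map fun t => x (i + t)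

/-- Return words to `D ⊆ ℤ` along `x`. -/
def RetW (x : ℤ → A) (D : Set ℤ) : Set (List A) :=
  {w | ∃ i ∈ D, ∃ j ∈ D, i < j ∧ (∀ s ∈ D, s ≤ i ∨ j ≤ s) ∧ w = lw x i j}

/-- `D` is a locally determined syndetic set of cutting points of `x`, all with the same context of
radius `N`, with at most `K` return words. -/
structure Bd (x : ℤ → A) (K N : ℕ) (D : Set ℤ) : Prop where
  loc : ∃ ρ : ℕ, ∀ i j : ℤ, wd x ρ i = wd x ρ j → (i ∈ D ↔ j ∈ D)
  gap : ∃ G : ℕ, ∀ i : ℤ, ∃ j ∈ D, i ≤ j ∧ j ≤ i + G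
  ctx : ∀ i ∈ D, ∀ j ∈ D, ∀ t : ℤ, -(N : ℤ) ≤ t → t < N → x (i + t) = x (j + t)
  fin : (RetW x D).Finite
  card : (RetW x D).ncard ≤ K

end Hft
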