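import Pool.Agent.Hft.RespT
namespace Hft
variable {A B C : Type*}

theorem matchT_symm {m : ℕ} {u : ℤ → A} {v : ℤ → B} {L L' : ℕ} {τ : Ty A L} {τ' : Ty B L'}
    (h : MatchT m u v τ τ') : MatchT m v u τ' τ := by
  obtain ⟨n, κ, hs, hs', ⟨b, hb⟩, ht, hk⟩ := h
  refine ⟨n, -κ, hs', hs, ⟨b + κ, (ht b).1 hb⟩, fun b => ?_, fun b hb k l => ?_⟩
  · rw [ht (b + -κ)]
    have e : b + -κ + κ = b := by ring
    rw [e]
  · have e : b + -κ + κ = b := by ring
    have h1 : Top u τ n (b + -κ) := by rw [ht, e]; exact hb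
    have h2 := hk _ h1 k l
    rw [e] at h2
    exact h2.symm

theorem matchT_trans {m : ℕ} {u : ℤ → A} {v : ℤ → B} {w : ℤ → C} {L L' L'' : ℕ} {τ : Ty A L}
    {τ' : Ty B L'} {τ'' : Ty C L''} (h : MatchT m u v τ τ') (h' : MatchT m v w τ' τ'') :
    MatchT m u w τ τ'' := by
  obtain ⟨n, κ, hs, hs', hb, ht, hk⟩ := h
  obtain ⟨n', κ', hs1, hs1', hb1, ht1, hk1⟩ := h'
  obtain rfl := star_unique hs' hs1
  refine ⟨n, κ + κ', hs, hs1', hb, fun b => ?_, fun b hb k l => ?_⟩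
  · rw [ht b, ht1 (b + κ)]
    have e : b + κ + κ' = b + (κ + κ') := by ring
    rw [e]
  · rw [hk b hb, hk1 (b + κ) ((ht b).1 hb)]
    have e : b + κ + κ' = b + (κ + κ') := by ring
    rw [e]

theorem resp_symm {m : ℕ} {u : ℤ → A} {v : ℤ → B} (h : Resp m u v) : Resp m v u := by
  obtain ⟨h1, h2⟩ := h
  constructor
  · intro τ' hτ'
    obtain ⟨τ, hτ, hm⟩ := h2 τ' hτ'
    exact ⟨τ, hτ, matchT_symm hm⟩
  · intro τ hτ
    obtain ⟨τ', hτ', hm⟩ := h1 τ hτ
    exact ⟨τ', hτ', matchT_symm hm⟩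

theorem resp_trans {m : ℕ} {u : ℤ → A} {v : ℤ → B} {w : ℤ → C} (h : Resp m u v)
    (h' : Resp m v w) : Resp m u w := by
  obtain ⟨h1, h2⟩ := h
  obtain ⟨h3, h4⟩ := h'
  constructor
  · intro τ hτ
    obtain ⟨τ', hτ', hm⟩ := h1 τ hτ
    obtain ⟨τ'', hτ'', hm'⟩ := h3 τ' hτ'
    exact ⟨τ'', hτ'', matchT_trans hm hm'⟩
  · intro τ'' hτ''
    obtain ⟨τ', hτ', hm'⟩ := h4 τ'' hτ''
    obtain ⟨τ, hτ, hm⟩ := h2 τ' hτ'
    exact ⟨τ, hτ, matchT_trans hm hm'⟩

theorem rr_symm {m : ℕ} {x : ℤ → A} {y : ℤ → B} (hx : UR x) (hy : UR y) (h : RR m x y) :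
    RR m y x := by
  obtain ⟨c, d, hi, hr⟩ := h
  refine ⟨d, c, ⟨hi.img', hi.img, hi.inv', hi.inv⟩, ?_⟩
  -- `v = c.app x`, `y ∈ orb v`, transfer along the pair `(v, d.app v)`
  have hr' : Resp m (c.app x) (d.app (c.app x)) := by rw [hi.inv]; exact resp_symm hr
  have hvy : InOrb (c.app x) y := inOrb_symm hy hi.img
  exact resp_transfer (ur_pair d (ur_app c hx)) (inOrb_pair d hvy) hr'

/-- Composition of codes. -/
def Code.comp (c' : Code B C) (c : Code A B) : Code A C where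
  r := c.r + c'.r
  f := fun w => c'.f fun s => c.f fun t => w ⟨s.1 + t.1, by have := s.2; have := t.2; omega⟩

theorem Code.comp_app (c' : Code B C) (c : Code A B) (x : ℤ → A) :
    (c'.comp c).app x = c'.app (c.app x) := by
  funext i
  simp only [Code.app, Code.comp]
  congr 1
  funext s
  simp only [wd]
  congr 1
  funext t
  simp only [wd]
  congr 1
  push_cast
  ring

/-- A code fixing `y` fixes the points of its orbit closure. -/
theorem app_eq_self_of_inOrb (e : Code A A) {y v : ℤ → A} (h : e.app y = y) (hv : InOrb y v) :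
    e.app v = v := by
  funext i
  obtain ⟨M, hM⟩ : ∃ M : ℕ, (M : ℤ) = e.r + |i| + 1 :=
    ⟨(e.r + |i| + 1).toNat, Int.toNat_of_nonneg (by positivity)⟩
  have h0 : 0 ≤ |i| := abs_nonneg i
  have h1 : i ≤ |i| := le_abs_self i
  have h2 : -i ≤ |i| := neg_le_abs i
  obtain ⟨k, hk⟩ := hv M
  have hw : wd y e.r (k + i) = wd v e.r (0 + i) := wd_sub hk (by omega) (by omega)
  have hl : y (k + i) = v (0 + i) := wd_eq_iff.1 hk i (by omega) (by omega)
  rw [zero_add] at hw hl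
  have := congrFun h (k + i)
  simp only [Code.app] at this ⊢
  rw [← hw, this, hl]

theorem rr_trans {m : ℕ} {x : ℤ → A} {y : ℤ → B} {z : ℤ → C} (hx : UR x) (hy : UR y)
    (h1 : RR m x y) (h2 : RR m y z) : RR m x z := by
  obtain ⟨c, d, hi, hr⟩ := h1
  obtain ⟨c', d', hi', hr'⟩ := h2
  have hv : InOrb y (c.app x) := hi.img
  have hr2 : Resp m (c.app x) (c'.app (c.app x)) :=
    resp_transfer (ur_pair c' hy) (inOrb_pair c' hv) hr'
  refine ⟨c'.comp c, d.comp d', ⟨?_, ?_, ?_, ?_⟩, ?_⟩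
  · rw [Code.comp_app]
    exact inOrb_trans hi'.img (inOrb_app c' hi.img)
  · rw [Code.comp_app]
    exact inOrb_trans hi.img' (inOrb_app d hi'.img')
  · rw [Code.comp_app, Code.comp_app]
    -- d.app (d'.app (c'.app (c.app x))) = x
    have : d'.app (c'.app (c.app x)) = c.app x := by
      rw [← Code.comp_app]
      exact app_eq_self_of_inOrb _ (by rw [Code.comp_app]; exact hi'.inv) hi.img
    rw [this, hi.inv]
  · rw [Code.comp_app, Code.comp_app]
    have : c.app (d.app (d'.app z)) = d'.app z := by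
      rw [← Code.comp_app]
      exact app_eq_self_of_inOrb _ (by rw [Code.comp_app]; exact hi.inv') hi'.img'
    rw [this, hi'.inv']
  · rw [Code.comp_app]
    exact resp_trans hr hr2

end Hft
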