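import Pool.Agent.Hft.Loc
namespace Hft
variable {A B C : Type*}

theorem wi1_wd {r : ℕ} {x : ℤ → A} {q : ℕ} {i : ℤ}
    (h : ∀ t : ℤ, -(r : ℤ) ≤ t → t ≤ r → NH x q (i + t)) (k : ℤ) :
    wd x r (i + k * q) = wd x r i := by
  rw [wd_eq_iff]
  intro t h1 h2
  have := h t h1 h2 k
  have e : i + k * q + t = i + t + k * q := by ring
  rw [e]
  exact this

theorem wi1_nh {r : ℕ} {x : ℤ → A} {y : ℤ → B} (h : Loc r x y) {q : ℕ} {i : ℤ}
    (hi : ∀ t : ℤ, -(r : ℤ) ≤ t → t ≤ r → NH x q (i + t)) : NH y q i :=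
  fun k => h.fwd _ _ (wi1_wd hi k)

/-- WI1. A long window of `x` has an image window in `y`. -/
theorem win_image {r : ℕ} {x : ℤ → A} {y : ℤ → B} (h : Loc r x y) {q : ℕ} {a b : ℤ}
    (hw : Win x q a b) (hl : 2 * (r : ℤ) ≤ b - a) : ∃ km kp : ℤ, Img r x y q a b km kp := by
  classical
  obtain ⟨hab, hN, hL, hR⟩ := hw
  have mid : ∀ i, a + r ≤ i → i ≤ b - r → NH y q i := fun i h1 h2 =>
    wi1_nh h fun t h3 h4 => hN _ (by omega) (by omega)
  have exR : ∃ n : ℕ, ¬ NH y q (b + 1 - r + n) := by
    by_contra hcon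
    push Not at hcon
    apply hR
    apply wi1_nh h.symm
    intro t h1 h2
    have := hcon (t + r).toNat
    have e : (((t + r).toNat : ℕ) : ℤ) = t + r := Int.toNat_of_nonneg (by omega)
    rw [e] at this
    have e2 : b + 1 - (r : ℤ) + (t + r) = b + 1 + t := by ring
    rwa [e2] at this
  have exL : ∃ n : ℕ, ¬ NH y q (a - 1 + r - n) := by
    by_contra hcon
    push Not at hcon
    apply hL
    apply wi1_nh h.symm
    intro t h1 h2
    have := hcon (r - t).toNat
    have e : (((r - t).toNat : ℕ) : ℤ) = r - t := Int.toNat_of_nonneg (by omega)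
    rw [e] at this
    have e2 : a - 1 + (r : ℤ) - (r - t) = a - 1 + t := by ring
    rwa [e2] at this
  have bdR : Nat.find exR ≤ 2 * r := by
    by_contra hcon
    push Not at hcon
    apply hR
    apply wi1_nh h.symm
    intro t h1 h2
    have e : (((t + r).toNat : ℕ) : ℤ) = t + r := Int.toNat_of_nonneg (by omega)
    have := Nat.find_min exR (m := (t + r).toNat) (by omega)
    rw [not_not, e] at this
    have e2 : b + 1 - (r : ℤ) + (t + r) = b + 1 + t := by ring
    rwa [e2] at this
  have bdL : Nat.find exL ≤ 2 * r := by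
    by_contra hcon
    push Not at hcon
    apply hL
    apply wi1_nh h.symm
    intro t h1 h2
    have e : (((r - t).toNat : ℕ) : ℤ) = r - t := Int.toNat_of_nonneg (by omega)
    have := Nat.find_min exL (m := (r - t).toNat) (by omega)
    rw [not_not, e] at this
    have e2 : a - 1 + (r : ℤ) - (r - t) = a - 1 + t := by ring
    rwa [e2] at this
  refine ⟨r - Nat.find exL, -r + Nat.find exR, ⟨hab, hN, hL, hR⟩, hl, by omega, by omega,
    by omega, by omega, by omega, ?_, ?_, ?_⟩
  · intro i h1 h2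
    rcases lt_or_ge i (a + r) with h3 | h3
    · have e : (((a - 1 + r - i).toNat : ℕ) : ℤ) = a - 1 + r - i :=
        Int.toNat_of_nonneg (by omega)
      have := Nat.find_min exL (m := (a - 1 + r - i).toNat) (by omega)
      rw [not_not, e] at this
      have e2 : a - 1 + (r : ℤ) - (a - 1 + r - i) = i := by ring
      rwa [e2] at this
    rcases le_or_gt i (b - r) with h4 | h4
    · exact mid i h3 h4
    · have e : (((i - (b + 1 - r)).toNat : ℕ) : ℤ) = i - (b + 1 - r) :=
        Int.toNat_of_nonneg (by omega)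
      have := Nat.find_min exR (m := (i - (b + 1 - r)).toNat) (by omega)
      rw [not_not, e] at this
      have e2 : b + 1 - (r : ℤ) + (i - (b + 1 - r)) = i := by ring
      rwa [e2] at this
  · have := Nat.find_spec exL
    have e : a + ((r : ℤ) - (Nat.find exL : ℕ)) - 1 = a - 1 + r - (Nat.find exL : ℕ) := by ring
    rw [e]
    exact this
  · have := Nat.find_spec exR
    have e : b + (-(r : ℤ) + (Nat.find exR : ℕ)) + 1 = b + 1 - r + (Nat.find exR : ℕ) := by ring
    rw [e]
    exact this

/-- Two image windows of the same window coincide. -/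
theorem img_unique {r : ℕ} {x : ℤ → A} {y : ℤ → B} {q : ℕ} {a b km kp km' kp' : ℤ}
    (h : Img r x y q a b km kp) (h' : Img r x y q a b km' kp') : km = km' ∧ kp = kp' := by
  obtain ⟨-, h1, h2, h3, h4, h5, h6⟩ := h
  obtain ⟨-, -, h2', h3', h4', h5', h6'⟩ := h'
  obtain ⟨e1, e2⟩ := win_unique (i := a + r) h6 h6' (by omega) (by omega) (by omega) (by omega)
  omega

end Hft
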