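import Pool.Agent.Hft.Loc
namespace Hft
variable {A B C : Type*}

/-- The pattern sets of `y` are determined by the pattern sets of `x` of radius larger by `r`. -/
theorem wi2_pat {r : ℕ} {x : ℤ → A} {y : ℤ → B} (h : Loc r x y) {q q' L : ℕ} {i j : ℤ}
    (hp : Pat x q (L + r) i = Pat x q' (L + r) j) : Pat y q L i = Pat y q' L j := by
  have key : ∀ {q q' : ℕ} {i j : ℤ}, Pat x q (L + r) i = Pat x q' (L + r) j →
      Pat y q L i ⊆ Pat y q' L j := by
    intro q q' i j hp w
    rintro ⟨k, rfl⟩
    have hk : wd x (L + r) (i + k * q) ∈ Pat x q' (L + r) j := hp ▸ ⟨k, rfl⟩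
    obtain ⟨l, hl⟩ := hk
    refine ⟨l, ?_⟩
    simp only at hl ⊢
    rw [wd_eq_iff]
    intro t h1 h2
    apply h.fwd
    apply wd_sub (L := r) hl
    · push_cast; omega
    · push_cast; omega
  exact Set.Subset.antisymm (key hp) (key hp.symm)

/-- Holes of `y` near a position are determined by the pattern sets of `x`. -/
theorem wi2_nh {r : ℕ} {x : ℤ → A} {y : ℤ → B} (h : Loc r x y) {q q' : ℕ} {i j : ℤ}
    (hp : Pat x q (2 * r) i = Pat x q' (2 * r) j) {t : ℤ} (h1 : -(r : ℤ) ≤ t) (h2 : t ≤ r) :
    NH y q (i + t) ↔ NH y q' (j + t) := by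
  have h3 : Pat y q r i = Pat y q' r j := by
    apply wi2_pat h
    have e : r + r = 2 * r := by ring
    rw [e]
    exact hp
  exact nh_congr h3 h1 h2

/-- WI2. The shift of the right end of the image window is determined by the right pattern set of
radius `2r`. -/
theorem image_right {r : ℕ} {x : ℤ → A} {y : ℤ → B} (h : Loc r x y) {q q' : ℕ}
    {a b km kp a' b' km' kp' : ℤ} (hi : Img r x y q a b km kp) (hi' : Img r x y q' a' b' km' kp')
    (hp : Pat x q (2 * r) (b + 1) = Pat x q' (2 * r) (b' + 1)) : kp = kp' := by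
  obtain ⟨-, h1, h2, h3, h4, h5, -, h6, -, h7⟩ := hi
  obtain ⟨-, h1', h2', h3', h4', h5', -, h6', -, h7'⟩ := hi'
  rcases lt_trichotomy kp kp' with hlt | heq | hlt
  · exfalso
    apply h7
    have e : b + kp + 1 = b + 1 + kp := by ring
    rw [e, wi2_nh h hp h4 h5]
    exact h6' _ (by omega) (by omega)
  · exact heq
  · exfalso
    apply h7'
    have e : b' + kp' + 1 = b' + 1 + kp' := by ring
    rw [e, ← wi2_nh h hp h4' h5']
    exact h6 _ (by omega) (by omega)

/-- WI2. The right pattern set of radius `L` of the image window is determined by the right pattern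
set of radius `L + 2r`. -/
theorem image_pat_right {r : ℕ} {x : ℤ → A} {y : ℤ → B} (h : Loc r x y) {q q' : ℕ}
    {a b km kp a' b' km' kp' : ℤ} (hi : Img r x y q a b km kp) (hi' : Img r x y q' a' b' km' kp')
    {L : ℕ} (hp : Pat x q (L + 2 * r) (b + 1) = Pat x q' (L + 2 * r) (b' + 1)) :
    Pat y q L (b + kp + 1) = Pat y q' L (b' + kp' + 1) := by
  have h0 : Pat x q (2 * r) (b + 1) = Pat x q' (2 * r) (b' + 1) := by
    have := pat_sub (L := 2 * r) (t := 0) hp (by push_cast; omega) (by push_cast; omega)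
    simpa using this
  have hk := image_right h hi hi' h0
  subst hk
  obtain ⟨-, -, -, -, h4, h5, -⟩ := hi
  apply wi2_pat h
  have := pat_sub (L := L + r) (t := kp) hp (by push_cast; omega) (by push_cast; omega)
  have e1 : b + 1 + kp = b + kp + 1 := by ring
  have e2 : b' + 1 + kp = b' + kp + 1 := by ring
  rwa [e1, e2] at this

end Hft
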