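import Pool.Agent.Hft.Stable
import Pool.Agent.Hft.Win1
import Pool.Agent.Hft.Win2
import Pool.Agent.Hft.Win2L
namespace Hft
variable {A B C : Type*}

/-- One direction: long windows of `x` with the same type have image windows with the same shifts
and the same type. -/
theorem corr_aux [Finite A] [Finite B] {x : ℤ → A} {y : ℤ → B} (hx : Good x) {r : ℕ}
    (h : Loc r x y) (L' : ℕ) : ∃ N : ℕ, 2 * r ≤ N ∧
      ∀ (n : ℕ) (a b km kp : ℤ) (n' : ℕ) (a' b' km' kp' : ℤ),
        Img r x y n.factorial a b km kp → (N : ℤ) ≤ b - a →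
        Img r x y n'.factorial a' b' km' kp' → (N : ℤ) ≤ b' - a' →
        ty x n.factorial (Prec x) a b = ty x n'.factorial (Prec x) a' b' →
        km = km' ∧ kp = kp' ∧
          ty y n.factorial L' (a + km) (b + kp) = ty y n'.factorial L' (a' + km') (b' + kp') := by
  obtain ⟨N0, hN0⟩ := type_stable hx (L := max (L' + 2 * r) (Prec x)) (le_max_right _ _)
  refine ⟨max N0 (2 * r), le_max_right _ _, ?_⟩
  intro n a b km kp n' a' b' km' kp' hi hl hi' hl' ht
  have hN0' : (N0 : ℤ) ≤ (max N0 (2 * r) : ℕ) := by exact_mod_cast le_max_left _ _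
  have hT := hN0 n a b n' a' b' hi.1 (le_trans hN0' hl) hi'.1 (le_trans hN0' hl') ht
  have hM : ty x n.factorial (L' + 2 * r) a b = ty x n'.factorial (L' + 2 * r) a' b' :=
    ty_mono (le_max_left _ _) hT
  have hR : ty x n.factorial (2 * r) a b = ty x n'.factorial (2 * r) a' b' :=
    ty_mono (by omega) hM
  have hM1 := congrArg Prod.fst hM
  have hM2 := congrArg Prod.snd hM
  have hR1 := congrArg Prod.fst hR
  have hR2 := congrArg Prod.snd hR
  simp only [ty] at hM1 hM2 hR1 hR2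
  refine ⟨image_left h hi hi' hR1, image_right h hi hi' hR2, ?_⟩
  simp only [ty]
  exact Prod.ext (image_pat_left h hi hi' hM1) (image_pat_right h hi hi' hM2)

/-- ST4a. Correspondence of recurrent types. -/
theorem corr [Finite A] [Finite B] {x : ℤ → A} {y : ℤ → B} (hx : Good x) (hy : Good y) {r : ℕ}
    (h : Loc r x y) (τ : Ty A (Prec x)) (hτ : τ ∈ Rec x (Prec x)) :
    ∃ τ' ∈ Rec y (Prec y), ∃ (km kp : ℤ) (N : ℕ), -(r : ℤ) ≤ km ∧ km ≤ r ∧ -(r : ℤ) ≤ kp ∧
      kp ≤ r ∧ 4 * r ≤ N ∧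
      (∀ (n : ℕ) (a b : ℤ), Win x n.factorial a b → (N : ℤ) ≤ b - a →
        ty x n.factorial (Prec x) a b = τ →
        Win y n.factorial (a + km) (b + kp) ∧ ty y n.factorial (Prec y) (a + km) (b + kp) = τ') ∧
      (∀ (n : ℕ) (a b : ℤ), Win y n.factorial a b → (N : ℤ) ≤ b - a →
        ty y n.factorial (Prec y) a b = τ' →
        Win x n.factorial (a - km) (b - kp) ∧ ty x n.factorial (Prec x) (a - km) (b - kp) = τ) := by
  obtain ⟨N1, hr1, hN1⟩ := corr_aux hx h (Prec y)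
  obtain ⟨N2, hr2, hN2⟩ := corr_aux hy h.symm (Prec x)
  obtain ⟨n0, a0, b0, hw0, hl0, ht0⟩ := hτ (N1 + N2 + 4 * r)
  push_cast at hl0
  obtain ⟨km, kp, hi0⟩ := win_image h hw0 (by omega)
  obtain ⟨-, -, k1, k2, k3, k4, hw0'⟩ := id hi0
  have hfwd : ∀ (n : ℕ) (a b : ℤ), Win x n.factorial a b → ((N1 + N2 + 4 * r : ℕ) : ℤ) ≤ b - a →
      ty x n.factorial (Prec x) a b = τ →
      Win y n.factorial (a + km) (b + kp) ∧ ty y n.factorial (Prec y) (a + km) (b + kp) =
        ty y n0.factorial (Prec y) (a0 + km) (b0 + kp) := by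
    intro n a b hw hl ht
    push_cast at hl
    obtain ⟨km', kp', hi⟩ := win_image h hw (by omega)
    obtain ⟨e1, e2, e3⟩ := hN1 n a b km' kp' n0 a0 b0 km kp hi (by omega) hi0 (by omega)
      (ht.trans ht0.symm)
    subst e1 e2
    exact ⟨hi.2.2.2.2.2.2, e3⟩
  refine ⟨ty y n0.factorial (Prec y) (a0 + km) (b0 + kp), ?_, km, kp, N1 + N2 + 4 * r, k1, k2, k3,
    k4, by omega, hfwd, ?_⟩
  · intro N'
    obtain ⟨n, a, b, hw, hl, ht⟩ := hτ (N1 + N2 + 4 * r + N')
    push_cast at hl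
    obtain ⟨hw', ht'⟩ := hfwd n a b hw (by push_cast; omega) ht
    exact ⟨n, a + km, b + kp, hw', by omega, ht'⟩
  · intro n a b hw hl ht
    push_cast at hl
    obtain ⟨km', kp', hi⟩ := win_image h.symm hw (by omega)
    have hi0' := hi0.symm (by omega)
    obtain ⟨e1, e2, e3⟩ := hN2 n a b km' kp' n0 (a0 + km) (b0 + kp) (-km) (-kp) hi (by omega) hi0'
      (by omega) ht
    subst e1 e2
    have hW := hi.2.2.2.2.2.2
    have f1 : a0 + km + -km = a0 := by ring
    have f2 : b0 + kp + -kp = b0 := by ring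
    rw [f1, f2, ht0] at e3
    rw [sub_eq_add_neg, sub_eq_add_neg]
    exact ⟨hW, e3⟩

end Hft
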