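import Pool.Agent.Hft.Base
import Pool.Agent.Hft.Parse
namespace Hft
variable {A : Type*}

theorem ret_long_one {x : ℤ → A} (hx : UR x) (ha : Aper x) (d : ℕ) (hd : 1 ≤ d) :
    ∃ N : ℕ, ∀ i : ℤ, ¬ ∀ t : ℤ, -(N : ℤ) ≤ t → t < N → x (i + t) = x (i + d + t) := by
  by_contra hcon
  push Not at hcon
  apply ha
  refine ⟨d, by omega, fun m => ?_⟩
  obtain ⟨N1, hN1⟩ := hx (m.natAbs + d)
  obtain ⟨i, hi⟩ := hcon (N1 + m.natAbs + d + 1)
  obtain ⟨j, h1, h2, hj⟩ := hN1 i
  have hj' := wd_eq_iff.1 hj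
  have e1 := hj' m (by omega) (by omega)
  have e2 := hj' (m + d) (by omega) (by omega)
  rw [zero_add] at e1 e2
  have e3 := hi (j - i + m) (by omega) (by omega)
  have e4 : i + (j - i + m) = j + m := by ring
  have e5 : i + d + (j - i + m) = j + (m + d) := by ring
  rw [e4, e5] at e3
  rw [← e1, ← e2, e3]

/-- K1. In an aperiodic uniformly recurrent sequence close positions have different contexts. -/
theorem ret_long {x : ℤ → A} (hx : UR x) (ha : Aper x) (L : ℕ) : ∃ N : ℕ, ∀ i j : ℤ, i < j →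
    (∀ t : ℤ, -(N : ℤ) ≤ t → t < N → x (i + t) = x (j + t)) → (L : ℤ) < j - i := by
  choose f hf using fun d : ℕ => ret_long_one hx ha (d + 1) (by omega)
  refine ⟨(Finset.range L).sup f, fun i j hij h => ?_⟩
  by_contra hcon
  push Not at hcon
  obtain ⟨d, hd⟩ : ∃ d : ℕ, (d : ℤ) + 1 = j - i := ⟨(j - i - 1).toNat, by omega⟩
  have hle : f d ≤ (Finset.range L).sup f :=
    Finset.le_sup (f := f) (Finset.mem_range.2 (by omega))
  apply hf d i
  intro t h1 h2
  have := h t (by omega) (by omega)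
  rw [this]
  congr 1
  push_cast
  omega

theorem retW_long {x : ℤ → A} (hx : UR x) (ha : Aper x) (L : ℕ) : ∃ N0 : ℕ, ∀ (K N : ℕ) (D : Set ℤ),
    N0 ≤ N → Bd x K N D → ∀ w ∈ RetW x D, L < w.length := by
  obtain ⟨N0, hN0⟩ := ret_long hx ha L
  refine ⟨N0, ?_⟩
  rintro K N D hN hD _ ⟨i, hi, j, hj, hij, -, rfl⟩
  have := hN0 i j hij fun t h1 h2 => hD.ctx i hi j hj t (by omega) (by omega)
  rw [lw_length]
  omega

end Hft
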