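import Pool.Agent.Hft.Reduce
import Pool.Agent.Hft.RetLong
namespace Hft
variable {A : Type*}

theorem lw_getElem? (x : ℤ → A) {i j : ℤ} {t : ℕ} (ht : (t : ℤ) < j - i) :
    (lw x i j)[t]? = some (x (i + t)) := by
  rw [lw_def, List.getElem?_map, List.getElem?_range (by omega)]
  rfl

theorem lw_getD (x : ℤ → A) {i j : ℤ} {t : ℕ} (ht : (t : ℤ) < j - i) (d : A) :
    (lw x i j).getD t d = x (i + t) := by
  rw [List.getD_eq_getElem?_getD, lw_getElem? x ht]
  rfl

theorem lw_prefix (x : ℤ → A) {i j k : ℤ} (h1 : i ≤ j) (h2 : j ≤ k) : lw x i j <+: lw x i k :=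
  ⟨lw x j k, lw_append x h1 h2⟩

/-- The first index at which `w π` and `w' π` differ. -/
noncomputable def fdiff (π : List A) (p : List A × List A) : ℕ :=
  sInf {t : ℕ | (p.1 ++ π)[t]? ≠ (p.2 ++ π)[t]?}

/-- The word of radius `L` around the position `t` of `w w' π`. -/
noncomputable def ptw (π : List A) (L : ℕ) (d : A) (t : ℕ) (p : List A × List A) :
    Fin (2 * L + 1) → A :=
  fun j => (p.1 ++ p.2 ++ π).getD (t + (j : ℕ) - L) d

theorem ncard_TT {α β : Type*} {R : Set α} (hR : R.Finite) {K : ℕ} (hK : R.ncard ≤ K)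
    (g : α × α → ℕ) (f : ℕ → α × α → β) :
    (((fun p : ℕ × Set (α × α) => f p.1 '' p.2) '' ((g '' (R ×ˢ R)) ×ˢ 𝒫 (R ×ˢ R)))).ncard ≤
      K ^ 2 * 2 ^ (K ^ 2) := by
  have hRR : (R ×ˢ R).Finite := hR.prod hR
  have hc : (R ×ˢ R).ncard ≤ K ^ 2 := by
    rw [Set.ncard_prod, sq]
    exact Nat.mul_le_mul hK hK
  have hg : (g '' (R ×ˢ R)).ncard ≤ K ^ 2 := (Set.ncard_image_le hRR).trans hc
  have hp : (𝒫 (R ×ˢ R)).ncard ≤ 2 ^ (K ^ 2) := by
    rw [Set.ncard_powerset _ hRR]
    exact Nat.pow_le_pow_right (by norm_num) hc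
  refine (Set.ncard_image_le ((hRR.image g).prod hRR.powerset)).trans ?_
  rw [Set.ncard_prod]
  exact Nat.mul_le_mul hg hp

/-- K3. The number of right pattern sets of long windows is bounded in terms of `K`. -/
theorem count_right [Finite A] {x : ℤ → A} (hx : UR x) (ha : Aper x) {K : ℕ}
    (h : ∀ N : ℕ, ∃ D : Set ℤ, Bd x K N D) (L : ℕ) :
    ∃ T : Set (Set (Fin (2 * L + 1) → A)), T.ncard ≤ K ^ 2 * 2 ^ (K ^ 2) ∧ ∃ M : ℕ,
      ∀ (q : ℕ) (a b : ℤ), Win x q a b → (M : ℤ) ≤ b - a → Pat x q L (b + 1) ∈ T := by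
  obtain ⟨N0, hN0⟩ := retW_long hx ha L
  obtain ⟨N, hNN0, hNL⟩ : ∃ N : ℕ, N0 ≤ N ∧ L ≤ N := ⟨max N0 L, le_max_left _ _, le_max_right _ _⟩
  obtain ⟨D0, hD0⟩ := h N
  obtain ⟨D, hD, hinc⟩ := bd_reduce hD0
  have hlong : ∀ w ∈ RetW x D, L < w.length := hN0 K N D hNN0 hD
  obtain ⟨ρ, hρ⟩ := hD.loc
  obtain ⟨G, hG⟩ := hD.gap
  obtain ⟨i0, hi0, -, -⟩ := hG 0
  set π : List A := lw x i0 (i0 + N) with hπ
  have hctx : ∀ i ∈ D, lw x i (i + N) = π := fun i hi => ctx_lw hD hi hi0
  refine ⟨(fun p : ℕ × Set (List A × List A) => ptw π L (x 0) p.1 '' p.2) ''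
    ((fdiff π '' (RetW x D ×ˢ RetW x D)) ×ˢ 𝒫 (RetW x D ×ˢ RetW x D)),
    ncard_TT hD.fin hD.card _ _, 2 * ρ + G, ?_⟩
  intro q a b hwin hab
  obtain ⟨hab0, hNH, -, hhole⟩ := hwin
  -- (1) the maximal common cutting point
  obtain ⟨j0, hj0, hj1, hj2⟩ := hG (b - ρ - G)
  have hj0' : ∀ k : ℤ, j0 + k * q ∈ D := by
    intro k
    refine (hρ j0 (j0 + k * q) ?_).1 hj0
    rw [wd_eq_iff]
    intro t h1 h2
    have := hNH (j0 + t) (by push_cast at hab; omega) (by omega) k
    rw [← this]
    congr 1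
    ring
  classical
  obtain ⟨β, ⟨hβb, hβ⟩, hmax⟩ := Int.exists_greatest_of_bdd
    (P := fun i => i ≤ b + 1 ∧ ∀ k : ℤ, i + k * q ∈ D)
    ⟨b + 1, fun z hz => hz.1⟩ ⟨j0, by omega, hj0'⟩
  have hβa : a ≤ β := by
    have := hmax j0 ⟨by omega, hj0'⟩
    push_cast at hab
    omega
  have hNHβ : ∀ t : ℤ, 0 ≤ t → β + t ≤ b → ∀ k l : ℤ, x (β + k * q + t) = x (β + l * q + t) := by
    intro t h1 h2 k l
    have := nh_iff.1 (hNH (β + t) (by omega) h2) k l
    have e1 : β + t + k * q = β + k * q + t := by ring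
    have e2 : β + t + l * q = β + l * q + t := by ring
    rwa [e1, e2] at this
  -- next cutting points
  choose n hnD hn hn' using fun k : ℤ => exists_next hD (β + k * q)
  choose m hmD hm hm' using fun k : ℤ => exists_next hD (n k)
  have hw : ∀ k, lw x (β + k * q) (n k) ∈ RetW x D := fun k =>
    ⟨_, hβ k, _, hnD k, hn k, hn' k, rfl⟩
  have hw2 : ∀ k, lw x (n k) (m k) ∈ RetW x D := fun k =>
    ⟨_, hnD k, _, hmD k, hm k, hm' k, rfl⟩
  have hwπ : ∀ k, lw x (β + k * q) (n k) ++ π = lw x (β + k * q) (n k + N) := by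
    intro k
    rw [← hctx _ (hnD k), lw_append x (hn k).le (by omega)]
  have hwwπ : ∀ k, lw x (β + k * q) (n k) ++ lw x (n k) (m k) ++ π =
      lw x (β + k * q) (m k + N) := by
    intro k
    rw [← hctx _ (hmD k), lw_append x (hn k).le (hm k).le,
      lw_append x ((hn k).le.trans (hm k).le) (by omega)]
  have hlen : ∀ k l, lw x (β + k * q) (n k) = lw x (β + l * q) (n l) →
      n k - (β + k * q) = n l - (β + l * q) := by
    intro k l hkl
    have := congrArg List.length hkl
    rw [lw_length, lw_length] at this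
    have h1 := hn k
    have h2 := hn l
    omega
  -- (A) not all first return words are equal
  have hA : ∃ k l, lw x (β + k * q) (n k) ≠ lw x (β + l * q) (n l) := by
    by_contra hcon
    push Not at hcon
    have hl : ∀ k, n k = β + (n 0 - β) + k * q := by
      intro k
      have := hlen k 0 (hcon k 0)
      simp only [zero_mul, add_zero] at this
      linarith
    have h0 := hn 0
    simp only [zero_mul, add_zero] at h0
    by_cases hc : β + (n 0 - β) ≤ b + 1
    · have := hmax (β + (n 0 - β)) ⟨hc, fun k => by rw [← hl k]; exact hnD k⟩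
      omega
    · apply hhole
      rw [nh_iff]
      intro k l
      have := (lw_eq_iff (hlen k l (hcon k l)) (hn k).le).1 (hcon k l) (b + 1 - β) (by omega)
        (by rw [hl k]; omega)
      have e1 : β + k * q + (b + 1 - β) = b + 1 + k * q := by ring
      have e2 : β + l * q + (b + 1 - β) = b + 1 + l * q := by ring
      rwa [e1, e2] at this
  -- (B)
  have hB : ∀ k l, lw x (β + k * q) (n k) ≠ lw x (β + l * q) (n l) →
      b + 1 - β < n k - (β + k * q) + N := by
    intro k l hkl
    by_contra hcon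
    push Not at hcon
    have hi1 := hinc i0 hi0 _ (hw k) _ (hw l) hkl
    have hi2 := hinc i0 hi0 _ (hw l) _ (hw k) hkl.symm
    rw [← hπ, hwπ, hwπ] at hi1 hi2
    have h1 := hn k
    have h2 := hn l
    rcases le_total (n k - (β + k * q)) (n l - (β + l * q)) with hle | hle
    · apply hi1
      have e : lw x (β + k * q) (n k + N) =
          lw x (β + l * q) (β + l * q + (n k + N - (β + k * q))) := by
        rw [lw_eq_iff (by ring) (by omega)]
        intro t ht1 ht2
        exact hNHβ t ht1 (by omega) k l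
      rw [e]
      exact lw_prefix x (by omega) (by omega)
    · apply hi2
      have e : lw x (β + l * q) (n l + N) =
          lw x (β + k * q) (β + k * q + (n l + N - (β + l * q))) := by
        rw [lw_eq_iff (by ring) (by omega)]
        intro t ht1 ht2
        exact hNHβ t ht1 (by omega) l k
      rw [e]
      exact lw_prefix x (by omega) (by omega)
  -- (C)
  have hC : ∀ k, b + 1 - β < n k - (β + k * q) + N := by
    intro k
    obtain ⟨k1, k2, h12⟩ := hA
    by_cases hk : lw x (β + k * q) (n k) = lw x (β + k1 * q) (n k1)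
    · exact hB k k2 (by rw [hk]; exact h12)
    · exact hB k k1 hk
  -- the offset of the hole
  have hτN : (N : ℤ) ≤ b + 1 - β := by
    by_contra hcon
    push Not at hcon
    apply hhole
    rw [nh_iff]
    intro k l
    have := hD.ctx _ (hβ k) _ (hβ l) (b + 1 - β) (by omega) (by omega)
    have e1 : β + k * q + (b + 1 - β) = b + 1 + k * q := by ring
    have e2 : β + l * q + (b + 1 - β) = b + 1 + l * q := by ring
    rwa [e1, e2] at this
  obtain ⟨τ, hτ⟩ : ∃ τ : ℕ, (τ : ℤ) = b + 1 - β := ⟨(b + 1 - β).toNat, by omega⟩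
  -- (D)
  have hDD : ∃ k l, fdiff π (lw x (β + k * q) (n k), lw x (β + l * q) (n l)) = τ := by
    rw [nh_iff] at hhole
    push Not at hhole
    obtain ⟨k, l, hkl⟩ := hhole
    refine ⟨k, l, ?_⟩
    have hk := hC k
    have hl := hC l
    simp only [fdiff, hwπ]
    apply le_antisymm
    · apply Nat.sInf_le
      simp only [Set.mem_ofPred_eq]
      rw [lw_getElem? x (by omega), lw_getElem? x (by omega), hτ]
      intro hcon
      apply hkl
      have := Option.some.inj hcon
      have e1 : β + k * q + (b + 1 - β) = b + 1 + k * q := by ring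
      have e2 : β + l * q + (b + 1 - β) = b + 1 + l * q := by ring
      rwa [e1, e2] at this
    · apply le_csInf
      · refine ⟨τ, ?_⟩
        simp only [Set.mem_ofPred_eq]
        rw [lw_getElem? x (by omega), lw_getElem? x (by omega), hτ]
        intro hcon
        apply hkl
        have := Option.some.inj hcon
        have e1 : β + k * q + (b + 1 - β) = b + 1 + k * q := by ring
        have e2 : β + l * q + (b + 1 - β) = b + 1 + l * q := by ring
        rwa [e1, e2] at this
      · intro t ht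
        simp only [Set.mem_ofPred_eq] at ht
        by_contra hlt
        push Not at hlt
        apply ht
        rw [lw_getElem? x (by omega), lw_getElem? x (by omega)]
        congr 1
        exact hNHβ t (by omega) (by omega) k l
  obtain ⟨k1, l1, hkl1⟩ := hDD
  -- (E)
  refine ⟨(τ, Set.range fun k : ℤ => (lw x (β + k * q) (n k), lw x (n k) (m k))), ⟨?_, ?_⟩, ?_⟩
  · exact ⟨_, ⟨hw k1, hw l1⟩, hkl1⟩
  · rw [Set.mem_powerset_iff]
    rintro _ ⟨k, rfl⟩
    exact ⟨hw k, hw2 k⟩
  · simp only [Pat]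
    rw [← Set.range_comp]
    congr 1
    funext k
    funext j
    simp only [Function.comp, ptw, wd, hwwπ]
    have hj := j.2
    have h1 := hC k
    have h2 := hlong _ (hw2 k)
    rw [lw_length] at h2
    have h3 := hm k
    rw [lw_getD x (by omega)]
    congr 1
    have : ((τ + (j : ℕ) - L : ℕ) : ℤ) = b + 1 - β + j - L := by omega
    rw [this]
    ring

end Hft
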