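import Mathlib

/-!
# MP_79e803_lc : statement-level definitions

Toeplitz subshifts, conjugacy, Bratteli-Vershik systems, finite topological rank,
the space of subshifts, hyperfiniteness.
-/

open TopologicalSpace

namespace Hft

/-- The left shift on `A^ℤ`. -/
def shift {A : Type*} (x : ℤ → A) : ℤ → A := fun i => x (i + 1)

/-- Shift by `k`. -/
def sh {A : Type*} (k : ℤ) (x : ℤ → A) : ℤ → A := fun i => x (i + k)

/-- Toeplitz sequences: not periodic, and every position is periodic. -/
def IsToeplitz {A : Type*} (x : ℤ → A) : Prop :=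
  (¬ ∃ p : ℤ, 1 ≤ p ∧ ∀ i : ℤ, x (i + p) = x i) ∧
    ∀ n : ℤ, ∃ p : ℤ, 1 ≤ p ∧ ∀ k : ℤ, x (n + k * p) = x n

/-- `K` is a Toeplitz subshift: the orbit closure of a Toeplitz sequence. -/
def IsToeplitzSubshift {A : Type*} [TopologicalSpace A] (K : Set (ℤ → A)) : Prop :=
  ∃ x : ℤ → A, IsToeplitz x ∧ K = closure (Set.range fun k : ℤ => sh k x)

/-- Conjugacy of subshifts: a homeomorphism commuting with the shifts. -/
def Conj {A B : Type*} [TopologicalSpace A] [TopologicalSpace B]
    (K : Set (ℤ → A)) (L : Set (ℤ → B)) : Prop :=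
  ∃ h : K ≃ₜ L, ∀ x y : K, (y : ℤ → A) = shift (x : ℤ → A) →
    ((h y : L) : ℤ → B) = shift ((h x : L) : ℤ → B)

/-- Ordered Bratteli diagrams.  The vertices of level `n` are `Fin (V n)`; the edges from level `n`
to level `n+1` with range `v` are numbered, in their order, by `Fin (d n v)`; `src` gives the source
of an edge.  There is one vertex at level `0`, each vertex of level `n+1` has an incoming edge and
each vertex has an outgoing edge. -/
structure OrdBratteli where
  V : ℕ → ℕ
  d : ∀ n : ℕ, Fin (V (n + 1)) → ℕ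
  src : ∀ (n : ℕ) (v : Fin (V (n + 1))), Fin (d n v) → Fin (V n)
  root : V 0 = 1
  inc : ∀ n v, 0 < d n v
  out : ∀ (n : ℕ) (w : Fin (V n)), ∃ (v : Fin (V (n + 1))) (j : Fin (d n v)), src n v j = w

namespace OrdBratteli

/-- Edges from level `n` to level `n+1`: the range vertex and the number of the edge. -/
abbrev Edge (B : OrdBratteli) (n : ℕ) : Type := Σ v : Fin (B.V (n + 1)), Fin (B.d n v)

/-- Infinite paths from the root. -/
abbrev Path (B : OrdBratteli) : Type :=
  {e : ∀ n : ℕ, B.Edge n // ∀ n, (e n).1 = B.src (n + 1) (e (n + 1)).1 (e (n + 1)).2}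

/-- The edge is the first one among the edges with the same range. -/
def IsMinEdge (B : OrdBratteli) {n : ℕ} (e : B.Edge n) : Prop := (e.2 : ℕ) = 0

/-- The edge is the last one among the edges with the same range. -/
def IsMaxEdge (B : OrdBratteli) {n : ℕ} (e : B.Edge n) : Prop := (e.2 : ℕ) + 1 = B.d n e.1

/-- `f` is the edge following `e` among the edges with the same range. -/
def NextEdge (B : OrdBratteli) {n : ℕ} (e f : B.Edge n) : Prop :=
  f.1 = e.1 ∧ (f.2 : ℕ) = (e.2 : ℕ) + 1

/-- The graph of the Vershik map: `e'` is the image of `e`. If some edge of `e` is not maximal, the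
first non-maximal one is replaced by its successor, all earlier ones by minimal ones (this
determines them), the later ones are kept. If all edges of `e` are maximal, all edges of `e'` are
minimal. -/
def Vershik (B : OrdBratteli) (e e' : B.Path) : Prop :=
  (∃ n, (∀ i < n, B.IsMaxEdge (e.1 i)) ∧ B.NextEdge (e.1 n) (e'.1 n) ∧
      (∀ i < n, B.IsMinEdge (e'.1 i)) ∧ ∀ i > n, e'.1 i = e.1 i) ∨
    ((∀ i, B.IsMaxEdge (e.1 i)) ∧ ∀ i, B.IsMinEdge (e'.1 i))

/-- `w` at level `n` is connected to `v` at level `n + m` by a finite path. -/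
def Conn (B : OrdBratteli) (n : ℕ) (w : Fin (B.V n)) : ∀ m : ℕ, Fin (B.V (n + m)) → Prop
  | 0, v => v = w
  | m + 1, v => ∃ j : Fin (B.d (n + m) v), B.Conn n w m (B.src (n + m) v j)

/-- Properly ordered: the diagram is simple, with exactly one minimal and exactly one maximal
infinite path. -/
def ProperlyOrdered (B : OrdBratteli) : Prop :=
  (∀ n, ∃ m, 0 < m ∧ ∀ (w : Fin (B.V n)) (v : Fin (B.V (n + m))), B.Conn n w m v) ∧
    (∃! e : B.Path, ∀ i, B.IsMinEdge (e.1 i)) ∧ (∃! e : B.Path, ∀ i, B.IsMaxEdge (e.1 i))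

end OrdBratteli

/-- The subshift `X` is conjugate to the Bratteli-Vershik system of a properly ordered Bratteli
diagram with at most `K` vertices at every level. -/
def TopRankLE {A : Type*} [TopologicalSpace A] (X : Set (ℤ → A)) (K : ℕ) : Prop :=
  ∃ B : OrdBratteli, B.ProperlyOrdered ∧ (∀ n, B.V n ≤ K) ∧
    ∃ h : X ≃ₜ B.Path, ∀ x y : X, (y : ℤ → A) = shift (x : ℤ → A) → B.Vershik (h x) (h y)

/-- Finite topological rank. -/
def FiniteTopRank {A : Type*} [TopologicalSpace A] (X : Set (ℤ → A)) : Prop :=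
  ∃ K : ℕ, TopRankLE X K

/-- The Borel structure of the hyperspace `K({0,…,n-1}^ℤ)` with the Vietoris topology. -/
instance instMeasurableSpaceCompacts (n : ℕ) : MeasurableSpace (Compacts (ℤ → Fin n)) :=
  borel (Compacts (ℤ → Fin n))

/-- The space `𝒮 = ⨆_{n ≥ 2} K({0,…,n-1}^ℤ)` (with `n` written as `m + 2`). -/
abbrev SS : Type := Σ m : ℕ, Compacts (ℤ → Fin (m + 2))

/-- The underlying set of a point of `𝒮`. -/
abbrev SS.set (S : SS) : Set (ℤ → Fin (S.1 + 2)) := (S.2 : Set (ℤ → Fin (S.1 + 2)))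

/-- Conjugacy on `𝒮`. -/
def SConj (S T : SS) : Prop := Conj S.set T.set

/-- `𝒯`: the Toeplitz subshifts of finite topological rank. -/
def TT : Set SS := {S | IsToeplitzSubshift S.set ∧ FiniteTopRank S.set}

/-- Hyperfiniteness: `E` is the union of an increasing sequence of Borel equivalence relations all
of whose classes are finite. -/
def IsHyperfinite {Ω : Type*} [MeasurableSpace Ω] (E : Ω → Ω → Prop) : Prop :=
  ∃ F : ℕ → Ω → Ω → Prop, (∀ m, Equivalence (F m)) ∧
    (∀ m, MeasurableSet {p : Ω × Ω | F m p.1 p.2}) ∧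
    (∀ m x, {y | F m x y}.Finite) ∧ (∀ m x y, F m x y → F (m + 1) x y) ∧
    ∀ x y, E x y ↔ ∃ m, F m x y

end Hft
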