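import Pool.Agent.Hft.Loc
namespace Hft
variable {A B C : Type*}

theorem wi3_aux {r : ℕ} {x : ℤ → A} {y : ℤ → B} (h : Loc r x y) {q : ℕ} {a b km kp : ℤ}
    (hi : Img r x y q a b km kp) {k l : ℤ} (hK : Ker x q b k l) : Ker y q (b + kp) k l := by
  obtain ⟨⟨hab, hN, -, -⟩, h1, h2, h3, h4, h5, -, h6, -, -⟩ := hi
  have ext : ∀ j : ℤ, -(b - a) ≤ j → j ≤ q → x (b + k * q + j) = x (b + l * q + j) := by
    intro j j1 j2
    rcases lt_or_ge j 0 with hj | hj
    · have h := hN (b + j) (by omega) (by omega)
      have e1 : b + k * q + j = b + j + k * q := by ring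
      have e2 : b + l * q + j = b + j + l * q := by ring
      rw [e1, e2, h k, h l]
    rcases lt_or_eq_of_le j2 with hj' | hj'
    · exact hK j hj hj'
    · have h := hN b hab le_rfl
      have e1 : b + k * q + j = b + (k + 1) * q := by rw [hj']; ring
      have e2 : b + l * q + j = b + (l + 1) * q := by rw [hj']; ring
      rw [e1, e2, h, h]
  intro j j1 j2
  rcases le_or_gt (kp + j + r) q with hc | hc
  · apply h.fwd
    rw [wd_eq_iff]
    intro t t1 t2
    have := ext (kp + j + t) (by omega) (by omega)
    have e1 : b + kp + k * q + j + t = b + k * q + (kp + j + t) := by ring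
    have e2 : b + kp + l * q + j + t = b + l * q + (kp + j + t) := by ring
    rw [e1, e2]
    exact this
  · have hy := h6 (b + kp + j - q) (by omega) (by omega)
    have e1 : b + kp + k * q + j = b + kp + j - q + (k + 1) * q := by ring
    have e2 : b + kp + l * q + j = b + kp + j - q + (l + 1) * q := by ring
    rw [e1, e2, hy, hy]

/-- WI3. Equality of blocks is preserved. -/
theorem ker_image {r : ℕ} {x : ℤ → A} {y : ℤ → B} (h : Loc r x y) {q : ℕ} {a b km kp : ℤ}
    (hi : Img r x y q a b km kp) (hl : 4 * (r : ℤ) ≤ b - a) (k l : ℤ) :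
    Ker x q b k l ↔ Ker y q (b + kp) k l := by
  constructor
  · exact wi3_aux h hi
  · intro hK
    have := wi3_aux h.symm (hi.symm hl) hK
    simpa using this

end Hft
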