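import Pool.Agent.Hft.Rho
import Pool.Agent.Hft.Win3
namespace Hft
variable {A B C : Type*}

/-- ST4b. Corresponding types are matched at all large stages. -/
theorem match_of_corr {x : ℤ → A} {y : ℤ → B} {r : ℕ} (h : Loc r x y) {L L' : ℕ} {τ : Ty A L}
    {τ' : Ty B L'} (hτ : τ ∈ Rec x L) {km kp : ℤ} {N : ℕ} (h1 : -(r : ℤ) ≤ km) (h2 : km ≤ r)
    (h3 : -(r : ℤ) ≤ kp) (h4 : kp ≤ r) (hN : 4 * r ≤ N)
    (hf : ∀ (n : ℕ) (a b : ℤ), Win x n.factorial a b → (N : ℤ) ≤ b - a →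
        ty x n.factorial L a b = τ →
        Win y n.factorial (a + km) (b + kp) ∧ ty y n.factorial L' (a + km) (b + kp) = τ')
    (hb : ∀ (n : ℕ) (a b : ℤ), Win y n.factorial a b → (N : ℤ) ≤ b - a →
        ty y n.factorial L' a b = τ' →
        Win x n.factorial (a - km) (b - kp) ∧ ty x n.factorial L (a - km) (b - kp) = τ) :
    ∃ m0 : ℕ, ∀ m, m0 ≤ m → MatchT m x y τ τ' := by
  have hA : ∀ n, N + 1 ≤ rho x τ n → (rho x τ n : ℤ) + (kp - km) ≤ rho y τ' n := by
    intro n hn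
    obtain ⟨b, a, hw, hl, ht⟩ := exists_top (x := x) (τ := τ) (n := n) (by omega)
    obtain ⟨hw', ht'⟩ := hf n a b hw (by omega) ht
    have := le_rho hw' ht'
    omega
  have hB : ∀ n, N + 1 ≤ rho y τ' n → (rho y τ' n : ℤ) - (kp - km) ≤ rho x τ n := by
    intro n hn
    obtain ⟨b, a, hw, hl, ht⟩ := exists_top (x := y) (τ := τ') (n := n) (by omega)
    obtain ⟨hw', ht'⟩ := hb n a b hw (by omega) ht
    have := le_rho hw' ht'
    omega
  obtain ⟨m0, hm0⟩ := star_large hτ (N + 8 * r + 4)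
  refine ⟨m0, fun m hm => ?_⟩
  obtain ⟨n, hn⟩ := exists_star x τ m
  have hbig := hm0 m n hm hn
  have hA' := hA n (by omega)
  have hB' := hB n (by omega)
  have hlen : (rho y τ' n : ℤ) = rho x τ n + (kp - km) := by omega
  have hTop : ∀ b, Top x τ n b ↔ Top y τ' n (b + kp) := by
    intro b
    constructor
    · rintro ⟨a, hw, hl, ht⟩
      obtain ⟨hw', ht'⟩ := hf n a b hw (by omega) ht
      exact ⟨a + km, hw', by omega, ht'⟩
    · rintro ⟨a, hw, hl, ht⟩
      obtain ⟨hw', ht'⟩ := hb n a (b + kp) hw (by omega) ht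
      have e : b + kp - kp = b := by ring
      rw [e] at hw' ht'
      exact ⟨a - km, hw', by omega, ht'⟩
  refine ⟨n, kp, hn, ⟨hn.1, ?_, ?_⟩, exists_top (by omega), hTop, ?_⟩
  · intro n' hn'
    rcases Nat.lt_or_ge (rho y τ' n') (N + 1) with hs | hs
    · omega
    · have a1 := hB n' hs
      have a2 := hn.2.1 n' hn'
      omega
  · intro n' hn'
    rcases Nat.lt_or_ge (rho y τ' n') (N + 1) with hs | hs
    · omega
    · have a1 := hB n' hs
      have a2 := hn.2.2 n' hn'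
      omega
  · rintro b ⟨a, hw, hl, ht⟩ k l
    obtain ⟨hw', -⟩ := hf n a b hw (by omega) ht
    exact ker_image h ⟨hw, by omega, h1, h2, h3, h4, hw'⟩ (by omega) k l

end Hft
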