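import Pool.Agent.Hft.Corr
import Pool.Agent.Hft.MatchC
import Pool.Agent.Hft.Compo
namespace Hft
variable {A B C : Type*}

theorem eventual_aux [Finite A] [Finite B] {x : ℤ → A} {y : ℤ → B} (hx : Good x) (hy : Good y)
    {r : ℕ} (h : Loc r x y) : ∀ᶠ m in Filter.atTop, ∀ τ ∈ Rec x (Prec x),
      ∃ τ' ∈ Rec y (Prec y), MatchT m x y τ τ' := by
  have hfin : (Rec x (Prec x)).Finite := Set.toFinite _
  rw [Filter.eventually_all_finite hfin]
  intro τ hτ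
  obtain ⟨τ', hτ', km, kp, N, h1, h2, h3, h4, h5, hf, hb⟩ := corr hx hy h τ hτ
  obtain ⟨m0, hm0⟩ := match_of_corr h hτ h1 h2 h3 h4 h5 hf hb
  exact Filter.eventually_atTop.2 ⟨m0, fun m hm => ⟨τ', hτ', hm0 m hm⟩⟩

theorem eventual [Finite A] [Finite B] {x : ℤ → A} {y : ℤ → B} (hx : Good x) (hy : Good y)
    (c : Code A B) (d : Code B A) (h1 : c.app x = y) (h2 : d.app y = x) :
    ∃ m0 : ℕ, ∀ m, m0 ≤ m → Resp m x y := by
  have h := loc_of_codes h1 h2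
  have e1 := eventual_aux hx hy h
  have e2 := eventual_aux hy hx h.symm
  obtain ⟨m0, hm0⟩ := Filter.eventually_atTop.1 (e1.and e2)
  refine ⟨m0, fun m hm => ⟨(hm0 m hm).1, fun τ' hτ' => ?_⟩⟩
  obtain ⟨τ, hτ, hM⟩ := (hm0 m hm).2 τ' hτ'
  exact ⟨τ, hτ, matchT_symm hM⟩

end Hft
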