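import Pool.Agent.Hft.Base
namespace Hft
variable {A B C : Type*}

/-- Types of smaller precision are determined. -/
theorem ty_mono {x : ℤ → A} {y : ℤ → A} {q q' L M : ℕ} {a b a' b' : ℤ} (hLM : L ≤ M)
    (h : ty x q M a b = ty y q' M a' b') : ty x q L a b = ty y q' L a' b' := by
  have h1 : Pat x q M (a - 1) = Pat y q' M (a' - 1) := congrArg Prod.fst h
  have h2 : Pat x q M (b + 1) = Pat y q' M (b' + 1) := congrArg Prod.snd h
  have e1 := pat_sub (L := L) (t := 0) h1 (by omega) (by omega)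
  have e2 := pat_sub (L := L) (t := 0) h2 (by omega) (by omega)
  rw [add_zero, add_zero] at e1 e2
  exact Prod.ext e1 e2

/-- The types of sufficiently long windows are recurrent. -/
theorem mem_rec_of_long [Finite A] (x : ℤ → A) (L : ℕ) : ∃ N : ℕ, ∀ (n : ℕ) (a b : ℤ),
    Win x n.factorial a b → (N : ℤ) ≤ b - a → ty x n.factorial L a b ∈ Rec x L := by
  have key : ∀ τ : Ty A L, ∀ᶠ N : ℕ in Filter.atTop, ∀ (n : ℕ) (a b : ℤ),
      Win x n.factorial a b → (N : ℤ) ≤ b - a → ty x n.factorial L a b = τ → τ ∈ Rec x L := by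
    intro τ
    by_cases hτ : τ ∈ Rec x L
    · exact Filter.Eventually.of_forall fun N n a b _ _ _ => hτ
    · have : ∃ N0 : ℕ, ∀ (n : ℕ) (a b : ℤ), Win x n.factorial a b → (N0 : ℤ) ≤ b - a →
          ty x n.factorial L a b ≠ τ := by
        by_contra hc
        push Not at hc
        exact hτ hc
      obtain ⟨N0, hN0⟩ := this
      refine Filter.eventually_atTop.2 ⟨N0, fun N hN n a b hw hl ht => ?_⟩
      exact absurd ht (hN0 n a b hw (by omega))
  obtain ⟨N, hN⟩ := (Filter.eventually_all.2 key).exists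
  exact ⟨N, fun n a b hw hl => hN _ n a b hw hl rfl⟩

theorem rec_nonempty [Finite A] {x : ℤ → A} (hx : Good x) (L : ℕ) : (Rec x L).Nonempty := by
  obtain ⟨N, hN⟩ := mem_rec_of_long x L
  obtain ⟨n, a, b, hw, hl⟩ := hx.win N
  exact ⟨_, hN n a b hw hl⟩

end Hft
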