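import Pool.Agent.Hft.Orb
import Pool.Agent.Hft.Long
namespace Hft
variable {A B C : Type*}

/-- The block number `k` of length `q` cut at `b`. -/
def finBlk (x : ℤ → A) (q : ℕ) (b k : ℤ) : Fin q → A := fun j => x (b + k * q + (j : ℕ))

theorem finBlk_ker {x : ℤ → A} {q : ℕ} {b k l : ℤ} :
    finBlk x q b k = finBlk x q b l ↔ Ker x q b k l := by
  constructor
  · intro h j h1 h2
    have := congrFun h ⟨j.toNat, by omega⟩
    simp only [finBlk] at this
    have e : ((j.toNat : ℕ) : ℤ) = j := Int.toNat_of_nonneg h1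
    rwa [e] at this
  · intro h
    funext j
    exact h _ (by omega) (by have := j.2; omega)

/-- A section of the block map. -/
noncomputable def finSec (x : ℤ → A) (q : ℕ) (b : ℤ) (w : Fin q → A) : ℤ :=
  open Classical in if h : ∃ k, finBlk x q b k = w then h.choose else 0

theorem finSec_spec (x : ℤ → A) (q : ℕ) (b k : ℤ) :
    finBlk x q b (finSec x q b (finBlk x q b k)) = finBlk x q b k := by
  have h : ∃ k', finBlk x q b k' = finBlk x q b k := ⟨k, rfl⟩
  simp only [finSec]
  rw [dif_pos h]
  exact h.choose_spec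

theorem fin_level [Finite A] [Finite B] (x : ℤ → A) (q : ℕ) (hq : 0 < q) (b : ℤ) :
    {v : ℤ → B | ∀ k l, Ker x q b k l → Ker v q b k l}.Finite := by
  let F : (ℤ → B) → ((Fin q → A) → (Fin q → B)) := fun v w => finBlk v q b (finSec x q b w)
  refine Set.Finite.of_finite_image (f := F) (Set.toFinite _) ?_
  intro v hv v' hv' hF
  have key : ∀ u ∈ {v : ℤ → B | ∀ k l, Ker x q b k l → Ker v q b k l}, ∀ k,
      finBlk u q b k = F u (finBlk x q b k) := by
    intro u hu k
    have h1 : Ker x q b (finSec x q b (finBlk x q b k)) k := finBlk_ker.1 (finSec_spec x q b k)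
    exact (finBlk_ker.2 (hu _ _ h1)).symm
  funext i
  have hq' : (0 : ℤ) < q := by exact_mod_cast hq
  have h1 : 0 ≤ (i - b) % q := Int.emod_nonneg _ (by omega)
  have h2 : (i - b) % q < q := Int.emod_lt_of_pos _ hq'
  have h3 : i = b + (i - b) / q * q + (i - b) % q := by
    have := Int.emod_add_mul_ediv (i - b) q
    have e : (q : ℤ) * ((i - b) / q) = (i - b) / q * q := by ring
    omega
  have h4 : finBlk v q b ((i - b) / q) = finBlk v' q b ((i - b) / q) := by
    rw [key v hv, key v' hv', hF]
  have h5 := congrFun h4 ⟨((i - b) % q).toNat, by omega⟩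
  simp only [finBlk] at h5
  have e : ((((i - b) % q).toNat : ℕ) : ℤ) = (i - b) % q := Int.toNat_of_nonneg h1
  rw [e, ← h3] at h5
  exact h5

/-- Sequences over a finite alphabet whose block structure is a function of that of `x` at some
level `n ≤ m`: there are finitely many. -/
theorem finite_recodings [Finite A] [Finite B] (x : ℤ → A) (m : ℕ) :
    {v : ℤ → B | ∃ n ≤ m, ∃ b : ℤ, 0 ≤ b ∧ b < n.factorial ∧
      ∀ k l, Ker x n.factorial b k l → Ker v n.factorial b k l}.Finite := by
  have hfin : (⋃ n ∈ Set.Iic m, ⋃ b ∈ Set.Ico (0 : ℤ) (n.factorial : ℤ),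
      {v : ℤ → B | ∀ k l, Ker x n.factorial b k l → Ker v n.factorial b k l}).Finite := by
    refine Set.Finite.biUnion (Set.finite_Iic m) fun n _ => ?_
    refine Set.Finite.biUnion (Set.finite_Ico _ _) fun b _ => ?_
    exact fin_level x _ (Nat.factorial_pos n) b
  refine hfin.subset ?_
  rintro v ⟨n, hn, b, hb0, hb1, hv⟩
  simp only [Set.mem_iUnion]
  exact ⟨n, hn, b, ⟨hb0, hb1⟩, hv⟩

theorem fin_ker_shift {x : ℤ → A} {q : ℕ} {b k l t : ℤ} :
    Ker x q (b + t * q) k l ↔ Ker x q b (k + t) (l + t) := by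
  have e : ∀ k j : ℤ, b + t * q + k * q + j = b + (k + t) * q + j := by intro k j; ring
  constructor
  · intro h j h1 h2
    have := h j h1 h2
    rwa [e, e] at this
  · intro h j h1 h2
    have := h j h1 h2
    rw [e, e]
    exact this

theorem fin_ker_sh {v : ℤ → B} {q : ℕ} {b k l κ : ℤ} :
    Ker (sh κ v) q b k l ↔ Ker v q (b + κ) k l := by
  have e : ∀ k j : ℤ, b + k * q + j + κ = b + κ + k * q + j := by intro k j; ring
  constructor
  · intro h j h1 h2
    have := h j h1 h2
    simp only [sh] at this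
    rwa [e, e] at this
  · intro h j h1 h2
    have := h j h1 h2
    simp only [sh]
    rw [e, e]
    exact this

theorem finite_class [Finite A] {x : ℤ → A} (hx : Good x) (m N : ℕ) :
    {K : Set (ℤ → Fin N) | ∃ y, UR y ∧ K = {z | InOrb y z} ∧ RR m x y}.Finite := by
  refine ((finite_recodings (B := Fin N) x m).image fun v => {z | InOrb v z}).subset ?_
  rintro K ⟨y, hy, rfl, c, d, hiso, hresp⟩
  obtain ⟨τ, hτ⟩ := rec_nonempty hx (Prec x)
  obtain ⟨τ', _, n, κ, hstar, _, ⟨b, hb⟩, _, hker⟩ := hresp.1 τ hτ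
  refine ⟨sh κ (c.app x), ?_, ?_⟩
  · have hq' : (0 : ℤ) < n.factorial := by exact_mod_cast Nat.factorial_pos n
    refine ⟨n, hstar.1, b % n.factorial, Int.emod_nonneg _ (by omega),
      Int.emod_lt_of_pos _ hq', ?_⟩
    intro k l hkl
    have hb' : b = b % n.factorial + (b / n.factorial) * n.factorial := by
      have := Int.emod_add_mul_ediv b n.factorial
      have e : (n.factorial : ℤ) * (b / n.factorial) = b / n.factorial * n.factorial := by ring
      omega
    have h1 : Ker x n.factorial b (k - b / n.factorial) (l - b / n.factorial) := by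
      rw [hb', fin_ker_shift]
      rw [← hb']
      simpa using hkl
    have h2 := (hker b hb _ _).1 h1
    rw [← fin_ker_sh, hb', fin_ker_shift] at h2
    rw [← hb'] at h2
    simpa using h2
  · have h1 : InOrb y (sh κ (c.app x)) := inOrb_trans hiso.img (inOrb_sh _ κ)
    ext z
    simp only [Set.mem_ofPred_eq]
    constructor
    · intro hz
      exact inOrb_trans h1 hz
    · intro hz
      exact inOrb_trans (inOrb_symm hy h1) hz

end Hft
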