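import Pool.Agent.Hft.MeasB
namespace Hft

instance {a b : ℕ} : Countable (Code (Fin a) (Fin b)) := by
  have h : Function.Injective (fun c : Code (Fin a) (Fin b) =>
      (⟨c.r, c.f⟩ : Σ r : ℕ, ((Fin (2 * r + 1) → Fin a) → Fin b))) := by
    rintro ⟨r, f⟩ ⟨r', f'⟩ h
    simp only [Sigma.mk.injEq] at h
    obtain ⟨rfl, h⟩ := h
    rw [heq_eq_eq] at h
    rw [h]
  exact h.countable

theorem measurable_app {a b : ℕ} (c : Code (Fin a) (Fin b)) : Measurable c.app :=
  measurable_pi_lambda _ fun i => (measurable_of_countable c.f).comp (mea_wd a c.r i)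

theorem meas_InOrb (a : ℕ) :
    MeasurableSet {p : (ℤ → Fin a) × (ℤ → Fin a) | InOrb p.1 p.2} :=
  mea_forall fun L => mea_exists fun k =>
    mea_eq ((mea_wd a L k).comp measurable_fst) ((mea_wd a L 0).comp measurable_snd)

theorem mec_eq {α : Type*} [MeasurableSpace α] {a : ℕ} {f g : α → ℤ → Fin a} (hf : Measurable f)
    (hg : Measurable g) : MeasurableSet {x | f x = g x} := by
  have e : {x | f x = g x} = {x | ∀ i, f x i = g x i} := by
    ext x
    exact funext_iff
  rw [e]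
  exact mea_forall fun i => mea_eq ((mea_coord a i).comp hf) ((mea_coord a i).comp hg)

theorem meas_RR (m a b : ℕ) :
    MeasurableSet {p : (ℤ → Fin a) × (ℤ → Fin b) | RR m p.1 p.2} := by
  have e : {p : (ℤ → Fin a) × (ℤ → Fin b) | RR m p.1 p.2} =
      {p | ∃ (c : Code (Fin a) (Fin b)) (d : Code (Fin b) (Fin a)),
        (InOrb p.2 (c.app p.1) ∧ InOrb p.1 (d.app p.2) ∧ d.app (c.app p.1) = p.1 ∧
          c.app (d.app p.2) = p.2) ∧ Resp m p.1 (c.app p.1)} := by
    ext p
    constructor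
    · rintro ⟨c, d, ⟨h1, h2, h3, h4⟩, h5⟩
      exact ⟨c, d, ⟨h1, h2, h3, h4⟩, h5⟩
    · rintro ⟨c, d, ⟨h1, h2, h3, h4⟩, h5⟩
      exact ⟨c, d, ⟨h1, h2, h3, h4⟩, h5⟩
  rw [e]
  refine mea_exists fun c => mea_exists fun d => mea_and (mea_and ?_ (mea_and ?_ (mea_and ?_ ?_)))
    ?_
  · exact (measurable_snd.prodMk ((measurable_app c).comp measurable_fst)) (meas_InOrb b)
  · exact (measurable_fst.prodMk ((measurable_app d).comp measurable_snd)) (meas_InOrb a)
  · exact mec_eq ((measurable_app d).comp ((measurable_app c).comp measurable_fst)) measurable_fst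
  · exact mec_eq ((measurable_app c).comp ((measurable_app d).comp measurable_snd)) measurable_snd
  · exact (measurable_fst.prodMk ((measurable_app c).comp measurable_fst)) (meas_Resp m a b)

theorem meas_UR (a : ℕ) : MeasurableSet {x : ℤ → Fin a | UR x} :=
  mea_forall fun L => mea_exists fun _ => mea_forall fun _ => mea_exists fun j =>
    mea_and (mea_const _) (mea_and (mea_const _) (mea_eq (mea_wd a L j) (mea_wd a L 0)))

theorem meas_Good (a : ℕ) : MeasurableSet {x : ℤ → Fin a | Good x} := by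
  have e : {x : ℤ → Fin a | Good x} =
      {x | UR x ∧ (∀ N : ℕ, ∃ (n : ℕ) (s t : ℤ), Win x n.factorial s t ∧ (N : ℤ) ≤ t - s) ∧
        ∃ c : ℕ, ∀ L : ℕ, (Rec x L).ncard ≤ c} := by
    ext x
    exact ⟨fun ⟨h1, h2, h3⟩ => ⟨h1, h2, h3⟩, fun ⟨h1, h2, h3⟩ => ⟨h1, h2, h3⟩⟩
  rw [e]
  refine mea_and (meas_UR a) (mea_and (mea_forall fun _ => mea_exists fun _ => mea_exists fun s =>
    mea_exists fun t => mea_and (meas_Win a _ s t) (mea_const _)) (mea_exists fun c =>
    mea_forall fun L => ?_))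
  exact mea_ncard_Rec a L (MeasurableSet.of_discrete (s := Set.Iic c))

end Hft
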