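import Pool.Agent.Hft.Rel
import Pool.Agent.Hft.Orb
import Pool.Agent.Hft.MeasC
open TopologicalSpace
namespace Hft

/-- A compact set equals the orbit closure of its selected point iff it has the same words at `0`. -/
theorem eq_orb_iff (m : ℕ) (K : Compacts (ℤ → Fin (m + 2))) :
    (K : Set (ℤ → Fin (m + 2))) = {y | InOrb (sel m K) y} ↔
      ∀ (L : ℕ) (w : Fin (2 * L + 1) → Fin (m + 2)),
        (∃ y ∈ K, wd y L 0 = w) ↔ ∃ k : ℤ, wd (sel m K) L k = w := by
  constructor
  · intro h L w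
    constructor
    · rintro ⟨y, hy, rfl⟩
      have h1 : y ∈ (K : Set (ℤ → Fin (m + 2))) := hy
      rw [h] at h1
      exact h1 L
    · rintro ⟨k, rfl⟩
      refine ⟨sh k (sel m K), ?_, by rw [wd_sh, zero_add]⟩
      show sh k (sel m K) ∈ (K : Set (ℤ → Fin (m + 2)))
      rw [h]
      exact inOrb_sh _ k
  · intro h
    ext y
    constructor
    · intro hy L
      exact (h L (wd y L 0)).1 ⟨y, hy, rfl⟩
    · intro hy
      have hcl : IsClosed (K : Set (ℤ → Fin (m + 2))) := K.isCompact.isClosed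
      rw [← hcl.closure_eq, mem_closure_iff_nhds]
      intro U hU
      rw [nhds_pi, Filter.mem_pi'] at hU
      obtain ⟨I, t, ht, hsub⟩ := hU
      obtain ⟨k, hk⟩ := hy (I.sup Int.natAbs)
      obtain ⟨z, hz, hzw⟩ := (h (I.sup Int.natAbs) _).2 ⟨k, hk⟩
      refine ⟨z, hsub fun i hi => ?_, hz⟩
      have hi' : i.natAbs ≤ I.sup Int.natAbs := Finset.le_sup (f := Int.natAbs) hi
      have h1 := wd_eq_iff.1 hzw i (by omega) (by omega)
      rw [zero_add] at h1
      rw [h1]
      exact mem_of_mem_nhds (ht i)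

theorem meas_BB : MeasurableSet BB := by
  refine MeasurableSpace.measurableSet_iInf.2 fun m => ?_
  show MeasurableSet (Sigma.mk m ⁻¹' BB)
  have h1 : Sigma.mk m ⁻¹' BB = {K : Compacts (ℤ → Fin (m + 2)) |
      ((K : Set (ℤ → Fin (m + 2))) ∩ Set.univ).Nonempty} ∩
      ((⋂ L : ℕ, ⋂ w : Fin (2 * L + 1) → Fin (m + 2), {K | (∃ y ∈ K, wd y L 0 = w) ↔
        ∃ k : ℤ, wd (sel m K) L k = w}) ∩ (sel m) ⁻¹' {x | Good x}) := by
    ext K
    simp only [Set.inter_univ, Set.mem_inter_iff, Set.mem_iInter, Set.mem_preimage]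
    show ((K : Set (ℤ → Fin (m + 2))).Nonempty ∧
      (K : Set (ℤ → Fin (m + 2))) = {y | InOrb (sel m K) y} ∧ Good (sel m K)) ↔ _
    rw [eq_orb_iff]
    rfl
  rw [h1]
  refine MeasurableSet.inter ?_ (MeasurableSet.inter ?_ ?_)
  · exact (Compacts.isOpen_inter_nonempty_of_isOpen isOpen_univ).measurableSet
  · refine MeasurableSet.iInter fun L => MeasurableSet.iInter fun w => ?_
    refine measurableSet_setOfPred.2 (Measurable.iff ?_ ?_)
    · exact measurableSet_setOfPred.1 (meas_meets m L w)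
    · refine measurableSet_setOfPred.1 ?_
      have h2 : {K : Compacts (ℤ → Fin (m + 2)) | ∃ k : ℤ, wd (sel m K) L k = w} =
          ⋃ k : ℤ, (sel m) ⁻¹' {x | wd x L k = w} := by
        ext K; simp
      rw [h2]
      exact MeasurableSet.iUnion fun k => measurable_sel m (meas_wd _ L k w)
  · exact measurable_sel m (meas_Good _)

end Hft
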