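import Pool.Agent.Hft.Rel
import Pool.Agent.Hft.MeasC
open TopologicalSpace
namespace Hft

/-- The component of index `m` (the empty set if the index is different). -/
noncomputable def ggComp (m : ℕ) (S : SS) : Compacts (ℤ → Fin (m + 2)) :=
  if h : S.1 = m then h ▸ S.2 else ⊥

theorem ggComp_mk (m : ℕ) (K : Compacts (ℤ → Fin (m + 2))) : ggComp m ⟨m, K⟩ = K := by
  unfold ggComp
  rw [dif_pos rfl]

theorem measurable_ggComp (m : ℕ) : Measurable (ggComp m) := by
  intro s hs
  refine MeasurableSpace.measurableSet_iInf.2 fun k => ?_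
  show MeasurableSet (Sigma.mk k ⁻¹' (ggComp m ⁻¹' s))
  by_cases hk : k = m
  · subst hk
    have h1 : Sigma.mk k ⁻¹' (ggComp k ⁻¹' s) = s := by
      ext K
      show ggComp k ⟨k, K⟩ ∈ s ↔ _
      rw [ggComp_mk]
    rw [h1]
    exact hs
  · have h1 : ∀ K : Compacts (ℤ → Fin (k + 2)), ggComp m ⟨k, K⟩ = ⊥ := by
      intro K
      unfold ggComp
      rw [dif_neg hk]
    have h2 : Sigma.mk k ⁻¹' (ggComp m ⁻¹' s) =
        {_K : Compacts (ℤ → Fin (k + 2)) | (⊥ : Compacts (ℤ → Fin (m + 2))) ∈ s} := by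
      ext K
      show ggComp m ⟨k, K⟩ ∈ s ↔ _
      rw [h1]
      rfl
    rw [h2]
    exact MeasurableSet.const _

theorem measurableSet_ggIdx (m : ℕ) : MeasurableSet {S : SS | S.1 = m} := by
  refine MeasurableSpace.measurableSet_iInf.2 fun k => ?_
  show MeasurableSet (Sigma.mk k ⁻¹' {S : SS | S.1 = m})
  have h2 : Sigma.mk k ⁻¹' {S : SS | S.1 = m} =
      {_K : Compacts (ℤ → Fin (k + 2)) | k = m} := by
    ext K
    rfl
  rw [h2]
  exact MeasurableSet.const _

theorem meas_diag : MeasurableSet {p : SS × SS | p.1 = p.2} := by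
  have h1 : {p : SS × SS | p.1 = p.2} = ⋃ m : ℕ, ((Prod.fst ⁻¹' {S : SS | S.1 = m}) ∩
      ((Prod.snd ⁻¹' {S : SS | S.1 = m}) ∩
        {p : SS × SS | ggComp m p.1 = ggComp m p.2})) := by
    ext ⟨S, T⟩
    simp only [Set.mem_iUnion, Set.mem_inter_iff, Set.mem_preimage, Set.mem_ofPred_eq]
    constructor
    · rintro rfl
      exact ⟨S.1, rfl, rfl, rfl⟩
    · rintro ⟨m, hS, hT, h⟩
      obtain ⟨a, K⟩ := S
      obtain ⟨b, K'⟩ := T
      obtain rfl : a = m := hS
      obtain rfl : b = a := hT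
      rw [ggComp_mk, ggComp_mk] at h
      rw [h]
  rw [h1]
  refine MeasurableSet.iUnion fun m => MeasurableSet.inter ?_ (MeasurableSet.inter ?_ ?_)
  · exact measurable_fst (measurableSet_ggIdx m)
  · exact measurable_snd (measurableSet_ggIdx m)
  · exact measurableSet_eq_fun ((measurable_ggComp m).comp measurable_fst)
      ((measurable_ggComp m).comp measurable_snd)

theorem meas_GG (m : ℕ) : MeasurableSet {p : SS × SS | GG m p.1 p.2} := by
  have h1 : {p : SS × SS | GG m p.1 p.2} = {p : SS × SS | p.1 = p.2} ∪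
      ⋃ a : ℕ, ⋃ b : ℕ, ({_p : SS × SS | a ≤ m ∧ b ≤ m} ∩
        ((Prod.fst ⁻¹' {S : SS | S.1 = a}) ∩ ((Prod.snd ⁻¹' {S : SS | S.1 = b}) ∩
          ⋂ m' : ℕ, ⋂ _ : m ≤ m',
            (fun p : SS × SS => (sel a (ggComp a p.1), sel b (ggComp b p.2))) ⁻¹'
              {q : (ℤ → Fin (a + 2)) × (ℤ → Fin (b + 2)) | RR m' q.1 q.2}))) := by
    ext ⟨S, T⟩
    simp only [Set.mem_union, Set.mem_iUnion, Set.mem_inter_iff, Set.mem_preimage,
      Set.mem_ofPred_eq, Set.mem_iInter]
    constructor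
    · rintro (h | ⟨hS, hT, h⟩)
      · exact Or.inl h
      · obtain ⟨a, K⟩ := S
        obtain ⟨b, K'⟩ := T
        refine Or.inr ⟨a, b, ⟨hS, hT⟩, rfl, rfl, fun m' hm' => ?_⟩
        rw [ggComp_mk, ggComp_mk]
        exact h m' hm'
    · rintro (h | ⟨a, b, ⟨ha, hb⟩, hS, hT, h⟩)
      · exact Or.inl h
      · obtain ⟨a', K⟩ := S
        obtain ⟨b', K'⟩ := T
        obtain rfl : a' = a := hS
        obtain rfl : b' = b := hT
        refine Or.inr ⟨ha, hb, fun m' hm' => ?_⟩
        have h2 := h m' hm'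
        rw [ggComp_mk, ggComp_mk] at h2
        exact h2
  rw [h1]
  refine meas_diag.union (MeasurableSet.iUnion fun a => MeasurableSet.iUnion fun b => ?_)
  refine MeasurableSet.inter (MeasurableSet.const _) (MeasurableSet.inter
    (measurable_fst (measurableSet_ggIdx a)) (MeasurableSet.inter
    (measurable_snd (measurableSet_ggIdx b)) ?_))
  refine MeasurableSet.iInter fun m' => MeasurableSet.iInter fun _ => ?_
  have hm : Measurable fun p : SS × SS => (sel a (ggComp a p.1), sel b (ggComp b p.2)) :=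
    ((measurable_sel a).comp ((measurable_ggComp a).comp measurable_fst)).prodMk
      ((measurable_sel b).comp ((measurable_ggComp b).comp measurable_snd))
  exact hm (meas_RR m' (a + 2) (b + 2))

end Hft
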