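import Pool.Agent.Hft.Base
import Pool.Agent.Hft.Parse
namespace Hft
variable {A : Type*}

/-- The reversed sequence. -/
def rv (x : ℤ → A) : ℤ → A := fun i => x (-i)

/-- Reversal of words. -/
def rw' {L : ℕ} (w : Fin (2 * L + 1) → A) : Fin (2 * L + 1) → A := fun j => w (Fin.rev j)

theorem wd_rv (x : ℤ → A) (L : ℕ) (i : ℤ) : wd (rv x) L i = rw' (wd x L (-i)) := by
  funext j
  simp only [wd, rv, rw', Fin.val_rev]
  congr 1
  have := j.2
  omega

theorem wd_rv' (x : ℤ → A) (L : ℕ) (i : ℤ) : wd x L i = rw' (wd (rv x) L (-i)) := by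
  rw [wd_rv]
  funext j
  simp only [rw', Fin.rev_rev, neg_neg]

theorem wd_rv_eq {x : ℤ → A} {L : ℕ} {i j : ℤ} (h : wd (rv x) L i = wd (rv x) L j) :
    wd x L (-i) = wd x L (-j) := by
  rw [wd_rv', wd_rv' x L (-j), neg_neg, neg_neg, h]

theorem ur_rv {x : ℤ → A} (hx : UR x) : UR (rv x) := by
  intro L
  obtain ⟨N, hN⟩ := hx L
  refine ⟨N, fun i => ?_⟩
  obtain ⟨j, h1, h2, hj⟩ := hN (-(i + N))
  exact ⟨-j, by omega, by omega, by rw [wd_rv, wd_rv, neg_neg, neg_zero, hj]⟩

theorem aper_rv {x : ℤ → A} (hx : Aper x) : Aper (rv x) := by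
  rintro ⟨p, hp, h⟩
  refine hx ⟨p, hp, fun i => ?_⟩
  have := h (-i - p)
  simp only [rv] at this
  have e1 : -(-i - p + p) = i := by ring
  have e2 : -(-i - p) = i + p := by ring
  rw [e1, e2] at this
  exact this.symm

theorem lw_rv (x : ℤ → A) (i j : ℤ) : lw (rv x) (1 - j) (1 - i) = (lw x i j).reverse := by
  have e : (1 - i - (1 - j)).toNat = (j - i).toNat := by congr 1; ring
  apply List.ext_getElem
  · rw [List.length_reverse, lw_length, lw_length, e]
  · intro t h1 h2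
    rw [lw_length] at h1
    rw [List.getElem_reverse]
    simp only [lw_def, List.getElem_map, List.getElem_range, List.length_map, List.length_range,
      rv]
    congr 1
    omega

/-- Cutting points of the reversed sequence: `{1 - i : i ∈ D}`. -/
theorem bd_rv {x : ℤ → A} {K N : ℕ} {D : Set ℤ} (h : Bd x K N D) :
    ∃ D' : Set ℤ, Bd (rv x) K N D' := by
  have hR : RetW (rv x) {i | 1 - i ∈ D} = List.reverse '' RetW x D := by
    ext w
    constructor
    · rintro ⟨i, hi, j, hj, hij, hn, rfl⟩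
      refine ⟨lw x (1 - j) (1 - i), ⟨1 - j, hj, 1 - i, hi, by omega, fun s hs => ?_, rfl⟩, ?_⟩
      · have h1 := hn (1 - s) (by simpa using hs)
        omega
      · rw [← lw_rv]
        congr 1 <;> ring
    · rintro ⟨_, ⟨i, hi, j, hj, hij, hn, rfl⟩, rfl⟩
      refine ⟨1 - j, by simpa using hj, 1 - i, by simpa using hi, by omega, fun s hs => ?_, ?_⟩
      · have h1 := hn (1 - s) hs
        omega
      · rw [lw_rv]
  refine ⟨{i | 1 - i ∈ D}, ?_, ?_, ?_, ?_, ?_⟩
  · obtain ⟨ρ, hρ⟩ := h.loc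
    refine ⟨ρ + 1, fun i j hij => ?_⟩
    have h1 := wd_rv_eq hij
    have h2 := wd_sub (L := ρ) (t := 1) h1 (by push_cast; omega) (by push_cast; omega)
    have h3 := hρ _ _ h2
    have e1 : -i + 1 = 1 - i := by ring
    have e2 : -j + 1 = 1 - j := by ring
    rw [e1, e2] at h3
    exact h3
  · obtain ⟨G, hG⟩ := h.gap
    refine ⟨G, fun i => ?_⟩
    obtain ⟨j, hj, h1, h2⟩ := hG (1 - (i + G))
    exact ⟨1 - j, by simpa using hj, by omega, by omega⟩
  · intro i hi j hj t h1 h2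
    have := h.ctx _ hi _ hj (-t - 1) (by omega) (by omega)
    simp only [rv]
    have e1 : -(i + t) = 1 - i + (-t - 1) := by ring
    have e2 : -(j + t) = 1 - j + (-t - 1) := by ring
    rw [e1, e2, this]
  · rw [hR]; exact h.fin.image _
  · rw [hR]; exact (Set.ncard_image_le h.fin).trans h.card

theorem nh_rv {x : ℤ → A} {q : ℕ} {i : ℤ} : NH (rv x) q i ↔ NH x q (-i) := by
  constructor
  · intro h k
    have := h (-k)
    simp only [rv] at this
    have e1 : -(i + -k * q) = -i + k * q := by ring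
    rwa [e1] at this
  · intro h k
    have := h (-k)
    simp only [rv]
    have e1 : -(i + k * q) = -i + -k * q := by ring
    rwa [e1]

theorem win_rv {x : ℤ → A} {q : ℕ} {a b : ℤ} (h : Win x q a b) : Win (rv x) q (-b) (-a) := by
  obtain ⟨h0, hN, hl, hr⟩ := h
  refine ⟨by omega, fun i h1 h2 => nh_rv.2 (hN _ (by omega) (by omega)), ?_, ?_⟩
  · rw [nh_rv]
    have e : -(-b - 1) = b + 1 := by ring
    rwa [e]
  · rw [nh_rv]
    have e : -(-a + 1) = a - 1 := by ring
    rwa [e]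

/-- Reversal of words. -/
theorem pat_rv (x : ℤ → A) (q L : ℕ) (i : ℤ) :
    Pat x q L i = (fun w : Fin (2 * L + 1) → A => fun j => w (Fin.rev j)) '' Pat (rv x) q L (-i) := by
  ext w
  constructor
  · rintro ⟨k, rfl⟩
    refine ⟨_, ⟨-k, rfl⟩, ?_⟩
    simp only
    have e : -i + -k * (q : ℤ) = -(i + k * q) := by ring
    rw [e]
    exact (wd_rv' x L (i + k * q)).symm
  · rintro ⟨_, ⟨k, rfl⟩, rfl⟩
    refine ⟨-k, ?_⟩
    simp only
    have e : -i + k * (q : ℤ) = -(i + -k * q) := by ring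
    rw [e]
    exact wd_rv' x L (i + -k * q)

end Hft
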