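import Pool.Agent.Hft.CountR
import Pool.Agent.Hft.Rev
namespace Hft
variable {A : Type*}

theorem rec_bound [Finite A] {x : ℤ → A} (hx : UR x) (ha : Aper x) {K : ℕ}
    (h : ∀ N : ℕ, ∃ D : Set ℤ, Bd x K N D) : ∃ c : ℕ, ∀ L : ℕ, (Rec x L).ncard ≤ c := by
  refine ⟨(K ^ 2 * 2 ^ (K ^ 2)) * (K ^ 2 * 2 ^ (K ^ 2)), fun L => ?_⟩
  obtain ⟨T, hT, M, hM⟩ := count_right hx ha h L
  obtain ⟨T', hT', M', hM'⟩ := count_right (ur_rv hx) (aper_rv ha)
    (fun N => let ⟨_, hD⟩ := h N; bd_rv hD) L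
  set f : Set (Fin (2 * L + 1) → A) → Set (Fin (2 * L + 1) → A) :=
    fun P => (fun w : Fin (2 * L + 1) → A => fun j => w (Fin.rev j)) '' P with hf
  have hsub : Rec x L ⊆ (f '' T') ×ˢ T := by
    intro τ hτ
    obtain ⟨n, a, b, hw, hab, rfl⟩ := hτ (max M M')
    have h1 := hM _ a b hw (by push_cast at hab; omega)
    have h2 := hM' _ (-b) (-a) (win_rv hw) (by push_cast at hab; omega)
    refine ⟨⟨_, h2, ?_⟩, h1⟩
    simp only [ty]
    rw [pat_rv x _ L (a - 1)]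
    have e : -(a - 1) = -a + 1 := by ring
    rw [e]
  refine (Set.ncard_le_ncard hsub (Set.toFinite _)).trans ?_
  rw [Set.ncard_prod]
  exact Nat.mul_le_mul ((Set.ncard_image_le (Set.toFinite _)).trans hT') hT

end Hft
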