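import Pool.Agent.Hft.Base
namespace Hft
variable {A : Type*}

/-- Finitely many positions of a Toeplitz sequence are non-holes at some level `n!`. -/
theorem toeplitz_nh {x : ℤ → A} (h : IsToeplitz x) (N : ℕ) :
    ∃ n : ℕ, ∀ i : ℤ, -(N : ℤ) ≤ i → i ≤ N → NH x n.factorial i := by
  have key : ∀ i ∈ Set.Icc (-(N : ℤ)) N, ∀ᶠ n : ℕ in Filter.atTop, NH x n.factorial i := by
    intro i _
    obtain ⟨p, hp, hx⟩ := h.2 i
    refine Filter.eventually_atTop.2 ⟨p.toNat, fun n hn k => ?_⟩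
    have hd : p.toNat ∣ n.factorial := Nat.dvd_factorial (by omega) hn
    obtain ⟨c, hc⟩ := hd
    have e1 : (n.factorial : ℤ) = p * c := by
      rw [hc]; push_cast; rw [Int.toNat_of_nonneg (by omega)]
    have e2 : i + k * (n.factorial : ℤ) = i + (k * c) * p := by rw [e1]; ring
    rw [e2]; exact hx _
  obtain ⟨n, hn⟩ := ((Filter.eventually_all_finite (Set.finite_Icc _ _)).2 key).exists
  exact ⟨n, fun i h1 h2 => hn i ⟨h1, h2⟩⟩

theorem toeplitz_ur {x : ℤ → A} (h : IsToeplitz x) : UR x := by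
  intro L
  obtain ⟨n, hn⟩ := toeplitz_nh h L
  have hq : (0 : ℤ) < n.factorial := by exact_mod_cast n.factorial_pos
  refine ⟨n.factorial, fun i => ⟨(-((-i) / n.factorial)) * n.factorial, ?_, ?_, ?_⟩⟩
  · have h1 := Int.emod_add_mul_ediv (-i) n.factorial
    have h2 := Int.emod_nonneg (-i) hq.ne'
    nlinarith [h1, h2]
  · have h1 := Int.emod_add_mul_ediv (-i) n.factorial
    have h2 := Int.emod_lt_of_pos (-i) hq
    nlinarith [h1, h2]
  · rw [wd_eq_iff]
    intro t h1 h2
    have := hn t h1 h2 (-((-i) / n.factorial))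
    rw [zero_add, add_comm]
    exact this

theorem toeplitz_win {x : ℤ → A} (h : IsToeplitz x) :
    ∀ N : ℕ, ∃ (n : ℕ) (a b : ℤ), Win x n.factorial a b ∧ (N : ℤ) ≤ b - a := by
  classical
  intro N
  obtain ⟨n, hn⟩ := toeplitz_nh h N
  have hq : (0 : ℤ) < n.factorial := by exact_mod_cast n.factorial_pos
  have hhole : ∃ i : ℤ, ¬ NH x n.factorial i := by
    by_contra hc
    push Not at hc
    exact h.1 ⟨n.factorial, by omega, fun i => by simpa using hc i 1⟩
  obtain ⟨i, hi⟩ := hhole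
  have hE1 : ∃ t : ℕ, ¬ NH x n.factorial (t : ℤ) := by
    refine ⟨(i + |i| * n.factorial).toNat, ?_⟩
    have : 0 ≤ i + |i| * n.factorial := by
      have := neg_abs_le i
      have := abs_nonneg i
      nlinarith
    rw [Int.toNat_of_nonneg this, nh_add]
    exact hi
  have hE2 : ∃ t : ℕ, ¬ NH x n.factorial (-(t : ℤ)) := by
    refine ⟨(-(i + (-|i|) * n.factorial)).toNat, ?_⟩
    have : 0 ≤ -(i + (-|i|) * n.factorial) := by
      have := le_abs_self i
      have := abs_nonneg i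
      nlinarith
    rw [Int.toNat_of_nonneg this, neg_neg, nh_add]
    exact hi
  have hs1 := Nat.find_spec hE1
  have hs2 := Nat.find_spec hE2
  have hm1 : ∀ t : ℕ, t < Nat.find hE1 → NH x n.factorial (t : ℤ) := fun t ht =>
    not_not.1 (Nat.find_min hE1 ht)
  have hm2 : ∀ t : ℕ, t < Nat.find hE2 → NH x n.factorial (-(t : ℤ)) := fun t ht =>
    not_not.1 (Nat.find_min hE2 ht)
  generalize Nat.find hE1 = t1 at hs1 hm1
  generalize Nat.find hE2 = t2 at hs2 hm2
  have g1 : N < t1 := by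
    by_contra hc
    exact hs1 (hn t1 (by omega) (by omega))
  have g2 : N < t2 := by
    by_contra hc
    exact hs2 (hn (-(t2 : ℤ)) (by omega) (by omega))
  refine ⟨n, -(t2 : ℤ) + 1, (t1 : ℤ) - 1, ⟨by omega, ?_, ?_, ?_⟩, by omega⟩
  · intro j h1 h2
    rcases le_total 0 j with h0 | h0
    · have := hm1 j.toNat (by omega)
      rwa [Int.toNat_of_nonneg h0] at this
    · have := hm2 (-j).toNat (by omega)
      rwa [Int.toNat_of_nonneg (by omega), neg_neg] at this
  · have e : -(t2 : ℤ) + 1 - 1 = -(t2 : ℤ) := by ring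
    rw [e]; exact hs2
  · have e : (t1 : ℤ) - 1 + 1 = (t1 : ℤ) := by ring
    rw [e]; exact hs1

end Hft
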