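import Pool.Agent.Hft.Evt
import Pool.Agent.Hft.FinCl
import Pool.Agent.Hft.MeasBB
import Pool.Agent.Hft.MeasGG
import Pool.Agent.Hft.Chl
import Pool.Agent.Hft.Toep
import Pool.Agent.Hft.RecB
import Pool.Agent.Hft.Bv3
open TopologicalSpace
namespace Hft

/-! ## Assembly -/

theorem TT_subset_BB : TT ⊆ BB := by
  rintro ⟨m, K⟩ ⟨⟨x, hT, hK⟩, hR⟩
  have hK' : (K : Set (ℤ → Fin (m + 2))) = {y | InOrb x y} := by
    have := closure_eq_inOrb x
    simpa [SS.set, this] using hK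
  have hne : (K : Set (ℤ → Fin (m + 2))).Nonempty := ⟨x, by rw [hK']; exact inOrb_refl x⟩
  have hs : sel m K ∈ K := sel_mem hne
  have hur : UR x := toeplitz_ur hT
  have hsx : InOrb x (sel m K) := by
    have : sel m K ∈ (K : Set (ℤ → Fin (m + 2))) := hs
    rw [hK'] at this; exact this
  have hrank : FiniteTopRank {y | InOrb x y} := by
    have h0 : FiniteTopRank (K : Set (ℤ → Fin (m + 2))) := hR
    rwa [hK'] at h0
  obtain ⟨k, hk⟩ := bd_of_rank hur hrank
  have hgood : Good x := ⟨hur, toeplitz_win hT, rec_bound hur hT.1 hk⟩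
  refine ⟨hne, ?_, good_of_inOrb hgood hsx⟩
  change (K : Set (ℤ → Fin (m + 2))) = _
  rw [hK']
  ext y
  exact ⟨fun h => inOrb_trans (inOrb_symm hur hsx) h, fun h => inOrb_trans hsx h⟩

theorem sconj_iff {S T : SS} (hS : S ∈ BB) (hT : T ∈ BB) : SConj S T ↔ ∃ m, GG m S T := by
  obtain ⟨hSn, hSe, hSg⟩ := hS
  obtain ⟨hTn, hTe, hTg⟩ := hT
  constructor
  · intro h
    have h' : Conj {y | InOrb (sel S.1 S.2) y} {y | InOrb (sel T.1 T.2) y} := by
      have h0 : Conj S.set T.set := h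
      rwa [hSe, hTe] at h0
    obtain ⟨c, d, hcd⟩ := conj_code hTg.ur h'
    obtain ⟨m0, hm0⟩ := eventual hSg (good_of_inOrb hTg hcd.img) c d rfl hcd.inv
    refine ⟨max m0 (max S.1 T.1), Or.inr ⟨?_, ?_, ?_⟩⟩
    · exact le_trans (le_max_left _ _) (le_max_right _ _)
    · exact le_trans (le_max_right _ _) (le_max_right _ _)
    · intro m' hm'
      exact ⟨c, d, hcd, hm0 m' (le_trans (le_max_left _ _) hm')⟩
  · rintro ⟨m, rfl | ⟨_, _, h⟩⟩
    · exact ⟨Homeomorph.refl _, fun x y h => h⟩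
    · obtain ⟨c, d, hcd, -⟩ := h m le_rfl
      have := conj_of_isoP hcd
      change Conj S.set T.set
      rw [hSe, hTe]; exact this

theorem hyperfinite_of_subset {B : Set SS} (hB : B ⊆ BB) :
    IsHyperfinite (fun S T : B => SConj S.1 T.1) := by
  refine ⟨fun m S T => GG m S.1 T.1, ?_, ?_, ?_, ?_, ?_⟩
  · intro m
    refine ⟨fun S => Or.inl rfl, ?_, ?_⟩
    · rintro S T (h | ⟨h1, h2, h⟩)
      · exact Or.inl h.symm
      · exact Or.inr ⟨h2, h1, fun m' hm' =>
          rr_symm (hB S.2).2.2.ur (hB T.2).2.2.ur (h m' hm')⟩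
    · rintro S T U h h'
      rcases h with h | ⟨h1, h2, h⟩
      · rw [h]; exact h'
      · rcases h' with h' | ⟨h1', h2', h'⟩
        · rw [← h']; exact Or.inr ⟨h1, h2, h⟩
        · exact Or.inr ⟨h1, h2', fun m' hm' =>
            rr_trans (hB S.2).2.2.ur (hB T.2).2.2.ur (h m' hm') (h' m' hm')⟩
  · intro m
    have h1 : Measurable fun p : B × B => ((p.1 : SS), (p.2 : SS)) :=
      (measurable_subtype_coe.comp measurable_fst).prodMk
        (measurable_subtype_coe.comp measurable_snd)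
    exact h1 (meas_GG m)
  · intro m S
    have hfin : ∀ N, {T : SS | T ∈ BB ∧ T.1 = N ∧ GG m S.1 T ∧ S.1 ≠ T}.Finite := by
      intro N
      have h0 := finite_class (hB S.2).2.2 m (N + 2)
      refine (h0.preimage (f := fun T : {T : SS // T.1 = N} =>
        (cast (by rw [T.2]) T.1.set : Set (ℤ → Fin (N + 2)))) ?_).image
          (fun T => T.1) |>.subset ?_
      · rintro ⟨⟨N1, K1⟩, rfl⟩ - ⟨⟨N2, K2⟩, h2⟩ - h12
        obtain rfl : N2 = N1 := h2
        simp only [cast_eq] at h12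
        have : K1 = K2 := by ext1; exact h12
        subst this; rfl
      · rintro ⟨N1, K1⟩ ⟨hT, hN, hG, hne⟩
        obtain rfl : N1 = N := hN
        refine ⟨⟨⟨N1, K1⟩, rfl⟩, ?_, rfl⟩
        rcases hG with h | ⟨_, _, h⟩
        · exact absurd h hne
        · exact ⟨sel N1 K1, hT.2.2.ur, hT.2.1, h m le_rfl⟩
    have hall : ({S.1} ∪ ⋃ N ∈ Set.Iic m, {T : SS | T ∈ BB ∧ T.1 = N ∧ GG m S.1 T ∧ S.1 ≠ T}).Finite :=
      (Set.finite_singleton _).union ((Set.finite_Iic m).biUnion fun N _ => hfin N)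
    refine (hall.preimage (f := fun T : B => T.1) (fun _ _ _ _ h => Subtype.ext h)).subset ?_
    intro T hT
    by_cases hST : S.1 = T.1
    · exact Or.inl hST.symm
    · right
      have hTm : T.1.1 ≤ m := by
        rcases hT with h | ⟨_, h, _⟩
        · exact absurd h hST
        · exact h
      exact Set.mem_biUnion (show T.1.1 ∈ Set.Iic m from hTm) ⟨hB T.2, rfl, hT, hST⟩
  · rintro m S T (h | ⟨h1, h2, h⟩)
    · exact Or.inl h
    · exact Or.inr ⟨by omega, by omega, fun m' hm' => h m' (by omega)⟩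
  · intro S T
    exact sconj_iff (hB S.2) (hB T.2)

theorem final : (∃ B : Set SS, MeasurableSet B ∧ TT ⊆ B ∧
      IsHyperfinite (fun S T : B => SConj S.1 T.1)) ∧
    IsHyperfinite (fun S T : TT => SConj S.1 T.1) :=
  ⟨⟨BB, meas_BB, TT_subset_BB, hyperfinite_of_subset le_rfl⟩, hyperfinite_of_subset TT_subset_BB⟩

end Hft
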