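import Pool.Agent.Hft.Base
namespace Hft
variable {A B C : Type*}

theorem rho_bdd (x : ℤ → A) {L : ℕ} (τ : Ty A L) (n : ℕ) :
    BddAbove {l : ℕ | ∃ a b : ℤ, Win x n.factorial a b ∧ b + 1 - a = l ∧
      ty x n.factorial L a b = τ} := by
  refine ⟨n.factorial, ?_⟩
  rintro l ⟨a, b, hw, hl, -⟩
  have := win_lt hw
  omega

theorem le_rho {x : ℤ → A} {L : ℕ} {τ : Ty A L} {n : ℕ} {a b : ℤ} (hw : Win x n.factorial a b)
    (ht : ty x n.factorial L a b = τ) : b + 1 - a ≤ rho x τ n := by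
  have h0 : a ≤ b := hw.1
  have h1 : (b + 1 - a).toNat ≤ rho x τ n :=
    le_csSup (rho_bdd x τ n) ⟨a, b, hw, by omega, ht⟩
  omega

theorem exists_top {x : ℤ → A} {L : ℕ} {τ : Ty A L} {n : ℕ} (h : 0 < rho x τ n) :
    ∃ b, Top x τ n b := by
  have hne : {l : ℕ | ∃ a b : ℤ, Win x n.factorial a b ∧ b + 1 - a = l ∧
      ty x n.factorial L a b = τ}.Nonempty := by
    by_contra hc
    rw [Set.not_nonempty_iff_eq_empty] at hc
    have : rho x τ n = 0 := by
      rw [rho, hc]; simp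
    omega
  obtain ⟨a, b, hw, hl, ht⟩ := Nat.sSup_mem hne (rho_bdd x τ n)
  exact ⟨b, a, hw, hl, ht⟩

theorem star_unique {x : ℤ → A} {L : ℕ} {τ : Ty A L} {m n n' : ℕ} (h : Star x τ m n)
    (h' : Star x τ m n') : n = n' := by
  obtain ⟨h1, h2, h3⟩ := h
  obtain ⟨h1', h2', h3'⟩ := h'
  rcases lt_trichotomy n n' with hlt | he | hlt
  · have := h3' n hlt
    have := h2 n' h1'
    omega
  · exact he
  · have := h3 n' hlt
    have := h2' n h1
    omega

theorem exists_star (x : ℤ → A) {L : ℕ} (τ : Ty A L) (m : ℕ) : ∃ n, Star x τ m n := by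
  classical
  have hex : ∃ n, n ≤ m ∧ ∀ n' ≤ m, rho x τ n' ≤ rho x τ n := by
    obtain ⟨n, hn, hmax⟩ := Finset.exists_max_image (Finset.range (m + 1)) (fun n => rho x τ n)
      ⟨0, by simp⟩
    refine ⟨n, by simpa [Nat.lt_succ_iff] using hn, fun n' hn' => hmax n' (by simp; omega)⟩
  refine ⟨Nat.find hex, (Nat.find_spec hex).1, (Nat.find_spec hex).2, fun n' hn' => ?_⟩
  have hnot := Nat.find_min hex hn'
  by_contra hc
  apply hnot
  have hle : n' ≤ m := by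
    have := (Nat.find_spec hex).1
    omega
  refine ⟨hle, fun n'' hn'' => ?_⟩
  have := (Nat.find_spec hex).2 n'' hn''
  omega

theorem rec_rho {x : ℤ → A} {L : ℕ} {τ : Ty A L} (h : τ ∈ Rec x L) (N : ℕ) :
    ∃ n, N ≤ rho x τ n := by
  obtain ⟨n, a, b, hw, hN, ht⟩ := h N
  have := le_rho hw ht
  exact ⟨n, by omega⟩

/-- For large `m` the value at the star index is large. -/
theorem star_large {x : ℤ → A} {L : ℕ} {τ : Ty A L} (h : τ ∈ Rec x L) (N : ℕ) :
    ∃ m0 : ℕ, ∀ m n, m0 ≤ m → Star x τ m n → N ≤ rho x τ n := by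
  obtain ⟨n0, hn0⟩ := rec_rho h N
  exact ⟨n0, fun m n hm hs => hn0.trans (hs.2.1 n0 hm)⟩

end Hft
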