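import Pool.Agent.Hft.Transfer
import Pool.Agent.Hft.Rho
namespace Hft
variable {A B C : Type*}

/-- At every level the pattern structures of `x` and `y` agree up to a translation. -/
def PatEq (x y : ℤ → A) : Prop :=
  ∀ q : ℕ, 0 < q → ∃ j : ℤ, ∀ (L : ℕ) (i : ℤ), Pat y q L i = Pat x q L (i + j)

theorem patEq_of_inOrb {x y : ℤ → A} (hx : UR x) (h : InOrb x y) : PatEq x y :=
  fun _ hq => transfer hx h hq

theorem nh_of_shift {x y : ℤ → A} {q : ℕ} {j : ℤ}
    (h : ∀ (L : ℕ) (i : ℤ), Pat y q L i = Pat x q L (i + j)) (i : ℤ) :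
    NH y q i ↔ NH x q (i + j) := by
  rw [nh_iff_pat, nh_iff_pat, h]

theorem win_of_shift {x y : ℤ → A} {q : ℕ} {j : ℤ}
    (h : ∀ (L : ℕ) (i : ℤ), Pat y q L i = Pat x q L (i + j)) (a b : ℤ) :
    Win y q a b ↔ Win x q (a + j) (b + j) := by
  have key := nh_of_shift h
  have e1 : a + j - 1 = a - 1 + j := by ring
  have e2 : b + j + 1 = b + 1 + j := by ring
  unfold Win
  rw [key (a - 1), key (b + 1), e1, e2]
  constructor
  · rintro ⟨h0, h1, h2, h3⟩
    refine ⟨by omega, fun i hi1 hi2 => ?_, h2, h3⟩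
    have := (key (i - j)).1 (h1 (i - j) (by omega) (by omega))
    simpa using this
  · rintro ⟨h0, h1, h2, h3⟩
    exact ⟨by omega, fun i hi1 hi2 => (key i).2 (h1 (i + j) (by omega) (by omega)), h2, h3⟩

theorem ty_of_shift {x y : ℤ → A} {q : ℕ} {j : ℤ}
    (h : ∀ (L : ℕ) (i : ℤ), Pat y q L i = Pat x q L (i + j)) (L : ℕ) (a b : ℤ) :
    ty y q L a b = ty x q L (a + j) (b + j) := by
  have e1 : a + j - 1 = a - 1 + j := by ring
  have e2 : b + j + 1 = b + 1 + j := by ring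
  unfold ty
  rw [e1, e2, h, h]

theorem rec_eq {x y : ℤ → A} (h : PatEq x y) (L : ℕ) : Rec y L = Rec x L := by
  ext τ
  constructor
  · intro hτ N
    obtain ⟨n, a, b, hw, hN, ht⟩ := hτ N
    obtain ⟨j, hj⟩ := h n.factorial n.factorial_pos
    refine ⟨n, a + j, b + j, (win_of_shift hj a b).1 hw, by omega, ?_⟩
    rw [← ty_of_shift hj]; exact ht
  · intro hτ N
    obtain ⟨n, a, b, hw, hN, ht⟩ := hτ N
    obtain ⟨j, hj⟩ := h n.factorial n.factorial_pos
    refine ⟨n, a - j, b - j, (win_of_shift hj _ _).2 (by simpa using hw), by omega, ?_⟩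
    rw [ty_of_shift hj]; simpa using ht

theorem prec_eq {x y : ℤ → A} (h : PatEq x y) : Prec y = Prec x := by
  unfold Prec
  simp only [rec_eq h]

theorem rho_eq {x y : ℤ → A} (h : PatEq x y) {L : ℕ} (τ : Ty A L) (n : ℕ) :
    rho y τ n = rho x τ n := by
  unfold rho
  congr 1
  ext l
  obtain ⟨j, hj⟩ := h n.factorial n.factorial_pos
  constructor
  · rintro ⟨a, b, hw, hl, ht⟩
    refine ⟨a + j, b + j, (win_of_shift hj a b).1 hw, by omega, ?_⟩
    rw [← ty_of_shift hj]; exact ht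
  · rintro ⟨a, b, hw, hl, ht⟩
    refine ⟨a - j, b - j, (win_of_shift hj _ _).2 (by simpa using hw), by omega, ?_⟩
    rw [ty_of_shift hj]; simpa using ht

theorem star_iff {x y : ℤ → A} (h : PatEq x y) {L : ℕ} (τ : Ty A L) (m n : ℕ) :
    Star y τ m n ↔ Star x τ m n := by
  unfold Star
  simp only [rho_eq h]

theorem top_of_shift {x y : ℤ → A} (h : PatEq x y) {n : ℕ} {j : ℤ}
    (hj : ∀ (L : ℕ) (i : ℤ), Pat y n.factorial L i = Pat x n.factorial L (i + j)) {L : ℕ}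
    (τ : Ty A L) (b : ℤ) : Top y τ n b ↔ Top x τ n (b + j) := by
  unfold Top
  rw [rho_eq h]
  constructor
  · rintro ⟨a, hw, hl, ht⟩
    refine ⟨a + j, (win_of_shift hj a b).1 hw, by omega, ?_⟩
    rw [← ty_of_shift hj]; exact ht
  · rintro ⟨a, hw, hl, ht⟩
    refine ⟨a - j, (win_of_shift hj _ _).2 (by simpa using hw), by omega, ?_⟩
    rw [ty_of_shift hj]; simpa using ht

theorem good_of_inOrb {x y : ℤ → A} (hx : Good x) (h : InOrb x y) : Good y := by
  have hp := patEq_of_inOrb hx.ur h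
  refine ⟨ur_of_inOrb hx.ur h, fun N => ?_, ?_⟩
  · obtain ⟨n, a, b, hw, hN⟩ := hx.win N
    obtain ⟨j, hj⟩ := hp n.factorial n.factorial_pos
    exact ⟨n, a - j, b - j, (win_of_shift hj _ _).2 (by simpa using hw), by omega⟩
  · obtain ⟨c, hc⟩ := hx.bdd
    exact ⟨c, fun L => by rw [rec_eq hp]; exact hc L⟩

end Hft
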