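import Pool.Agent.Hft.Base
namespace Hft
variable {A B C : Type*}

/-- `x` and `y` determine each other by local rules of radius `r`. -/
structure Loc (r : ℕ) (x : ℤ → A) (y : ℤ → B) : Prop where
  fwd : ∀ i j : ℤ, wd x r i = wd x r j → y i = y j
  bwd : ∀ i j : ℤ, wd y r i = wd y r j → x i = x j

theorem Loc.symm {r : ℕ} {x : ℤ → A} {y : ℤ → B} (h : Loc r x y) : Loc r y x := ⟨h.bwd, h.fwd⟩

theorem loc_of_codes {x : ℤ → A} {y : ℤ → B} {c : Code A B} {d : Code B A} (h1 : c.app x = y)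
    (h2 : d.app y = x) : Loc (max c.r d.r) x y := by
  constructor
  · intro i j h
    have := wd_sub (L := c.r) (t := 0) h (by simp) (by simp)
    rw [← h1]
    simp only [Code.app]
    simpa using congrArg c.f this
  · intro i j h
    have := wd_sub (L := d.r) (t := 0) h (by simp) (by simp)
    rw [← h2]
    simp only [Code.app]
    simpa using congrArg d.f this

/-- `[a+km, b+kp]` is the image in `y` of the window `[a,b]` of `x` (level `q`). -/
def Img (r : ℕ) (x : ℤ → A) (y : ℤ → B) (q : ℕ) (a b km kp : ℤ) : Prop :=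
  Win x q a b ∧ 2 * (r : ℤ) ≤ b - a ∧ -(r : ℤ) ≤ km ∧ km ≤ r ∧ -(r : ℤ) ≤ kp ∧ kp ≤ r ∧
    Win y q (a + km) (b + kp)

theorem Img.symm {r : ℕ} {x : ℤ → A} {y : ℤ → B} {q : ℕ} {a b km kp : ℤ}
    (h : Img r x y q a b km kp) (hl : 4 * (r : ℤ) ≤ b - a) :
    Img r y x q (a + km) (b + kp) (-km) (-kp) := by
  obtain ⟨h1, h2, h3, h4, h5, h6, h7⟩ := h
  refine ⟨h7, by omega, by omega, by omega, by omega, by omega, ?_⟩
  simpa using h1

end Hft
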