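import Pool.Agent.Hft.Base
namespace Hft

theorem mea_coord (a : ℕ) (i : ℤ) : Measurable fun x : ℤ → Fin a => x i := measurable_pi_apply i

theorem mea_eq {α β : Type*} [MeasurableSpace α] [MeasurableSpace β] [MeasurableSingletonClass β]
    [Countable β] {f g : α → β} (hf : Measurable f) (hg : Measurable g) :
    MeasurableSet {x | f x = g x} := by
  have e : {x | f x = g x} = ⋃ b : β, f ⁻¹' {b} ∩ g ⁻¹' {b} := by
    ext x
    simp only [Set.mem_ofPred_eq, Set.mem_iUnion, Set.mem_inter_iff, Set.mem_preimage,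
      Set.mem_singleton_iff]
    exact ⟨fun h => ⟨g x, h, rfl⟩, fun ⟨b, h1, h2⟩ => h1.trans h2.symm⟩
  rw [e]
  exact MeasurableSet.iUnion fun b =>
    (hf (measurableSet_singleton b)).inter (hg (measurableSet_singleton b))

theorem mea_coord_eq (a : ℕ) (i j : ℤ) : MeasurableSet {x : ℤ → Fin a | x i = x j} :=
  mea_eq (mea_coord a i) (mea_coord a j)

theorem mea_wd (a L : ℕ) (i : ℤ) : Measurable fun x : ℤ → Fin a => wd x L i :=
  measurable_pi_lambda _ fun _ => mea_coord a _

theorem meas_wd (a L : ℕ) (i : ℤ) (w : Fin (2 * L + 1) → Fin a) :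
    MeasurableSet {x : ℤ → Fin a | wd x L i = w} :=
  mea_wd a L i (measurableSet_singleton w)

theorem mea_forall {α : Type*} [MeasurableSpace α] {ι : Sort*} [Countable ι] {p : ι → α → Prop}
    (h : ∀ i, MeasurableSet {x | p i x}) : MeasurableSet {x | ∀ i, p i x} := by
  have e : {x | ∀ i, p i x} = ⋂ i, {x | p i x} := by ext; simp
  rw [e]
  exact MeasurableSet.iInter h

theorem mea_exists {α : Type*} [MeasurableSpace α] {ι : Sort*} [Countable ι] {p : ι → α → Prop}
    (h : ∀ i, MeasurableSet {x | p i x}) : MeasurableSet {x | ∃ i, p i x} := by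
  have e : {x | ∃ i, p i x} = ⋃ i, {x | p i x} := by ext; simp
  rw [e]
  exact MeasurableSet.iUnion h

theorem mea_and {α : Type*} [MeasurableSpace α] {p q : α → Prop}
    (hp : MeasurableSet {x | p x}) (hq : MeasurableSet {x | q x}) :
    MeasurableSet {x | p x ∧ q x} := hp.inter hq

theorem mea_or {α : Type*} [MeasurableSpace α] {p q : α → Prop}
    (hp : MeasurableSet {x | p x}) (hq : MeasurableSet {x | q x}) :
    MeasurableSet {x | p x ∨ q x} := hp.union hq

theorem mea_not {α : Type*} [MeasurableSpace α] {p : α → Prop}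
    (hp : MeasurableSet {x | p x}) : MeasurableSet {x | ¬ p x} := hp.compl

theorem mea_imp {α : Type*} [MeasurableSpace α] {p q : α → Prop}
    (hp : MeasurableSet {x | p x}) (hq : MeasurableSet {x | q x}) :
    MeasurableSet {x | p x → q x} := by
  have e : {x | p x → q x} = {x | ¬ p x ∨ q x} := by ext; simp [imp_iff_not_or]
  rw [e]
  exact mea_or (mea_not hp) hq

theorem mea_iff {α : Type*} [MeasurableSpace α] {p q : α → Prop}
    (hp : MeasurableSet {x | p x}) (hq : MeasurableSet {x | q x}) :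
    MeasurableSet {x | p x ↔ q x} := by
  have e : {x | p x ↔ q x} = {x | (p x → q x) ∧ (q x → p x)} := by ext; simp [iff_def]
  rw [e]
  exact mea_and (mea_imp hp hq) (mea_imp hq hp)

theorem mea_const {α : Type*} [MeasurableSpace α] (p : Prop) : MeasurableSet {_x : α | p} :=
  MeasurableSet.const p

theorem meas_NH (a q : ℕ) (i : ℤ) : MeasurableSet {x : ℤ → Fin a | NH x q i} :=
  mea_forall fun _ => mea_coord_eq a _ _

theorem meas_Win (a q : ℕ) (s t : ℤ) : MeasurableSet {x : ℤ → Fin a | Win x q s t} :=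
  mea_and (mea_const _) (mea_and
    (mea_forall fun i => mea_imp (mea_const _) (mea_imp (mea_const _) (meas_NH a q i)))
    (mea_and (mea_not (meas_NH a q _)) (mea_not (meas_NH a q _))))

theorem meas_Pat (a q L : ℕ) (i : ℤ) (P : Set (Fin (2 * L + 1) → Fin a)) :
    MeasurableSet {x : ℤ → Fin a | Pat x q L i = P} := by
  have e : {x : ℤ → Fin a | Pat x q L i = P} =
      {x | (∀ k : ℤ, wd x L (i + k * q) ∈ P) ∧
        ∀ w : Fin (2 * L + 1) → Fin a, w ∈ P → ∃ k : ℤ, wd x L (i + k * q) = w} := by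
    ext x
    constructor
    · intro h
      have h : Pat x q L i = P := h
      rw [← h]
      exact ⟨fun k => ⟨k, rfl⟩, fun w ⟨k, hk⟩ => ⟨k, hk⟩⟩
    · rintro ⟨h1, h2⟩
      apply Set.Subset.antisymm
      · rintro w ⟨k, rfl⟩
        exact h1 k
      · intro w hw
        obtain ⟨k, hk⟩ := h2 w hw
        exact ⟨k, hk⟩
  rw [e]
  exact mea_and (mea_forall fun k => mea_wd a L _ (Set.toFinite P).measurableSet)
    (mea_forall fun w => mea_imp (mea_const _) (mea_exists fun k => meas_wd a L _ w))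

theorem meas_ty (a q L : ℕ) (s t : ℤ) (τ : Ty (Fin a) L) :
    MeasurableSet {x : ℤ → Fin a | ty x q L s t = τ} := by
  have e : {x : ℤ → Fin a | ty x q L s t = τ} =
      {x | Pat x q L (s - 1) = τ.1 ∧ Pat x q L (t + 1) = τ.2} := by
    ext x
    exact Prod.ext_iff
  rw [e]
  exact mea_and (meas_Pat a q L _ _) (meas_Pat a q L _ _)

theorem meas_mem_Rec (a L : ℕ) (τ : Ty (Fin a) L) :
    MeasurableSet {x : ℤ → Fin a | τ ∈ Rec x L} :=
  mea_forall fun _ => mea_exists fun _ => mea_exists fun s => mea_exists fun t =>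
    mea_and (meas_Win a _ s t) (mea_and (mea_const _) (meas_ty a _ L s t τ))

theorem meas_ncard_Rec (a L c : ℕ) :
    MeasurableSet {x : ℤ → Fin a | (Rec x L).ncard = c} := by
  have e : {x : ℤ → Fin a | (Rec x L).ncard = c} =
      {x | ∃ R : Set (Ty (Fin a) L), R.ncard = c ∧ ∀ τ, τ ∈ Rec x L ↔ τ ∈ R} := by
    ext x
    constructor
    · intro h
      exact ⟨Rec x L, h, fun _ => Iff.rfl⟩
    · rintro ⟨R, h1, h2⟩
      have : Rec x L = R := Set.ext h2
      show (Rec x L).ncard = c
      rw [this]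
      exact h1
  rw [e]
  exact mea_exists fun R => mea_and (mea_const _)
    (mea_forall fun τ => mea_iff (meas_mem_Rec a L τ) (mea_const _))

theorem mea_ncard_Rec (a L : ℕ) : Measurable fun x : ℤ → Fin a => (Rec x L).ncard :=
  measurable_to_countable' fun c => meas_ncard_Rec a L c

theorem meas_Prec (a L : ℕ) : MeasurableSet {x : ℤ → Fin a | Prec x = L} := by
  have hS : ∀ M : ℕ, MeasurableSet {x : ℤ → Fin a |
      ∀ L' : ℕ, M ≤ L' → (Rec x L').ncard = (Rec x M).ncard} := fun M =>
    mea_forall fun L' => mea_imp (mea_const _)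
      (mea_eq (mea_ncard_Rec a L') (mea_ncard_Rec a M))
  have e : {x : ℤ → Fin a | Prec x = L} =
      {x | ((∀ L' : ℕ, L ≤ L' → (Rec x L').ncard = (Rec x L).ncard) ∧
          ∀ M : ℕ, M < L → ¬ ∀ L' : ℕ, M ≤ L' → (Rec x L').ncard = (Rec x M).ncard) ∨
        (L = 0 ∧ ∀ M : ℕ, ¬ ∀ L' : ℕ, M ≤ L' → (Rec x L').ncard = (Rec x M).ncard)} := by
    ext x
    have hP : Prec x = sInf {L : ℕ | ∀ L' : ℕ, L ≤ L' → (Rec x L').ncard = (Rec x L).ncard} := rfl
    simp only [Set.mem_ofPred_eq]
    rw [hP]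
    constructor
    · intro h
      rcases Set.eq_empty_or_nonempty
        {L : ℕ | ∀ L' : ℕ, L ≤ L' → (Rec x L').ncard = (Rec x L).ncard} with h0 | h0
      · right
        rw [h0, Nat.sInf_empty] at h
        refine ⟨h.symm, fun M hM => ?_⟩
        have : M ∈ {L : ℕ | ∀ L' : ℕ, L ≤ L' → (Rec x L').ncard = (Rec x L).ncard} := hM
        rw [h0] at this
        exact this
      · left
        have h1 := Nat.sInf_mem h0
        rw [h] at h1
        refine ⟨h1, fun M hM hM' => ?_⟩
        have := Nat.sInf_le (s := {L : ℕ | ∀ L' : ℕ, L ≤ L' →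
          (Rec x L').ncard = (Rec x L).ncard}) hM'
        omega
    · rintro (⟨h1, h2⟩ | ⟨h1, h2⟩)
      · apply le_antisymm
        · exact Nat.sInf_le h1
        · by_contra hlt
          push Not at hlt
          exact h2 _ hlt (Nat.sInf_mem (s := {L : ℕ | ∀ L' : ℕ, L ≤ L' →
            (Rec x L').ncard = (Rec x L).ncard}) ⟨L, h1⟩)
      · have : {L : ℕ | ∀ L' : ℕ, L ≤ L' → (Rec x L').ncard = (Rec x L).ncard} = ∅ := by
          ext M
          simp only [Set.mem_ofPred_eq, Set.mem_empty_iff_false, iff_false]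
          exact h2 M
        rw [this, Nat.sInf_empty, h1]
  rw [e]
  exact mea_or (mea_and (hS L) (mea_forall fun M => mea_imp (mea_const _) (mea_not (hS M))))
    (mea_and (mea_const _) (mea_forall fun M => mea_not (hS M)))

end Hft
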