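import Pool.Agent.Hft.MeasA
import Pool.Agent.Hft.Rho
namespace Hft

theorem measB_mem {a L : ℕ} (τ : Ty (Fin a) L) (n l : ℕ) :
    MeasurableSet {x : ℤ → Fin a | l ∈ {l : ℕ | ∃ s t : ℤ, Win x n.factorial s t ∧
      t + 1 - s = l ∧ ty x n.factorial L s t = τ}} := by
  refine measurableSet_setOfPred.2 (Measurable.exists fun s => Measurable.exists fun t => ?_)
  exact (measurableSet_setOfPred.1 (meas_Win a n.factorial s t)).and
    (measurable_const.and (measurableSet_setOfPred.1 (meas_ty a n.factorial L s t τ)))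

theorem measB_rho_iff {a L : ℕ} (τ : Ty (Fin a) L) (n l : ℕ) (x : ℤ → Fin a) :
    rho x τ n = l ↔ (∀ l' : ℕ, l' ∈ {l : ℕ | ∃ s t : ℤ, Win x n.factorial s t ∧
      t + 1 - s = l ∧ ty x n.factorial L s t = τ} → l' ≤ l) ∧ (l = 0 ∨
      l ∈ {l : ℕ | ∃ s t : ℤ, Win x n.factorial s t ∧
      t + 1 - s = l ∧ ty x n.factorial L s t = τ}) := by
  have hb := rho_bdd x τ n
  rw [rho]
  generalize {l : ℕ | ∃ s t : ℤ, Win x n.factorial s t ∧
      t + 1 - s = l ∧ ty x n.factorial L s t = τ} = S at hb ⊢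
  constructor
  · rintro rfl
    refine ⟨fun l' hl' => le_csSup hb hl', ?_⟩
    rcases S.eq_empty_or_nonempty with h0 | h0
    · left; rw [h0]; simp
    · right; exact Nat.sSup_mem h0 hb
  · rintro ⟨h1, h2⟩
    rcases S.eq_empty_or_nonempty with h0 | h0
    · rcases h2 with h2 | h2
      · rw [h0, h2]; simp
      · rw [h0] at h2; exact absurd h2 (Set.notMem_empty _)
    · apply le_antisymm
      · exact csSup_le h0 h1
      · rcases h2 with h2 | h2
        · rw [h2]; exact Nat.zero_le _
        · exact le_csSup hb h2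

theorem meas_rho {a L : ℕ} (τ : Ty (Fin a) L) (n l : ℕ) :
    MeasurableSet {x : ℤ → Fin a | rho x τ n = l} := by
  simp only [measB_rho_iff]
  refine measurableSet_setOfPred.2 ((Measurable.forall fun l' => ?_).and
    (measurable_const.or (measurableSet_setOfPred.1 (measB_mem τ n l))))
  exact (measurableSet_setOfPred.1 (measB_mem τ n l')).imp measurable_const

theorem measurable_rho {a L : ℕ} (τ : Ty (Fin a) L) (n : ℕ) :
    Measurable fun x : ℤ → Fin a => rho x τ n :=
  measurable_to_countable' fun l => meas_rho τ n l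

theorem meas_Star {a L : ℕ} (τ : Ty (Fin a) L) (m n : ℕ) :
    MeasurableSet {x : ℤ → Fin a | Star x τ m n} := by
  refine measurableSet_setOfPred.2 (measurable_const.and ((Measurable.forall fun n' => ?_).and
    (Measurable.forall fun n' => ?_)))
  · exact measurable_const.imp (measurableSet_setOfPred.1
      (measurableSet_le (measurable_rho τ n') (measurable_rho τ n)))
  · exact measurable_const.imp (measurableSet_setOfPred.1
      (measurableSet_lt (measurable_rho τ n') (measurable_rho τ n)))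

theorem meas_Top {a L : ℕ} (τ : Ty (Fin a) L) (n : ℕ) (b : ℤ) :
    MeasurableSet {x : ℤ → Fin a | Top x τ n b} := by
  refine measurableSet_setOfPred.2 (Measurable.exists fun s => ?_)
  refine (measurableSet_setOfPred.1 (meas_Win a n.factorial s b)).and ((measurableSet_setOfPred.1 ?_).and
    (measurableSet_setOfPred.1 (meas_ty a n.factorial L s b τ)))
  have : MeasurableSet ((fun x : ℤ → Fin a => rho x τ n) ⁻¹' {l : ℕ | b + 1 - s = l}) :=
    measurable_rho τ n (MeasurableSet.of_discrete)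
  exact this

theorem meas_Ker (a q : ℕ) (b k l : ℤ) : MeasurableSet {x : ℤ → Fin a | Ker x q b k l} := by
  refine measurableSet_setOfPred.2 (Measurable.forall fun j => measurable_const.imp
    (measurable_const.imp (measurableSet_setOfPred.1 ?_)))
  exact measurableSet_eq_fun (measurable_pi_apply _) (measurable_pi_apply _)

theorem meas_MatchT {a b L L' : ℕ} (m : ℕ) (τ : Ty (Fin a) L) (τ' : Ty (Fin b) L') :
    MeasurableSet {p : (ℤ → Fin a) × (ℤ → Fin b) | MatchT m p.1 p.2 τ τ'} := by
  have hT1 : ∀ n s, Measurable fun p : (ℤ → Fin a) × (ℤ → Fin b) => Top p.1 τ n s := fun n s =>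
    (measurableSet_setOfPred.1 (meas_Top τ n s)).comp measurable_fst
  have hT2 : ∀ n s, Measurable fun p : (ℤ → Fin a) × (ℤ → Fin b) => Top p.2 τ' n s := fun n s =>
    (measurableSet_setOfPred.1 (meas_Top τ' n s)).comp measurable_snd
  have hS1 : ∀ n, Measurable fun p : (ℤ → Fin a) × (ℤ → Fin b) => Star p.1 τ m n := fun n =>
    (measurableSet_setOfPred.1 (meas_Star τ m n)).comp measurable_fst
  have hS2 : ∀ n, Measurable fun p : (ℤ → Fin a) × (ℤ → Fin b) => Star p.2 τ' m n := fun n =>
    (measurableSet_setOfPred.1 (meas_Star τ' m n)).comp measurable_snd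
  have hK1 : ∀ q s k l, Measurable fun p : (ℤ → Fin a) × (ℤ → Fin b) => Ker p.1 q s k l :=
    fun q s k l => (measurableSet_setOfPred.1 (meas_Ker a q s k l)).comp measurable_fst
  have hK2 : ∀ q s k l, Measurable fun p : (ℤ → Fin a) × (ℤ → Fin b) => Ker p.2 q s k l :=
    fun q s k l => (measurableSet_setOfPred.1 (meas_Ker b q s k l)).comp measurable_snd
  refine measurableSet_setOfPred.2 (Measurable.exists fun n => Measurable.exists fun κ => ?_)
  refine (hS1 n).and ((hS2 n).and ((Measurable.exists fun s => hT1 n s).and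
    ((Measurable.forall fun s => (hT1 n s).iff (hT2 n (s + κ))).and
      (Measurable.forall fun s => (hT1 n s).imp (Measurable.forall fun k =>
        Measurable.forall fun l => (hK1 _ _ _ _).iff (hK2 _ _ _ _))))))

theorem measB_resp_iff {a b : ℕ} (m : ℕ) (u : ℤ → Fin a) (v : ℤ → Fin b) :
    Resp m u v ↔ ∃ L L' : ℕ, Prec u = L ∧ Prec v = L' ∧
      (∀ τ : Ty (Fin a) L, τ ∈ Rec u L → ∃ τ' : Ty (Fin b) L', τ' ∈ Rec v L' ∧
        MatchT m u v τ τ') ∧
      ∀ τ' : Ty (Fin b) L', τ' ∈ Rec v L' → ∃ τ : Ty (Fin a) L, τ ∈ Rec u L ∧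
        MatchT m u v τ τ' := by
  constructor
  · rintro ⟨h1, h2⟩
    exact ⟨Prec u, Prec v, rfl, rfl, h1, h2⟩
  · rintro ⟨L, L', rfl, rfl, h1, h2⟩
    exact ⟨h1, h2⟩

theorem meas_Resp (m a b : ℕ) :
    MeasurableSet {p : (ℤ → Fin a) × (ℤ → Fin b) | Resp m p.1 p.2} := by
  simp only [measB_resp_iff]
  refine measurableSet_setOfPred.2 (Measurable.exists fun L => Measurable.exists fun L' => ?_)
  have hR1 : ∀ τ : Ty (Fin a) L, Measurable fun p : (ℤ → Fin a) × (ℤ → Fin b) => τ ∈ Rec p.1 L :=
    fun τ => (measurableSet_setOfPred.1 (meas_mem_Rec a L τ)).comp measurable_fst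
  have hR2 : ∀ τ : Ty (Fin b) L', Measurable fun p : (ℤ → Fin a) × (ℤ → Fin b) =>
      τ ∈ Rec p.2 L' :=
    fun τ => (measurableSet_setOfPred.1 (meas_mem_Rec b L' τ)).comp measurable_snd
  have hM : ∀ (τ : Ty (Fin a) L) (τ' : Ty (Fin b) L'),
      Measurable fun p : (ℤ → Fin a) × (ℤ → Fin b) => MatchT m p.1 p.2 τ τ' := fun τ τ' =>
    measurableSet_setOfPred.1 (meas_MatchT m τ τ')
  refine ((measurableSet_setOfPred.1 (meas_Prec a L)).comp measurable_fst).and
    (((measurableSet_setOfPred.1 (meas_Prec b L')).comp measurable_snd).and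
    ((Measurable.forall fun τ => (hR1 τ).imp (Measurable.exists fun τ' =>
      (hR2 τ').and (hM τ τ'))).and
      (Measurable.forall fun τ' => (hR2 τ').imp (Measurable.exists fun τ =>
      (hR1 τ).and (hM τ τ')))))

end Hft
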