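import Pool.Agent.Hft.Parse
namespace Hft
variable {A : Type*}

/-- Letters of a list of letters of `x`. -/
theorem red_lw_getElem? (x : ℤ → A) (i j : ℤ) (n : ℕ) (hn : (n : ℤ) < j - i) :
    (lw x i j)[n]? = some (x (i + n)) := by
  have hlen : n < (lw x i j).length := by rw [lw_length]; omega
  have hi : i ≤ j := by omega
  -- split the word
  have h1 := lw_append x (i := i) (j := i + n) (k := j) (by omega) (by omega)
  have h2 := lw_append x (i := i + n) (j := i + n + 1) (k := j) (by omega) (by omega)
  rw [← h1, List.getElem?_append_right (by rw [lw_length]; omega), lw_length]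
  have e1 : n - (i + (n : ℤ) - i).toNat = 0 := by omega
  rw [e1, ← h2, List.getElem?_append_left (by rw [lw_length]; omega)]
  -- a word of length one
  have h3 : lw x (i + n) (i + n + 1) = [x (i + n)] := by
    have h4 : (lw x (i + n) (i + n + 1)).length = 1 := by rw [lw_length]; omega
    obtain ⟨a, ha⟩ := List.length_eq_one_iff.1 h4
    have h5 := (lw_eq_iff (x := x) (y := fun _ => a) (i := i + n) (j := i + n + 1)
      (i' := 0) (j' := 1) (by omega) (by omega)).1
    have h6 : lw (fun _ : ℤ => a) 0 1 = [a] := by
      simp [lw]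
    have := h5 (by rw [ha, h6]) 0 le_rfl (by omega)
    simp only [add_zero] at this
    rw [ha, this]
  rw [h3]; rfl

/-- The new cutting points. -/
def redNew (x : ℤ → A) (D : Set ℤ) (w' : List A) (l : ℕ) : Set ℤ :=
  {t | ∃ p ∈ D, ∃ q ∈ D, p < q ∧ (∀ s ∈ D, s ≤ p ∨ q ≤ s) ∧ lw x p q = w' ∧ t = p + l}

theorem red_loc {x : ℤ → A} {K N : ℕ} {D : Set ℤ} (h : Bd x K N D) (w' : List A) (l : ℕ) :
    ∃ ρ : ℕ, ∀ i j : ℤ, wd x ρ i = wd x ρ j → (i ∈ D ∪ redNew x D w' l ↔
      j ∈ D ∪ redNew x D w' l) := by
  obtain ⟨ρ, hρ⟩ := h.loc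
  refine ⟨ρ + l + w'.length, ?_⟩
  have key : ∀ i j : ℤ, wd x (ρ + l + w'.length) i = wd x (ρ + l + w'.length) j →
      i ∈ D ∪ redNew x D w' l → j ∈ D ∪ redNew x D w' l := by
    intro i j hij hi
    have hD : ∀ t : ℤ, -((l : ℤ) + w'.length) ≤ t → t ≤ (l : ℤ) + w'.length →
        (i + t ∈ D ↔ j + t ∈ D) := by
      intro t h1 h2
      exact hρ _ _ (wd_sub hij (by push_cast; omega) (by push_cast; omega))
    rcases hi with hi | ⟨p, hp, q, hq, hpq, hadj, hw, ht⟩
    · left
      have := (hD 0 (by omega) (by omega)).1 (by simpa using hi)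
      simpa using this
    · right
      have hlen : (w'.length : ℤ) = q - p := by
        rw [← hw, lw_length, Int.toNat_of_nonneg (by omega)]
      refine ⟨j - l, ?_, j - l + w'.length, ?_, by omega, ?_, ?_, by ring⟩
      · have := (hD (-l) (by omega) (by omega)).1 (by
          rw [show i + -(l : ℤ) = p by omega]; exact hp)
        rwa [← sub_eq_add_neg] at this
      · have := (hD (-l + w'.length) (by omega) (by omega)).1 (by
          rw [show i + (-(l : ℤ) + w'.length) = q by omega]; exact hq)
        rwa [show j - (l : ℤ) + w'.length = j + (-(l : ℤ) + w'.length) by ring]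
      · intro s hs
        by_contra hc
        push Not at hc
        have h3 := (hD (s - j) (by omega) (by omega)).2 (by
          rw [show j + (s - j) = s by ring]; exact hs)
        rcases hadj _ h3 with h4 | h4 <;> omega
      · refine Eq.trans ?_ hw
        rw [lw_eq_iff (by omega) (by omega)]
        intro t h1 h2
        have := (wd_eq_iff.1 hij) (-l + t) (by push_cast; omega) (by push_cast; omega)
        rw [show j - (l : ℤ) + t = j + (-l + t) by ring, ← this]
        congr 1; omega
  exact fun i j hij => ⟨key i j hij, key j i hij.symm⟩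

/-- One reduction step: if `w ≠ w'` are return words and `w π` is a prefix of `w' π` (`π` the common
context word of length `N`), new cutting points are introduced inside the occurrences of `w'`. The
sum of the lengths of the return words drops. -/
theorem bd_step {x : ℤ → A} {K N : ℕ} {D : Set ℤ} (h : Bd x K N D) {i : ℤ} (hi : i ∈ D)
    {w w' : List A} (hw : w ∈ RetW x D) (hw' : w' ∈ RetW x D) (hne : w ≠ w')
    (hp : (w ++ lw x i (i + N)) <+: (w' ++ lw x i (i + N))) :
    ∃ D' : Set ℤ, Bd x K N D' ∧
      ∑ᶠ u ∈ RetW x D', u.length < ∑ᶠ u ∈ RetW x D, u.length := by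
  classical
  have hwl : w.length < w'.length := by
    have h1 := hp.length_le
    rw [List.length_append, List.length_append] at h1
    rcases Nat.lt_or_ge w.length w'.length with h2 | h2
    · exact h2
    · exfalso
      have h3 : w.length = w'.length := by omega
      have h4 := List.IsPrefix.eq_of_length hp (by rw [List.length_append, List.length_append, h3])
      exact hne (List.append_inj_left h4 h3)
  have hpre : w <+: w' :=
    List.prefix_of_prefix_length_le ((List.prefix_append _ _).trans hp)
      (List.prefix_append _ _) hwl.le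
  obtain ⟨s, hs⟩ := hpre
  have hwpos : 0 < w.length := by
    obtain ⟨p, _, q, _, hpq, _, hlw⟩ := hw
    rw [hlw, lw_length]; omega
  -- structure of new points
  have hnew : ∀ p ∈ D, ∀ q ∈ D, p < q → (∀ s ∈ D, s ≤ p ∨ q ≤ s) → lw x p q = w' →
      q = p + w'.length ∧ lw x p (p + w.length) = w ∧ lw x (p + w.length) q = s := by
    intro p hp q hq hpq hadj hlw
    have hlen : (w'.length : ℤ) = q - p := by
      rw [← hlw, lw_length, Int.toNat_of_nonneg (by omega)]
    have h1 := lw_append x (i := p) (j := p + w.length) (k := q) (by omega) (by omega)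
    rw [hlw, ← hs] at h1
    have h2 := List.append_inj h1 (by rw [lw_length]; omega)
    exact ⟨by omega, h2.1, h2.2⟩
  set D' : Set ℤ := D ∪ redNew x D w' w.length with hD'
  -- the context of a new point
  have hctx : ∀ a ∈ D', ∀ j ∈ D, ∀ t : ℤ, -(N : ℤ) ≤ t → t < N → x (a + t) = x (j + t) := by
    rintro a (ha | ⟨p, hpD, q, hqD, hpq, hadj, hlw, rfl⟩) j hj t h1 h2
    · exact h.ctx a ha j hj t h1 h2
    · obtain ⟨e1, e2, e3⟩ := hnew p hpD q hqD hpq hadj hlw
      rcases lt_or_ge t 0 with ht | ht
      · -- left side
        obtain ⟨p1, hp1, q1, hq1, hpq1, hadj1, hlw1⟩ := hw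
        have hl1 : (w.length : ℤ) = q1 - p1 := by
          rw [hlw1, lw_length, Int.toNat_of_nonneg (by omega)]
        have h3 : x (p + w.length + t) = x (q1 + t) := by
          rcases lt_or_ge (w.length + t) 0 with h4 | h4
          · have h5 := h.ctx p hpD p1 hp1 (w.length + t) (by omega) (by omega)
            rw [add_assoc, h5]; congr 1; omega
          · have h5 := (lw_eq_iff (x := x) (y := x) (i := p) (j := p + w.length) (i' := p1)
              (j' := q1) (by omega) (by omega)).1 (by rw [e2, hlw1]) (w.length + t) h4 (by omega)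
            rw [add_assoc, h5]; congr 1; omega
        rw [h3]
        exact h.ctx q1 hq1 j hj t h1 h2
      · -- right side
        obtain ⟨t', rfl⟩ := Int.eq_ofNat_of_zero_le ht
        have hπ : lw x i (i + N) = lw x q (q + N) := ctx_lw h hi hqD
        have h3 : w' ++ lw x i (i + N) = lw x p (q + N) := by
          rw [hπ, ← hlw, lw_append x hpq.le (by omega)]
        have h4 : (w ++ lw x i (i + N))[w.length + t']? = some (x (i + t')) := by
          rw [List.getElem?_append_right (by omega), Nat.add_sub_cancel_left]
          exact red_lw_getElem? x i (i + N) t' (by omega)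
        have h5 : (w' ++ lw x i (i + N))[w.length + t']? = some (x (i + t')) := by
          obtain ⟨r, hr⟩ := hp
          rw [← hr, List.getElem?_append_left, h4]
          rw [List.length_append, lw_length]; omega
        rw [h3, red_lw_getElem? x p (q + N) (w.length + t') (by push_cast; omega)] at h5
        have h6 := Option.some.inj h5
        have h7 := h.ctx i hi j hj t' (by omega) h2
        rw [← h7, ← h6]
        congr 1; push_cast; ring
  -- the return words
  have hret : RetW x D' ⊆ (RetW x D \ {w'}) ∪ {s} := by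
    rintro u ⟨a, ha, b, hb, hab, hadj', rfl⟩
    obtain ⟨p, hpD, hpa, hpmax⟩ := exists_prev h a
    obtain ⟨q, hqD, hpq, hqmin⟩ := exists_next h p
    have haq : a < q := by
      rcases hpmax q hqD with h1 | h1 <;> omega
    have hbq : b ≤ q := by
      rcases hadj' q (Or.inl hqD) with h1 | h1 <;> omega
    -- elements of `D'` in the interval
    have hin : ∀ t ∈ D', p < t → t < q → lw x p q = w' ∧ t = p + w.length := by
      rintro t (ht | ⟨p', hp', q', hq', hpq', hadj2, hlw2, rfl⟩) h1 h2
      · rcases hqmin t ht with h3 | h3 <;> omega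
      · obtain ⟨e1, -, -⟩ := hnew p' hp' q' hq' hpq' hadj2 hlw2
        have h3 : p' = p := by
          rcases hqmin p' hp' with h4 | h4
          · rcases hadj2 p hpD with h5 | h5
            · omega
            · omega
          · omega
        subst h3
        have h4 : q' = q := by
          rcases hqmin q' hq' with h5 | h5
          · omega
          · rcases hadj2 q hqD with h6 | h6 <;> omega
        subst h4
        exact ⟨hlw2, rfl⟩
    by_cases hpq' : lw x p q = w'
    · obtain ⟨e1, e2, e3⟩ := hnew p hpD q hqD hpq hqmin hpq'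
      have hmem : p + (w.length : ℤ) ∈ D' := Or.inr ⟨p, hpD, q, hqD, hpq, hqmin, hpq', rfl⟩
      rcases hpa.lt_or_eq with h1 | h1
      · -- `a` is the new point
        have ha' := (hin a ha h1 haq).2
        have hb' : b = q := by
          by_contra hne'
          have := (hin b hb (by omega) (by omega)).2
          omega
        right
        rw [ha', hb', e3]; rfl
      · left
        subst h1
        have hb' : b = p + w.length := by
          rcases hadj' _ hmem with h2 | h2
          · omega
          · rcases hbq.lt_or_eq with h3 | h3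
            · exact (hin b hb hab h3).2
            · omega
        rw [hb', e2]
        exact ⟨hw, hne⟩
    · have ha' : a = p := by
        by_contra hne'
        exact hpq' (hin a ha (by omega) haq).1
      have hb' : b = q := by
        by_contra hne'
        exact hpq' (hin b hb (by omega) (by omega)).1
      left
      rw [ha', hb']
      exact ⟨⟨p, hpD, q, hqD, hpq, hqmin, rfl⟩, hpq'⟩
  have hfin : (RetW x D').Finite := (h.fin.sdiff.union (Set.finite_singleton s)).subset hret
  refine ⟨D', ⟨red_loc h w' w.length, ?_, ?_, hfin, ?_⟩, ?_⟩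
  · obtain ⟨G, hG⟩ := h.gap
    exact ⟨G, fun i => by
      obtain ⟨j, hj, h1, h2⟩ := hG i
      exact ⟨j, Or.inl hj, h1, h2⟩⟩
  · intro a ha b hb t h1 h2
    rw [hctx a ha i hi t h1 h2, hctx b hb i hi t h1 h2]
  · refine le_trans ?_ h.card
    calc (RetW x D').ncard ≤ ((RetW x D \ {w'}) ∪ {s}).ncard :=
          Set.ncard_le_ncard hret (h.fin.sdiff.union (Set.finite_singleton s))
      _ ≤ (RetW x D \ {w'}).ncard + ({s} : Set (List A)).ncard := Set.ncard_union_le _ _
      _ = (RetW x D).ncard := by
          rw [Set.ncard_singleton, Set.ncard_sdiff_singleton_add_one hw' h.fin]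
  · rw [finsum_mem_eq_finite_toFinset_sum _ hfin, finsum_mem_eq_finite_toFinset_sum _ h.fin]
    have hw'F : w' ∈ h.fin.toFinset := h.fin.mem_toFinset.2 hw'
    have hsub : hfin.toFinset ⊆ insert s (h.fin.toFinset.erase w') := by
      intro u hu
      rw [Finset.mem_insert, Finset.mem_erase, Set.Finite.mem_toFinset]
      rcases hret (hfin.mem_toFinset.1 hu) with ⟨h1, h2⟩ | h1
      · exact Or.inr ⟨h2, h1⟩
      · exact Or.inl h1
    have h1 : ∑ u ∈ hfin.toFinset, u.length ≤
        ∑ u ∈ insert s (h.fin.toFinset.erase w'), u.length :=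
      Finset.sum_le_sum_of_subset hsub
    have h2 : ∑ u ∈ insert s (h.fin.toFinset.erase w'), u.length ≤
        s.length + ∑ u ∈ h.fin.toFinset.erase w', u.length := by
      by_cases hs' : s ∈ h.fin.toFinset.erase w'
      · rw [Finset.insert_eq_of_mem hs']; omega
      · rw [Finset.sum_insert hs']
    have h3 := Finset.add_sum_erase h.fin.toFinset (fun u : List A => u.length) hw'F
    have h4 : w'.length = w.length + s.length := by rw [← hs, List.length_append]
    omega

/-- K2. Return words can be made prefix-incomparable. -/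
theorem bd_reduce {x : ℤ → A} {K N : ℕ} {D : Set ℤ} (h : Bd x K N D) :
    ∃ D' : Set ℤ, Bd x K N D' ∧ ∀ i ∈ D', ∀ w ∈ RetW x D', ∀ w' ∈ RetW x D', w ≠ w' →
      ¬ (w ++ lw x i (i + N)) <+: (w' ++ lw x i (i + N)) := by
  induction hn : ∑ᶠ u ∈ RetW x D, u.length using Nat.strong_induction_on generalizing D with
  | _ n ih =>
    subst hn
    by_cases hc : ∀ i ∈ D, ∀ w ∈ RetW x D, ∀ w' ∈ RetW x D, w ≠ w' →
        ¬ (w ++ lw x i (i + N)) <+: (w' ++ lw x i (i + N))
    · exact ⟨D, h, hc⟩
    · push Not at hc
      obtain ⟨i, hi, w, hw, w', hw', hne, hp⟩ := hc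
      obtain ⟨D1, h1, hlt⟩ := bd_step h hi hw hw' hne hp
      exact ih _ hlt h1 rfl

end Hft
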