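import Pool.Agent.Hft.Sel
open TopologicalSpace
namespace Hft

/-- The chosen Borel selector. -/
noncomputable def sel (m : ℕ) : Compacts (ℤ → Fin (m + 2)) → (ℤ → Fin (m + 2)) :=
  (exists_sel m).choose

theorem measurable_sel (m : ℕ) : Measurable (sel m) := (exists_sel m).choose_spec.1

theorem sel_mem {m : ℕ} {K : Compacts (ℤ → Fin (m + 2))}
    (h : (K : Set (ℤ → Fin (m + 2))).Nonempty) : sel m K ∈ K := (exists_sel m).choose_spec.2 K h

/-- The Borel set of good subshifts. -/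
def BB : Set SS := {S | S.set.Nonempty ∧ S.set = {y | InOrb (sel S.1 S.2) y} ∧ Good (sel S.1 S.2)}

/-- The finite relations. -/
def GG (m : ℕ) (S T : SS) : Prop :=
  S = T ∨ (S.1 ≤ m ∧ T.1 ≤ m ∧ ∀ m', m ≤ m' → RR m' (sel S.1 S.2) (sel T.1 T.2))

end Hft
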