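import Pool.Agent.Hft.Inv
namespace Hft
variable {A B C : Type*}

/-- The patterns of a letter-to-letter image are the images of the patterns. -/
theorem pat_map (g : C → A) (x : ℤ → C) (q L : ℕ) (i : ℤ) :
    Pat (fun i => g (x i)) q L i = (fun w : Fin (2 * L + 1) → C => fun s => g (w s)) '' Pat x q L i := by
  ext w
  constructor
  · rintro ⟨k, rfl⟩
    exact ⟨wd x L (i + k * q), ⟨k, rfl⟩, rfl⟩
  · rintro ⟨_, ⟨k, rfl⟩, rfl⟩
    exact ⟨k, rfl⟩

/-- One half of the transfer of `Ker` equivalences. -/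
theorem ker_iff_of_pair {u u' : ℤ → A} {v v' : ℤ → B} {q : ℕ} {j : ℤ}
    (hj : ∀ (L : ℕ) (i : ℤ), Pat (fun i => (u' i, v' i)) q L i = Pat (fun i => (u i, v i)) q L (i + j))
    {b κ : ℤ} (h : ∀ k l, Ker u q (b + j) k l ↔ Ker v q (b + j + κ) k l) (k l : ℤ) :
    Ker u' q b k l ↔ Ker v' q (b + κ) k l := by
  -- radius
  obtain ⟨M, hM⟩ : ∃ M : ℕ, (M : ℤ) = q + |κ| + 1 :=
    ⟨(q + |κ| + 1).toNat, Int.toNat_of_nonneg (by positivity)⟩
  have h0 : 0 ≤ |κ| := abs_nonneg κ
  have hκ1 : κ ≤ |κ| := le_abs_self κ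
  have hκ2 : -κ ≤ |κ| := neg_le_abs κ
  have key : ∀ k : ℤ, ∃ k' : ℤ, ∀ t : ℤ, -(M : ℤ) ≤ t → t ≤ M →
      u' (b + k * q + t) = u (b + j + k' * q + t) ∧ v' (b + k * q + t) = v (b + j + k' * q + t) := by
    intro k
    have h1 : wd (fun i => (u' i, v' i)) M (b + k * q) ∈ Pat (fun i => (u' i, v' i)) q M b := ⟨k, rfl⟩
    rw [hj] at h1
    obtain ⟨k', hk'⟩ := h1
    refine ⟨k', fun t ht1 ht2 => ?_⟩
    have := wd_eq_iff.1 hk' t ht1 ht2
    simp only [Prod.mk.injEq] at this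
    exact ⟨this.1.symm, this.2.symm⟩
  obtain ⟨k', hk'⟩ := key k
  obtain ⟨l', hl'⟩ := key l
  have e1 : Ker u' q b k l ↔ Ker u q (b + j) k' l' := by
    unfold Ker
    refine forall_congr' fun t => forall_congr' fun h1 => forall_congr' fun h2 => ?_
    rw [(hk' t (by omega) (by omega)).1, (hl' t (by omega) (by omega)).1]
  have e2 : Ker v' q (b + κ) k l ↔ Ker v q (b + j + κ) k' l' := by
    unfold Ker
    refine forall_congr' fun t => forall_congr' fun h1 => forall_congr' fun h2 => ?_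
    have f1 := (hk' (κ + t) (by omega) (by omega)).2
    have f2 := (hl' (κ + t) (by omega) (by omega)).2
    have g1 : b + k * q + (κ + t) = b + κ + k * q + t := by ring
    have g2 : b + j + k' * q + (κ + t) = b + j + κ + k' * q + t := by ring
    have g3 : b + l * q + (κ + t) = b + κ + l * q + t := by ring
    have g4 : b + j + l' * q + (κ + t) = b + j + κ + l' * q + t := by ring
    rw [g1, g2] at f1
    rw [g3, g4] at f2
    rw [f1, f2]
  rw [e1, e2]
  exact h k' l'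

theorem matchT_transfer {u u' : ℤ → A} {v v' : ℤ → B} (hw : UR fun i => (u i, v i))
    (h : InOrb (fun i => (u i, v i)) (fun i => (u' i, v' i))) {m : ℕ} {L L' : ℕ} {τ : Ty A L}
    {τ' : Ty B L'} (hr : MatchT m u v τ τ') : MatchT m u' v' τ τ' := by
  have hp := patEq_of_inOrb hw h
  have key : ∀ q : ℕ, 0 < q → ∃ j : ℤ,
      (∀ (L : ℕ) (i : ℤ), Pat (fun i => (u' i, v' i)) q L i = Pat (fun i => (u i, v i)) q L (i + j)) ∧
      (∀ (L : ℕ) (i : ℤ), Pat u' q L i = Pat u q L (i + j)) ∧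
      (∀ (L : ℕ) (i : ℤ), Pat v' q L i = Pat v q L (i + j)) := by
    intro q hq
    obtain ⟨j, hj⟩ := hp q hq
    refine ⟨j, hj, fun L i => ?_, fun L i => ?_⟩
    · have e1 := pat_map Prod.fst (fun i => (u' i, v' i)) q L i
      have e2 := pat_map Prod.fst (fun i => (u i, v i)) q L (i + j)
      rw [hj] at e1
      exact e1.trans e2.symm
    · have e1 := pat_map Prod.snd (fun i => (u' i, v' i)) q L i
      have e2 := pat_map Prod.snd (fun i => (u i, v i)) q L (i + j)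
      rw [hj] at e1
      exact e1.trans e2.symm
  have hu : PatEq u u' := fun q hq => by
    obtain ⟨j, _, h1, _⟩ := key q hq; exact ⟨j, h1⟩
  have hv : PatEq v v' := fun q hq => by
    obtain ⟨j, _, _, h1⟩ := key q hq; exact ⟨j, h1⟩
  obtain ⟨n, κ, hs, hs', ⟨b, hb⟩, ht, hk⟩ := hr
  obtain ⟨j, hj, hju, hjv⟩ := key n.factorial n.factorial_pos
  refine ⟨n, κ, (star_iff hu τ m n).2 hs, (star_iff hv τ' m n).2 hs', ⟨b - j, ?_⟩, fun b => ?_,
    fun b hb => ?_⟩
  · rw [top_of_shift hu hju]; simpa using hb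
  · rw [top_of_shift hu hju, top_of_shift hv hjv, ht (b + j)]
    have e : b + j + κ = b + κ + j := by ring
    rw [e]
  · rw [top_of_shift hu hju] at hb
    exact ker_iff_of_pair hj (hk (b + j) hb)

theorem resp_transfer {u u' : ℤ → A} {v v' : ℤ → B} (hw : UR fun i => (u i, v i))
    (h : InOrb (fun i => (u i, v i)) (fun i => (u' i, v' i))) {m : ℕ} (hr : Resp m u v) :
    Resp m u' v' := by
  have hp := patEq_of_inOrb hw h
  have hu : PatEq u u' := fun q hq => by
    obtain ⟨j, hj⟩ := hp q hq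
    refine ⟨j, fun L i => ?_⟩
    have e1 := pat_map Prod.fst (fun i => (u' i, v' i)) q L i
    have e2 := pat_map Prod.fst (fun i => (u i, v i)) q L (i + j)
    rw [hj] at e1
    exact e1.trans e2.symm
  have hv : PatEq v v' := fun q hq => by
    obtain ⟨j, hj⟩ := hp q hq
    refine ⟨j, fun L i => ?_⟩
    have e1 := pat_map Prod.snd (fun i => (u' i, v' i)) q L i
    have e2 := pat_map Prod.snd (fun i => (u i, v i)) q L (i + j)
    rw [hj] at e1
    exact e1.trans e2.symm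
  unfold Resp
  rw [prec_eq hu, prec_eq hv, rec_eq hu, rec_eq hv]
  obtain ⟨h1, h2⟩ := hr
  constructor
  · intro τ hτ
    obtain ⟨τ', hτ', hm⟩ := h1 τ hτ
    exact ⟨τ', hτ', matchT_transfer hw h hm⟩
  · intro τ' hτ'
    obtain ⟨τ, hτ, hm⟩ := h2 τ' hτ'
    exact ⟨τ, hτ, matchT_transfer hw h hm⟩

end Hft
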