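import Pool.Agent.Hft.Base
open TopologicalSpace
namespace Hft

instance instBorelSpaceCompactsSel (n : ℕ) : BorelSpace (Compacts (ℤ → Fin n)) := ⟨rfl⟩

theorem isOpen_wd_eq {n : ℕ} (L : ℕ) (w : Fin (2 * L + 1) → Fin n) :
    IsOpen {y : ℤ → Fin n | wd y L 0 = w} := by
  have hc : Continuous fun y : ℤ → Fin n => wd y L 0 :=
    continuous_pi fun j => continuous_apply _
  exact (isOpen_discrete {w}).preimage hc

/-- The sets of compacta meeting a cylinder are Borel. -/
theorem meas_meets (m L : ℕ) (w : Fin (2 * L + 1) → Fin (m + 2)) :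
    MeasurableSet {K : Compacts (ℤ → Fin (m + 2)) | ∃ y ∈ K, wd y L 0 = w} := by
  have h := Compacts.isOpen_inter_nonempty_of_isOpen (isOpen_wd_eq L w)
  exact h.measurableSet

theorem sel_meets {m : ℕ} (e : ℕ → ℤ) (k : ℕ) (u : ℕ → Fin (m + 2)) (a : Fin (m + 2)) :
    MeasurableSet {K : Compacts (ℤ → Fin (m + 2)) |
      ∃ y ∈ K, (∀ i < k, y (e i) = u i) ∧ y (e k) = a} := by
  have ho : IsOpen {y : ℤ → Fin (m + 2) | (∀ i < k, y (e i) = u i) ∧ y (e k) = a} := by
    have h1 : {y : ℤ → Fin (m + 2) | (∀ i < k, y (e i) = u i) ∧ y (e k) = a} =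
        (⋂ i ∈ Finset.range k, {y : ℤ → Fin (m + 2) | y (e i) = u i}) ∩
          {y : ℤ → Fin (m + 2) | y (e k) = a} := by
      ext y; simp
    rw [h1]
    refine IsOpen.inter (isOpen_biInter_finset fun i _ => ?_) ?_
    · have hc : Continuous fun y : ℤ → Fin (m + 2) => y (e i) := continuous_apply _
      exact (isOpen_discrete {u i}).preimage hc
    · have hc : Continuous fun y : ℤ → Fin (m + 2) => y (e k) := continuous_apply _
      exact (isOpen_discrete {a}).preimage hc
  exact (Compacts.isOpen_inter_nonempty_of_isOpen ho).measurableSet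

/-- The least letter satisfying `p`. -/
noncomputable def lst {m : ℕ} (p : Fin (m + 2) → Prop) : Fin (m + 2) := by
  classical
  exact if h : (Finset.univ.filter p).Nonempty then (Finset.univ.filter p).min' h else 0

theorem lst_spec {m : ℕ} {p : Fin (m + 2) → Prop} (h : ∃ a, p a) : p (lst p) := by
  classical
  have h1 : (Finset.univ.filter p).Nonempty := by
    obtain ⟨a, ha⟩ := h
    exact ⟨a, by simpa using ha⟩
  have h2 : lst p = (Finset.univ.filter p).min' h1 := by
    unfold lst
    rw [dif_pos]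
  have h3 := (Finset.univ.filter p).min'_mem h1
  rw [h2]
  simpa using h3

theorem measurable_lst {m : ℕ} : Measurable (lst : (Fin (m + 2) → Prop) → Fin (m + 2)) :=
  measurable_of_finite _

/-- The greedy prefixes. -/
noncomputable def pre {m : ℕ} (e : ℕ → ℤ) (K : Compacts (ℤ → Fin (m + 2))) :
    ℕ → ℕ → Fin (m + 2)
  | 0 => fun _ => 0
  | k + 1 => Function.update (pre e K k) k
      (lst fun a => ∃ y ∈ K, (∀ i < k, y (e i) = pre e K k i) ∧ y (e k) = a)

theorem pre_succ_of_lt {m : ℕ} (e : ℕ → ℤ) (K : Compacts (ℤ → Fin (m + 2))) {k i : ℕ}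
    (h : i < k) : pre e K (k + 1) i = pre e K k i := by
  show Function.update (pre e K k) k _ i = _
  rw [Function.update_of_ne (by omega)]

theorem pre_of_lt {m : ℕ} (e : ℕ → ℤ) (K : Compacts (ℤ → Fin (m + 2))) {k i : ℕ}
    (h : i < k) : pre e K k i = pre e K (i + 1) i := by
  induction k with
  | zero => omega
  | succ k ih =>
    rcases Nat.lt_succ_iff_lt_or_eq.1 h with h1 | h1
    · rw [pre_succ_of_lt e K h1, ih h1]
    · rw [h1]

theorem pre_exists {m : ℕ} (e : ℕ → ℤ) (K : Compacts (ℤ → Fin (m + 2)))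
    (hK : (K : Set (ℤ → Fin (m + 2))).Nonempty) (k : ℕ) :
    ∃ y ∈ K, ∀ i < k, y (e i) = pre e K k i := by
  induction k with
  | zero =>
    obtain ⟨y, hy⟩ := hK
    exact ⟨y, hy, fun i hi => by omega⟩
  | succ k ih =>
    obtain ⟨y, hy, hyi⟩ := ih
    have h1 : ∃ a, ∃ y ∈ K, (∀ i < k, y (e i) = pre e K k i) ∧ y (e k) = a :=
      ⟨y (e k), y, hy, hyi, rfl⟩
    obtain ⟨z, hz, hzi, hzk⟩ := lst_spec h1
    refine ⟨z, hz, fun i hi => ?_⟩
    rcases Nat.lt_succ_iff_lt_or_eq.1 hi with h2 | h2
    · rw [pre_succ_of_lt e K h2]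
      exact hzi i h2
    · subst h2
      rw [hzk]
      show _ = Function.update (pre e K i) i _ i
      rw [Function.update_self]

theorem measurable_pre {m : ℕ} (e : ℕ → ℤ) (k i : ℕ) :
    Measurable fun K : Compacts (ℤ → Fin (m + 2)) => pre e K k i := by
  induction k generalizing i with
  | zero => exact measurable_const
  | succ k ih =>
    by_cases hi : i = k
    · subst hi
      have h1 : (fun K : Compacts (ℤ → Fin (m + 2)) => pre e K (i + 1) i) = fun K =>
          lst fun a => ∃ y ∈ K, (∀ j < i, y (e j) = pre e K i j) ∧ y (e i) = a := by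
        funext K
        show Function.update (pre e K i) i _ i = _
        rw [Function.update_self]
      rw [h1]
      refine measurable_lst.comp (measurable_pi_iff.2 fun a => ?_)
      refine measurableSet_setOfPred.1 ?_
      have h2 : {K : Compacts (ℤ → Fin (m + 2)) |
          ∃ y ∈ K, (∀ j < i, y (e j) = pre e K i j) ∧ y (e i) = a} =
          ⋃ u : Fin i → Fin (m + 2),
            ({K | ∀ j : Fin i, pre e K i j = u j} ∩ {K | ∃ y ∈ K,
              (∀ j < i, y (e j) = (fun t : ℕ => if h : t < i then u ⟨t, h⟩ else 0) j) ∧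
                y (e i) = a}) := by
        ext K
        simp only [Set.mem_ofPred_eq, Set.mem_iUnion, Set.mem_inter_iff]
        constructor
        · rintro ⟨y, hy, h3, h4⟩
          refine ⟨fun j => pre e K i j, fun j => rfl, y, hy, fun j hj => ?_, h4⟩
          rw [dif_pos hj]
          exact h3 j hj
        · rintro ⟨u, hu, y, hy, h3, h4⟩
          refine ⟨y, hy, fun j hj => ?_, h4⟩
          rw [h3 j hj, dif_pos hj]
          exact (hu ⟨j, hj⟩).symm
      rw [h2]
      refine MeasurableSet.iUnion fun u => MeasurableSet.inter ?_ (sel_meets e i _ a)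
      have h5 : {K : Compacts (ℤ → Fin (m + 2)) | ∀ j : Fin i, pre e K i j = u j} =
          ⋂ j : Fin i, {K | pre e K i j = u j} := by
        ext K; simp
      rw [h5]
      exact MeasurableSet.iInter fun j => (ih j) (measurableSet_singleton (u j))
    · have h1 : (fun K : Compacts (ℤ → Fin (m + 2)) => pre e K (k + 1) i) =
          fun K => pre e K k i := by
        funext K
        show Function.update (pre e K k) k _ i = _
        rw [Function.update_of_ne hi]
      rw [h1]
      exact ih i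

/-- SEL. A Borel selector (greedy choice of the letters at `0, 1, -1, 2, -2, …`). -/
theorem exists_sel (m : ℕ) : ∃ s : Compacts (ℤ → Fin (m + 2)) → (ℤ → Fin (m + 2)),
    Measurable s ∧ ∀ K : Compacts (ℤ → Fin (m + 2)), (K : Set (ℤ → Fin (m + 2))).Nonempty →
      s K ∈ K := by
  obtain ⟨φ⟩ : Nonempty (ℤ ≃ ℕ) := ⟨Denumerable.eqv ℤ⟩
  refine ⟨fun K i => pre φ.symm K (φ i + 1) (φ i), ?_, ?_⟩
  · exact measurable_pi_iff.2 fun i => measurable_pre _ _ _
  · intro K hK
    have hcl : IsClosed (K : Set (ℤ → Fin (m + 2))) := K.isCompact.isClosed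
    show (fun i => pre φ.symm K (φ i + 1) (φ i)) ∈ (K : Set (ℤ → Fin (m + 2)))
    rw [← hcl.closure_eq, mem_closure_iff_nhds]
    intro U hU
    rw [nhds_pi, Filter.mem_pi'] at hU
    obtain ⟨I, t, ht, hsub⟩ := hU
    obtain ⟨y, hy, hyi⟩ := pre_exists φ.symm K hK ((I.sup φ) + 1)
    refine ⟨y, hsub fun i hi => ?_, hy⟩
    have hi' : φ i ≤ I.sup φ := Finset.le_sup (f := φ) hi
    have h1 := hyi (φ i) (by omega)
    rw [Equiv.symm_apply_apply, pre_of_lt φ.symm K (by omega)] at h1
    rw [h1]
    exact mem_of_mem_nhds (ht i)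

end Hft
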