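import Pool.Agent.Hft.Long
namespace Hft
variable {A B C : Type*}

/-- Restriction of words of radius `M` to words of radius `L`. -/
def stbR (L M : ℕ) (h : L ≤ M) (w : Fin (2 * M + 1) → A) : Fin (2 * L + 1) → A :=
  fun j => w ⟨(j : ℕ) + (M - L), by have := j.2; omega⟩

theorem stbR_wd {L M : ℕ} (h : L ≤ M) (x : ℤ → A) (i : ℤ) :
    stbR L M h (wd x M i) = wd x L i := by
  funext j
  simp only [stbR, wd]
  congr 1
  push_cast [Nat.cast_sub h]
  ring

theorem stbR_pat {L M : ℕ} (h : L ≤ M) (x : ℤ → A) (q : ℕ) (i : ℤ) :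
    stbR L M h '' Pat x q M i = Pat x q L i := by
  ext w
  constructor
  · rintro ⟨_, ⟨k, rfl⟩, rfl⟩
    exact ⟨k, (stbR_wd h x _).symm⟩
  · rintro ⟨k, rfl⟩
    exact ⟨_, ⟨k, rfl⟩, stbR_wd h x _⟩

/-- Restriction of types. -/
def stbT (L M : ℕ) (h : L ≤ M) (τ : Ty A M) : Ty A L := (stbR L M h '' τ.1, stbR L M h '' τ.2)

theorem stbT_ty {L M : ℕ} (h : L ≤ M) (x : ℤ → A) (q : ℕ) (a b : ℤ) :
    stbT L M h (ty x q M a b) = ty x q L a b := by
  simp only [stbT, ty, stbR_pat]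

theorem stb_surj [Finite A] {L M : ℕ} (h : L ≤ M) (x : ℤ → A) {τ : Ty A L} (hτ : τ ∈ Rec x L) :
    ∃ τ' ∈ Rec x M, τ = stbT L M h τ' := by
  obtain ⟨N, hN⟩ := mem_rec_of_long x M
  obtain ⟨n, a, b, hw, hl, ht⟩ := hτ N
  exact ⟨_, hN n a b hw hl, by rw [stbT_ty, ht]⟩

theorem stb_maps {L M : ℕ} (h : L ≤ M) (x : ℤ → A) {τ : Ty A M} (hτ : τ ∈ Rec x M) :
    stbT L M h τ ∈ Rec x L := by
  intro N
  obtain ⟨n, a, b, hw, hl, ht⟩ := hτ N
  exact ⟨n, a, b, hw, hl, by rw [← stbT_ty h, ht]⟩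

theorem stb_mono [Finite A] {L M : ℕ} (h : L ≤ M) (x : ℤ → A) :
    (Rec x L).ncard ≤ (Rec x M).ncard := by
  have hsub : Rec x L ⊆ stbT L M h '' Rec x M := by
    intro τ hτ
    obtain ⟨τ', h1, h2⟩ := stb_surj h x hτ
    exact ⟨τ', h1, h2.symm⟩
  calc (Rec x L).ncard ≤ (stbT L M h '' Rec x M).ncard :=
        Set.ncard_le_ncard hsub (Set.toFinite _)
    _ ≤ (Rec x M).ncard := Set.ncard_image_le (Set.toFinite _)

theorem prec_spec [Finite A] {x : ℤ → A} (hx : Good x) {L : ℕ} (hL : Prec x ≤ L) :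
    (Rec x L).ncard = (Rec x (Prec x)).ncard := by
  obtain ⟨c, hc⟩ := hx.bdd
  have hne : {L : ℕ | ∀ L' : ℕ, L ≤ L' → (Rec x L').ncard = (Rec x L).ncard}.Nonempty := by
    by_contra hemp
    rw [Set.not_nonempty_iff_eq_empty] at hemp
    have hstep : ∀ L : ℕ, ∃ L' : ℕ, L ≤ L' ∧ (Rec x L).ncard < (Rec x L').ncard := by
      intro L
      by_contra hcon
      push Not at hcon
      have : L ∈ {L : ℕ | ∀ L' : ℕ, L ≤ L' → (Rec x L').ncard = (Rec x L).ncard} := by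
        intro L' hLL'
        exact le_antisymm (hcon L' hLL') (stb_mono hLL' x)
      rw [hemp] at this
      exact this
    have hall : ∀ k : ℕ, ∃ L : ℕ, k ≤ (Rec x L).ncard := by
      intro k
      induction k with
      | zero => exact ⟨0, Nat.zero_le _⟩
      | succ k ih =>
        obtain ⟨L, hL⟩ := ih
        obtain ⟨L', _, h2⟩ := hstep L
        exact ⟨L', by omega⟩
    obtain ⟨L, hL⟩ := hall (c + 1)
    have := hc L
    omega
  have hmem := Nat.sInf_mem hne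
  exact hmem L hL

/-- ST2. For long windows the type of precision `Prec x` determines the type of precision `L`. -/
theorem type_stable [Finite A] {x : ℤ → A} (hx : Good x) {L : ℕ} (hL : Prec x ≤ L) :
    ∃ N : ℕ, ∀ (n : ℕ) (a b : ℤ) (n' : ℕ) (a' b' : ℤ), Win x n.factorial a b → (N : ℤ) ≤ b - a →
      Win x n'.factorial a' b' → (N : ℤ) ≤ b' - a' →
      ty x n.factorial (Prec x) a b = ty x n'.factorial (Prec x) a' b' →
      ty x n.factorial L a b = ty x n'.factorial L a' b' := by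
  obtain ⟨N, hN⟩ := mem_rec_of_long x L
  refine ⟨N, ?_⟩
  intro n a b n' a' b' hw hl hw' hl' hty
  have h1 := hN n a b hw hl
  have h2 := hN n' a' b' hw' hl'
  refine Set.inj_on_of_surj_on_of_ncard_le (s := Rec x L) (t := Rec x (Prec x))
    (fun τ _ => stbT (Prec x) L hL τ) (fun τ hτ => stb_maps hL x hτ) ?_
    (prec_spec hx hL).le h1 h2 ?_ (Set.toFinite _)
  · intro τ hτ
    obtain ⟨τ', h3, h4⟩ := stb_surj hL x hτ
    exact ⟨τ', h3, h4.symm⟩
  · simp only [stbT_ty, hty]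

end Hft
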