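import Pool.Agent.Hft.Orb
namespace Hft
variable {A B C : Type*}

private theorem transfer_sub {x y : ℤ → A} (h : InOrb x y) {q : ℕ} (hq : 0 < q) :
    ∃ j : ℤ, ∀ (L : ℕ) (i : ℤ), Pat y q L i ⊆ Pat x q L (i + j) := by
  choose k hk using h
  have : NeZero q := ⟨hq.ne'⟩
  obtain ⟨r, hr⟩ := Finite.exists_infinite_fiber (fun M : ℕ => ((k M : ℤ) : ZMod q))
  have hinf : Set.Infinite {M : ℕ | ((k M : ℤ) : ZMod q) = r} := by
    have := Set.infinite_coe_iff.1 hr
    simpa [Set.preimage] using this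
  obtain ⟨M₀, hM₀⟩ := hinf.nonempty
  refine ⟨k M₀, fun L i w => ?_⟩
  rintro ⟨c, rfl⟩
  obtain ⟨M, hM, hlt⟩ := hinf.exists_gt (L + (i + c * q).natAbs)
  have hcong : ((k M : ℤ) : ZMod q) = ((k M₀ : ℤ) : ZMod q) := by
    rw [Set.mem_ofPred_eq] at hM hM₀
    rw [hM, hM₀]
  obtain ⟨l, hl⟩ : (q : ℤ) ∣ k M - k M₀ := by
    have := (ZMod.intCast_eq_intCast_iff_dvd_sub _ _ _).1 hcong.symm
    exact this
  have hs := wd_sub (L := L) (t := i + c * q) (hk M) (by omega) (by omega)
  refine ⟨c + l, ?_⟩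
  have e1 : (0 : ℤ) + (i + c * q) = i + c * q := by ring
  have e2 : k M + (i + c * q) = i + k M₀ + (c + l) * q := by
    have : k M = k M₀ + q * l := by linarith
    rw [this]; ring
  rw [e1, e2] at hs
  exact hs

/-- TRA. At every level the pattern structure of a point of the orbit closure of `x` is a translate
of that of `x`. -/
theorem transfer {x y : ℤ → A} (hx : UR x) (h : InOrb x y) {q : ℕ} (hq : 0 < q) :
    ∃ j : ℤ, ∀ (L : ℕ) (i : ℤ), Pat y q L i = Pat x q L (i + j) := by
  obtain ⟨j, hj⟩ := transfer_sub h hq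
  obtain ⟨j', hj'⟩ := transfer_sub (inOrb_symm hx h) hq
  refine ⟨j, fun L i => Set.Subset.antisymm (hj L i) ?_⟩
  have step : ∀ i : ℤ, Pat y q L i ⊆ Pat y q L (i + (j + j')) := by
    intro i
    have := (hj L i).trans (hj' L (i + j))
    rwa [show i + j + j' = i + (j + j') by ring] at this
  have iter : ∀ (n : ℕ) (i : ℤ), Pat y q L i ⊆ Pat y q L (i + n * (j + j')) := by
    intro n
    induction n with
    | zero => intro i; simp
    | succ n ih =>
      intro i
      have := (ih i).trans (step _)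
      rwa [show i + (n : ℤ) * (j + j') + (j + j') = i + ((n + 1 : ℕ) : ℤ) * (j + j') by
        push_cast; ring] at this
  have h1 := hj' L (i + j)
  have h2 := iter (q - 1) (i + j + j')
  have h3 := h1.trans h2
  have e : i + j + j' + ((q - 1 : ℕ) : ℤ) * (j + j') = i + (j + j') * q := by
    have : ((q - 1 : ℕ) : ℤ) = (q : ℤ) - 1 := by
      have : 1 ≤ q := hq
      push_cast [this]; ring
    rw [this]; ring
  rw [e, pat_add] at h3
  exact h3

end Hft
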